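import Pool.Agent.AC2.Sound

/-!
# Soundness of the second loop
-/

open Real

namespace Pool.Agent.AC2

/-- approximation of the five values at `k` -/
def App0 (X : ℕ → ℕ → ℝ) (k a0 a1 a2 a3 a4 : ℕ) (E : ℝ) : Prop :=
  |X 0 k * 10 ^ 24 - a0| ≤ E ∧ |X 1 k * 10 ^ 24 - a1| ≤ E ∧ |X 2 k * 10 ^ 24 - a2| ≤ E ∧
    |X 3 k * 10 ^ 24 - a3| ≤ E ∧ |X 4 k * 10 ^ 24 - a4| ≤ E

theorem App0.step {X : ℕ → ℕ → ℝ} (hX : IsX X) {k a0 a1 a2 a3 a4 : ℕ} {E : ℝ} (hk : 5 ≤ k)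
    (h : App0 X k a0 a1 a2 a3 a4 E) :
    App0 X (k + 2) (a0 * (2 * k + 1) / (2 * k + 3)) (a1 * (2 * k - 1) / (2 * k + 5))
      (a2 * (2 * k - 3) / (2 * k + 7)) (a3 * (2 * k - 5) / (2 * k + 9))
      (a4 * (2 * k - 7) / (2 * k + 11)) (E + 1) := by
  obtain ⟨h0, h1, h2, h3, h4⟩ := h
  refine ⟨?_, ?_, ?_, ?_, ?_⟩
  · rw [hX.2 0 k (by omega) hk, show 2 * k + 1 - 2 * 0 = 2 * k + 1 by omega,
      show 2 * k + 3 + 2 * 0 = 2 * k + 3 by omega]
    exact step_err (by omega) (by omega) h0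
  · rw [hX.2 1 k (by omega) hk, show 2 * k + 1 - 2 * 1 = 2 * k - 1 by omega,
      show 2 * k + 3 + 2 * 1 = 2 * k + 5 by omega]
    exact step_err (by omega) (by omega) h1
  · rw [hX.2 2 k (by omega) hk, show 2 * k + 1 - 2 * 2 = 2 * k - 3 by omega,
      show 2 * k + 3 + 2 * 2 = 2 * k + 7 by omega]
    exact step_err (by omega) (by omega) h2
  · rw [hX.2 3 k (by omega) hk, show 2 * k + 1 - 2 * 3 = 2 * k - 5 by omega,
      show 2 * k + 3 + 2 * 3 = 2 * k + 9 by omega]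
    exact step_err (by omega) (by omega) h3
  · rw [hX.2 4 k (by omega) hk, show 2 * k + 1 - 2 * 4 = 2 * k - 7 by omega,
      show 2 * k + 3 + 2 * 4 = 2 * k + 11 by omega]
    exact step_err (by omega) (by omega) h4

theorem term_leP {u : ℝ} {v : ℕ} (h : |u| * 10 ^ 15 ≤ v) :
    u ^ 4 * 10 ^ 60 ≤ ((v * v * (v * v) : ℕ) : ℝ) := by
  have h1 : (|u| * 10 ^ 15) ^ 4 ≤ (v : ℝ) ^ 4 := pow_le_pow_left₀ (by positivity) h 4
  have h2 : (|u| * 10 ^ 15) ^ 4 = u ^ 4 * 10 ^ 60 := by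
    rw [mul_pow, ← pow_mul]
    congr 1
    exact Even.pow_abs (by decide) u
  rw [h2] at h1
  push_cast
  calc u ^ 4 * 10 ^ 60 ≤ (v : ℝ) ^ 4 := h1
    _ = _ := by ring

/-- SOUNDNESS of `loopP` -/
theorem loopP_sound {D M : ℕ → ℕ → ℕ → ℕ → ℕ → ℕ} {X : ℕ → ℕ → ℝ} {U : ℕ → ℝ} (hX : IsX X)
    (hD : ∀ k a0 a1 a2 a3 a4 E, App0 X k a0 a1 a2 a3 a4 E →
      |U k| * 10 ^ 31 ≤ (D a0 a1 a2 a3 a4 : ℝ) + 12000000 * E)
    (hM : ∀ k a0 a1 a2 a3 a4 E, 5 ≤ k → App0 X k a0 a1 a2 a3 a4 E → ∀ i : ℕ,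
      |U (k + 2 * i)| * 10 ^ 31 ≤ ((M a0 a1 a2 a3 a4 : ℝ) + 12000000 * E) *
        ((4 * k + 1 : ℝ) / (4 * k + 1 + 8 * i)) ^ (1 / 2 : ℝ)) :
    ∀ (n k a0 a1 a2 a3 a4 s : ℕ) (E : ℝ), 5 ≤ k → App0 X k a0 a1 a2 a3 a4 E →
      E + n ≤ 100000 → ∀ m : ℕ,
      (∑ i ∈ Finset.range m, (U (k + 2 * (i + 1)) ^ 4 * 10 ^ 60 : ℝ)) + (s : ℝ) ≤
        ((loopP D M n k a0 a1 a2 a3 a4 s : ℕ) : ℝ) := by
  intro n
  induction n with
  | zero =>
    intro k a0 a1 a2 a3 a4 s E hk hA hE m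
    set v := M a0 a1 a2 a3 a4 / 10000000000000000 + 2 with hv
    have hres : loopP D M 0 k a0 a1 a2 a3 a4 s =
        s + (v * v * (v * v) * ((4 * k + 1) * (4 * k + 1)) / (8 * (4 * k + 5)) + 1) := by
      have : loopP D M 0 k a0 a1 a2 a3 a4 s =
          sq (M a0 a1 a2 a3 a4 / 10000000000000000 + 2) fun v => sq (v * v) fun v2 =>
          s + (v2 * v2 * ((4 * k + 1) * (4 * k + 1)) / (8 * (4 * k + 5)) + 1) := rfl
      rw [this, sq_eq, sq_eq]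
    rw [hres]
    have hE0 : 0 ≤ E := (abs_nonneg _).trans hA.1
    have hE1 : E ≤ 100000 := by
      rw [Nat.cast_zero, add_zero] at hE
      exact hE
    have hv1 : ((M a0 a1 a2 a3 a4 : ℝ) + 12000000 * E) / 10 ^ 16 ≤ v := by
      have := floor_div (M a0 a1 a2 a3 a4) 10000000000000000 (by norm_num)
      rw [hv]
      push_cast at this ⊢
      have e1 : ((M a0 a1 a2 a3 a4 : ℝ) + 12000000 * E) / 10 ^ 16 =
          (M a0 a1 a2 a3 a4 : ℝ) / 10000000000000000 + 12000000 * E / 10 ^ 16 := by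
        rw [add_div]; norm_num
      rw [e1]
      have e2 : 12000000 * E / 10 ^ 16 ≤ 1 := by
        rw [div_le_one (by positivity)]
        linarith
      linarith
    have hterm : ∀ i : ℕ, U (k + 2 * (i + 1)) ^ 4 * 10 ^ 60 ≤
        ((v * v * (v * v) : ℕ) : ℝ) *
          ((4 * k + 1 : ℝ) / (4 * k + 1 + 8 * ((i + 1 : ℕ) : ℝ))) ^ 2 := by
      intro i
      set r : ℝ := (4 * k + 1 : ℝ) / (4 * k + 1 + 8 * ((i + 1 : ℕ) : ℝ)) with hr
      have hr0 : 0 ≤ r := by rw [hr]; positivity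
      have h1 := hM k a0 a1 a2 a3 a4 E hk hA (i + 1)
      have h2 : |U (k + 2 * (i + 1))| * 10 ^ 15 ≤ v * r ^ (1 / 2 : ℝ) := by
        have h3 : |U (k + 2 * (i + 1))| * 10 ^ 15 =
            |U (k + 2 * (i + 1))| * 10 ^ 31 / 10 ^ 16 := by
          field_simp
        rw [h3]
        calc |U (k + 2 * (i + 1))| * 10 ^ 31 / 10 ^ 16
            ≤ ((M a0 a1 a2 a3 a4 : ℝ) + 12000000 * E) * r ^ (1 / 2 : ℝ) / 10 ^ 16 :=
              div_le_div_of_nonneg_right h1 (by positivity)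
          _ = ((M a0 a1 a2 a3 a4 : ℝ) + 12000000 * E) / 10 ^ 16 * r ^ (1 / 2 : ℝ) := by ring
          _ ≤ v * r ^ (1 / 2 : ℝ) := mul_le_mul_of_nonneg_right hv1 (Real.rpow_nonneg hr0 _)
      have h3 : (|U (k + 2 * (i + 1))| * 10 ^ 15) ^ 4 ≤ (v * r ^ (1 / 2 : ℝ)) ^ 4 :=
        pow_le_pow_left₀ (by positivity) h2 4
      have h4 : (|U (k + 2 * (i + 1))| * 10 ^ 15) ^ 4 = U (k + 2 * (i + 1)) ^ 4 * 10 ^ 60 := by
        rw [mul_pow, ← pow_mul]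
        congr 1
        exact Even.pow_abs (by decide) _
      have h5 : (v * r ^ (1 / 2 : ℝ)) ^ 4 = ((v * v * (v * v) : ℕ) : ℝ) * r ^ 2 := by
        rw [mul_pow, ← Real.rpow_natCast (r ^ (1 / 2 : ℝ)), ← Real.rpow_mul hr0]
        have : (1 / 2 : ℝ) * ((4 : ℕ) : ℝ) = ((2 : ℕ) : ℝ) := by norm_num
        rw [this, Real.rpow_natCast]
        push_cast
        ring
      rw [h4, h5] at h3
      exact h3
    have hsum : (∑ i ∈ Finset.range m, (U (k + 2 * (i + 1)) ^ 4 * 10 ^ 60 : ℝ)) ≤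
        ((v * v * (v * v) : ℕ) : ℝ) *
          ((4 * (k : ℝ) + 1) ^ 2 / (8 * (4 * (k : ℝ) + 5))) := by
      refine (Finset.sum_le_sum fun i _ => hterm i).trans ?_
      rw [← Finset.mul_sum]
      exact mul_le_mul_of_nonneg_left (tail_sum k m) (by positivity)
    have hfl := floor_div (v * v * (v * v) * ((4 * k + 1) * (4 * k + 1))) (8 * (4 * k + 5))
      (by positivity)
    rw [Nat.cast_mul (v * v * (v * v))] at hfl
    have e1 : ((v * v * (v * v) : ℕ) : ℝ) * ((4 * (k : ℝ) + 1) ^ 2 / (8 * (4 * (k : ℝ) + 5))) =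
        ((v * v * (v * v) : ℕ) : ℝ) * (((4 * k + 1) * (4 * k + 1) : ℕ) : ℝ) /
          ((8 * (4 * k + 5) : ℕ) : ℝ) := by
      push_cast
      ring
    rw [e1] at hsum
    rw [Nat.cast_add s, Nat.cast_add _ 1, Nat.cast_one]
    linarith
  | succ n ih =>
    intro k a0 a1 a2 a3 a4 s E hk hA hE m
    set b0 := a0 * (2 * k + 1) / (2 * k + 3) with hb0
    set b1 := a1 * (2 * k - 1) / (2 * k + 5) with hb1
    set b2 := a2 * (2 * k - 3) / (2 * k + 7) with hb2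
    set b3 := a3 * (2 * k - 5) / (2 * k + 9) with hb3
    set b4 := a4 * (2 * k - 7) / (2 * k + 11) with hb4
    set v := D b0 b1 b2 b3 b4 / 10000000000000000 + 2 with hv
    have hres : loopP D M (n + 1) k a0 a1 a2 a3 a4 s =
        loopP D M n (k + 2) b0 b1 b2 b3 b4 (s + v * v * (v * v)) := by
      have : loopP D M (n + 1) k a0 a1 a2 a3 a4 s =
        (sq (a0 * (2 * k + 1) / (2 * k + 3)) fun b0 =>
        sq (a1 * (2 * k - 1) / (2 * k + 5)) fun b1 =>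
        sq (a2 * (2 * k - 3) / (2 * k + 7)) fun b2 =>
        sq (a3 * (2 * k - 5) / (2 * k + 9)) fun b3 =>
        sq (a4 * (2 * k - 7) / (2 * k + 11)) fun b4 =>
        sq (D b0 b1 b2 b3 b4 / 10000000000000000 + 2) fun v =>
        sq (v * v) fun v2 =>
        sq (s + v2 * v2) fun t =>
        sq (k + 2) fun k' => loopP D M n k' b0 b1 b2 b3 b4 t) := rfl
      rw [this]
      simp only [sq_eq]
      rfl
    rw [hres]
    have hA' : App0 X (k + 2) b0 b1 b2 b3 b4 (E + 1) := hA.step hX hk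
    have hE0 : 0 ≤ E := (abs_nonneg _).trans hA.1
    have hn0 : (0 : ℝ) ≤ n := Nat.cast_nonneg n
    have hE' : E + 1 + n ≤ 100000 := by push_cast at hE; linarith
    have ih' := ih (k + 2) b0 b1 b2 b3 b4 (s + v * v * (v * v)) (E + 1) (by omega) hA' hE'
    have hKy : |U (k + 2)| * 10 ^ 15 ≤ (v : ℝ) := by
      have h1 := hD (k + 2) b0 b1 b2 b3 b4 (E + 1) hA'
      have h2 := floor_div (D b0 b1 b2 b3 b4) 10000000000000000 (by norm_num)
      rw [hv]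
      push_cast at h2 ⊢
      have e1 : |U (k + 2)| * 10 ^ 15 = |U (k + 2)| * 10 ^ 31 / 10 ^ 16 := by
        field_simp
      have e2 : |U (k + 2)| * 10 ^ 31 / 10 ^ 16 ≤
          ((D b0 b1 b2 b3 b4 : ℝ) + 12000000 * (E + 1)) / 10 ^ 16 :=
        div_le_div_of_nonneg_right h1 (by positivity)
      have e3 : ((D b0 b1 b2 b3 b4 : ℝ) + 12000000 * (E + 1)) / 10 ^ 16 =
          (D b0 b1 b2 b3 b4 : ℝ) / 10000000000000000 + 12000000 * (E + 1) / 10 ^ 16 := by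
        rw [add_div]; norm_num
      have e4 : 12000000 * (E + 1) / 10 ^ 16 ≤ 1 := by
        rw [div_le_one (by positivity)]
        linarith
      linarith
    have hterm := term_leP hKy
    cases m with
    | zero =>
      have := ih' 0
      rw [Finset.sum_range_zero, zero_add] at this ⊢
      refine le_trans ?_ this
      exact_mod_cast Nat.le_add_right _ _
    | succ m =>
      have := ih' m
      rw [Finset.sum_range_succ']
      have e1 : ∀ i : ℕ, k + 2 * (i + 1 + 1) = k + 2 + 2 * (i + 1) := fun i => by ring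
      simp only [e1, zero_add, mul_one]
      rw [Nat.cast_add] at this
      linarith

/-! ### The four linear forms -/

/-- `|c_1 x_1 + … + c_5 x_5|` with exact coefficients and approximate values -/
theorem form_err {x1 x2 x3 x4 x5 a1 a2 a3 a4 a5 c1 c2 c3 c4 c5 E C : ℝ}
    (h1 : |x1 * 10 ^ 24 - a1| ≤ E) (h2 : |x2 * 10 ^ 24 - a2| ≤ E) (h3 : |x3 * 10 ^ 24 - a3| ≤ E)
    (h4 : |x4 * 10 ^ 24 - a4| ≤ E) (h5 : |x5 * 10 ^ 24 - a5| ≤ E)
    (hC : |c1| + |c2| + |c3| + |c4| + |c5| ≤ C) :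
    |c1 * x1 + c2 * x2 + c3 * x3 + c4 * x4 + c5 * x5| * 10 ^ 24 ≤
      |c1 * a1 + c2 * a2 + c3 * a3 + c4 * a4 + c5 * a5| + C * E := by
  have hE : 0 ≤ E := (abs_nonneg _).trans h1
  have e1 : |c1 * x1 + c2 * x2 + c3 * x3 + c4 * x4 + c5 * x5| * 10 ^ 24 =
      |(c1 * a1 + c2 * a2 + c3 * a3 + c4 * a4 + c5 * a5) + (c1 * (x1 * 10 ^ 24 - a1) +
        c2 * (x2 * 10 ^ 24 - a2) + c3 * (x3 * 10 ^ 24 - a3) + c4 * (x4 * 10 ^ 24 - a4) +
        c5 * (x5 * 10 ^ 24 - a5))| := by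
    rw [← abs_of_pos (show (0 : ℝ) < 10 ^ 24 by positivity), ← abs_mul,
      abs_of_pos (show (0 : ℝ) < 10 ^ 24 by positivity)]
    congr 1
    ring
  rw [e1]
  refine (abs_add_le _ _).trans (add_le_add le_rfl ?_)
  have f1 : |c1 * (x1 * 10 ^ 24 - a1)| ≤ |c1| * E := by
    rw [abs_mul]; exact mul_le_mul_of_nonneg_left h1 (abs_nonneg _)
  have f2 : |c2 * (x2 * 10 ^ 24 - a2)| ≤ |c2| * E := by
    rw [abs_mul]; exact mul_le_mul_of_nonneg_left h2 (abs_nonneg _)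
  have f3 : |c3 * (x3 * 10 ^ 24 - a3)| ≤ |c3| * E := by
    rw [abs_mul]; exact mul_le_mul_of_nonneg_left h3 (abs_nonneg _)
  have f4 : |c4 * (x4 * 10 ^ 24 - a4)| ≤ |c4| * E := by
    rw [abs_mul]; exact mul_le_mul_of_nonneg_left h4 (abs_nonneg _)
  have f5 : |c5 * (x5 * 10 ^ 24 - a5)| ≤ |c5| * E := by
    rw [abs_mul]; exact mul_le_mul_of_nonneg_left h5 (abs_nonneg _)
  have g1 := abs_add_le (c1 * (x1 * 10 ^ 24 - a1) + c2 * (x2 * 10 ^ 24 - a2) +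
    c3 * (x3 * 10 ^ 24 - a3) + c4 * (x4 * 10 ^ 24 - a4)) (c5 * (x5 * 10 ^ 24 - a5))
  have g2 := abs_add_le (c1 * (x1 * 10 ^ 24 - a1) + c2 * (x2 * 10 ^ 24 - a2) +
    c3 * (x3 * 10 ^ 24 - a3)) (c4 * (x4 * 10 ^ 24 - a4))
  have g3 := abs_add_le (c1 * (x1 * 10 ^ 24 - a1) + c2 * (x2 * 10 ^ 24 - a2))
    (c3 * (x3 * 10 ^ 24 - a3))
  have g4 := abs_add_le (c1 * (x1 * 10 ^ 24 - a1)) (c2 * (x2 * 10 ^ 24 - a2))
  have g5 := mul_le_mul_of_nonneg_right hC hE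
  linarith

/-- bound of a difference by the maximum, with a common factor -/
theorem abs_sub_le_max {P Q p q r : ℝ} (hP0 : 0 ≤ P) (hQ0 : 0 ≤ Q) (hr : 0 ≤ r)
    (hP : P ≤ p * r) (hQ : Q ≤ q * r) : |P - Q| ≤ max p q * r := by
  rw [abs_le]
  have h1 : p * r ≤ max p q * r := mul_le_mul_of_nonneg_right (le_max_left _ _) hr
  have h2 : q * r ≤ max p q * r := mul_le_mul_of_nonneg_right (le_max_right _ _) hr
  constructor <;> linarith

end Pool.Agent.AC2
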