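import Pool.Agent.AC2.Stmts
import Pool.Agent.AC2.SoundP

/-!
# The values of the coefficients
-/

open MeasureTheory Set Real

namespace Pool.Agent.AC2

section
variable (h : Stmt_REC)
include h

theorem ff_rec (j k : ℕ) : (2 * (j : ℝ) + 3 + 2 * k) * FF j (k + 2) =
    (2 * (j : ℝ) - 1 - 2 * k) * FF j k := by
  obtain ⟨h0, h1, -, -⟩ := h ((j : ℝ) - 1 / 2) (by
    have : (0 : ℝ) ≤ j := Nat.cast_nonneg j
    linarith)
  have h2 := h1 k
  unfold FF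
  rw [mul_div_assoc', mul_div_assoc']
  congr 1
  linear_combination 2 * h2

theorem ff_zero (j : ℕ) : FF (j + 1) 0 = FF j 1 := by
  obtain ⟨h0, -, h1, -⟩ := h ((j : ℝ) - 1 / 2) (by
    have : (0 : ℝ) ≤ j := Nat.cast_nonneg j
    linarith)
  unfold FF
  congr 1
  rw [← h1]
  congr 1
  push_cast
  ring

theorem ff_succ (j : ℕ) : FF (j + 1) 1 = (FF j 2 + FF j 0) / 2 := by
  obtain ⟨h0, -, -, h1⟩ := h ((j : ℝ) - 1 / 2) (by
    have : (0 : ℝ) ≤ j := Nat.cast_nonneg j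
    linarith)
  have h2 := h1 0
  have e : (((j + 1 : ℕ) : ℝ) - 1 / 2) = (j : ℝ) - 1 / 2 + 1 := by
    push_cast
    ring
  unfold FF
  rw [e]
  have e2 : II ((j : ℝ) - 1 / 2 + 1) 1 = (II ((j : ℝ) - 1 / 2) 2 + II ((j : ℝ) - 1 / 2) 0) / 2 := by
    simpa using h2
  rw [e2]
  ring

theorem ff_00 : FF 0 0 = 1 := by
  obtain ⟨h0, -, -, -⟩ := h (-1 / 2) (by norm_num)
  unfold FF
  have e : (((0 : ℕ) : ℝ) - 1 / 2) = -1 / 2 := by norm_num
  rw [e]
  exact div_self h0.ne'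

theorem v02 : FF 0 2 = -1 / 3 := by
  have h1 := ff_rec h 0 0
  rw [ff_00 h] at h1
  norm_num at h1 ⊢
  linarith

theorem v03 : FF 0 3 = -3 / 5 * FF 0 1 := by
  have h1 := ff_rec h 0 1
  norm_num at h1 ⊢
  linarith

theorem v04 : FF 0 4 = 5 / 21 := by
  have h1 := ff_rec h 0 2
  rw [v02 h] at h1
  norm_num at h1 ⊢
  linarith

theorem v05 : FF 0 5 = 7 / 15 * FF 0 1 := by
  have h1 := ff_rec h 0 3
  rw [v03 h] at h1
  norm_num at h1 ⊢
  linarith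

theorem v06 : FF 0 6 = -15 / 77 := by
  have h1 := ff_rec h 0 4
  rw [v04 h] at h1
  norm_num at h1 ⊢
  linarith

theorem v10 : FF 1 0 = FF 0 1 := by
  rw [ff_zero h 0]

theorem v11 : FF 1 1 = 1 / 3 := by
  rw [ff_succ h 0, v02 h, ff_00 h]
  ring

theorem v12 : FF 1 2 = 1 / 5 * FF 0 1 := by
  have h1 := ff_rec h 1 0
  rw [v10 h] at h1
  norm_num at h1 ⊢
  linarith

theorem v13 : FF 1 3 = -1 / 21 := by
  have h1 := ff_rec h 1 1
  rw [v11 h] at h1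
  norm_num at h1 ⊢
  linarith

theorem v14 : FF 1 4 = -1 / 15 * FF 0 1 := by
  have h1 := ff_rec h 1 2
  rw [v12 h] at h1
  norm_num at h1 ⊢
  linarith

theorem v15 : FF 1 5 = 5 / 231 := by
  have h1 := ff_rec h 1 3
  rw [v13 h] at h1
  norm_num at h1 ⊢
  linarith

theorem v16 : FF 1 6 = 7 / 195 * FF 0 1 := by
  have h1 := ff_rec h 1 4
  rw [v14 h] at h1
  norm_num at h1 ⊢
  linarith

theorem v20 : FF 2 0 = 1 / 3 := by
  rw [ff_zero h 1, v11 h]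

theorem v21 : FF 2 1 = 3 / 5 * FF 0 1 := by
  rw [ff_succ h 1, v12 h, v10 h]
  ring

theorem v22 : FF 2 2 = 1 / 7 := by
  have h1 := ff_rec h 2 0
  rw [v20 h] at h1
  norm_num at h1 ⊢
  linarith

theorem v23 : FF 2 3 = 1 / 15 * FF 0 1 := by
  have h1 := ff_rec h 2 1
  rw [v21 h] at h1
  norm_num at h1 ⊢
  linarith

theorem v24 : FF 2 4 = -1 / 77 := by
  have h1 := ff_rec h 2 2
  rw [v22 h] at h1
  norm_num at h1 ⊢
  linarith

theorem v25 : FF 2 5 = -1 / 65 * FF 0 1 := by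
  have h1 := ff_rec h 2 3
  rw [v23 h] at h1
  norm_num at h1 ⊢
  linarith

theorem v26 : FF 2 6 = 1 / 231 := by
  have h1 := ff_rec h 2 4
  rw [v24 h] at h1
  norm_num at h1 ⊢
  linarith

theorem v30 : FF 3 0 = 3 / 5 * FF 0 1 := by
  rw [ff_zero h 2, v21 h]

theorem v31 : FF 3 1 = 5 / 21 := by
  rw [ff_succ h 2, v22 h, v20 h]
  ring

theorem v32 : FF 3 2 = 1 / 3 * FF 0 1 := by
  have h1 := ff_rec h 3 0
  rw [v30 h] at h1
  norm_num at h1 ⊢
  linarith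

theorem v33 : FF 3 3 = 5 / 77 := by
  have h1 := ff_rec h 3 1
  rw [v31 h] at h1
  norm_num at h1 ⊢
  linarith

theorem v34 : FF 3 4 = 1 / 39 * FF 0 1 := by
  have h1 := ff_rec h 3 2
  rw [v32 h] at h1
  norm_num at h1 ⊢
  linarith

theorem v35 : FF 3 5 = -1 / 231 := by
  have h1 := ff_rec h 3 3
  rw [v33 h] at h1
  norm_num at h1 ⊢
  linarith

theorem v36 : FF 3 6 = -1 / 221 * FF 0 1 := by
  have h1 := ff_rec h 3 4
  rw [v34 h] at h1
  norm_num at h1 ⊢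
  linarith

theorem v40 : FF 4 0 = 5 / 21 := by
  rw [ff_zero h 3, v31 h]

theorem v41 : FF 4 1 = 7 / 15 * FF 0 1 := by
  rw [ff_succ h 3, v32 h, v30 h]
  ring

theorem v42 : FF 4 2 = 5 / 33 := by
  have h1 := ff_rec h 4 0
  rw [v40 h] at h1
  norm_num at h1 ⊢
  linarith

theorem v43 : FF 4 3 = 7 / 39 * FF 0 1 := by
  have h1 := ff_rec h 4 1
  rw [v41 h] at h1
  norm_num at h1 ⊢
  linarith

theorem v44 : FF 4 4 = 1 / 33 := by
  have h1 := ff_rec h 4 2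
  rw [v42 h] at h1
  norm_num at h1 ⊢
  linarith

theorem v45 : FF 4 5 = 7 / 663 * FF 0 1 := by
  have h1 := ff_rec h 4 3
  rw [v43 h] at h1
  norm_num at h1 ⊢
  linarith

theorem v46 : FF 4 6 = -1 / 627 := by
  have h1 := ff_rec h 4 4
  rw [v44 h] at h1
  norm_num at h1 ⊢
  linarith

theorem v50 : FF 5 0 = 7 / 15 * FF 0 1 := by
  rw [ff_zero h 4, v41 h]

theorem v51 : FF 5 1 = 15 / 77 := by
  rw [ff_succ h 4, v42 h, v40 h]
  ring

theorem v52 : FF 5 2 = 21 / 65 * FF 0 1 := by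
  have h1 := ff_rec h 5 0
  rw [v50 h] at h1
  norm_num at h1 ⊢
  linarith

theorem v53 : FF 5 3 = 1 / 11 := by
  have h1 := ff_rec h 5 1
  rw [v51 h] at h1
  norm_num at h1 ⊢
  linarith

theorem v54 : FF 5 4 = 21 / 221 * FF 0 1 := by
  have h1 := ff_rec h 5 2
  rw [v52 h] at h1
  norm_num at h1 ⊢
  linarith

theorem v55 : FF 5 5 = 3 / 209 := by
  have h1 := ff_rec h 5 3
  rw [v53 h] at h1
  norm_num at h1 ⊢
  linarith

theorem v56 : FF 5 6 = 1 / 221 * FF 0 1 := by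
  have h1 := ff_rec h 5 4
  rw [v54 h] at h1
  norm_num at h1 ⊢
  linarith

end

end Pool.Agent.AC2
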