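import Pool.Agent.AC2.Stmts

/-! Module DEC: decay of the Fourier coefficients. -/

set_option autoImplicit false

namespace Pool.Agent.AC2

namespace DEC_

theorem poly (j : ℕ) (hj : j ≤ 5) (m : ℝ) (hm : 0 ≤ m) :
    (2 * m + 11 - 2 * j) ^ 2 * (4 * m + 29) ^ (2 * j + 1) ≤
      (2 * m + 2 * j + 13) ^ 2 * (4 * m + 21) ^ (2 * j + 1) := by
  interval_cases j
  · push_cast
    rw [← sub_nonneg]
    ring_nf
    positivity
  · push_cast
    rw [← sub_nonneg]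
    ring_nf
    positivity
  · push_cast
    rw [← sub_nonneg]
    ring_nf
    positivity
  · push_cast
    rw [← sub_nonneg]
    ring_nf
    positivity
  · push_cast
    rw [← sub_nonneg]
    ring_nf
    positivity
  · push_cast
    rw [← sub_nonneg]
    ring_nf
    positivity

end DEC_

open DEC_

theorem dec_proof (h1 : Stmt_REC) : Stmt_DEC := by
  intro j k hj hk
  have hν : (-1 : ℝ) < (j : ℝ) - 1 / 2 := by
    have : (0 : ℝ) ≤ j := Nat.cast_nonneg j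
    linarith
  have hrec := (h1 ((j : ℝ) - 1 / 2) hν).2.1 k
  set x : ℝ := FF j (k + 2) with hx
  set y : ℝ := FF j k with hy
  have h0 : 0 < II (-1 / 2) 0 := (h1 (-1 / 2) (by norm_num)).1
  have hxy : (2 * (k : ℝ) + 2 * j + 3) * x = -((2 * k - 2 * j + 1) * y) := by
    have e1 : x = II ((j : ℝ) - 1 / 2) (k + 2) / II (-1 / 2) 0 := rfl
    have e2 : y = II ((j : ℝ) - 1 / 2) k / II (-1 / 2) 0 := rfl
    rw [e1, e2, ← mul_div_assoc, ← mul_div_assoc, ← neg_div]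
    congr 1
    linarith
  obtain ⟨m, rfl⟩ : ∃ m, k = 5 + m := ⟨k - 5, by omega⟩
  have hp := poly j hj m (Nat.cast_nonneg m)
  push_cast at hxy ⊢
  have hP : 0 < 2 * (5 + (m : ℝ)) + 2 * j + 3 := by positivity
  have hxy2 : (2 * (5 + (m : ℝ)) + 2 * j + 3) ^ 2 * x ^ 2 =
      (2 * (5 + (m : ℝ)) - 2 * j + 1) ^ 2 * y ^ 2 := by
    rw [← mul_pow, hxy]
    ring
  have hp2 : (2 * (5 + (m : ℝ)) - 2 * j + 1) ^ 2 * (5 + (m : ℝ) + 2 + 1 / 4) ^ (2 * j + 1) ≤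
      (2 * (5 + (m : ℝ)) + 2 * j + 3) ^ 2 * (5 + (m : ℝ) + 1 / 4) ^ (2 * j + 1) := by
    have e1 : (5 + (m : ℝ) + 2 + 1 / 4) = (4 * m + 29) / 4 := by ring
    have e2 : (5 + (m : ℝ) + 1 / 4) = (4 * m + 21) / 4 := by ring
    rw [e1, e2, div_pow, div_pow, ← mul_div_assoc, ← mul_div_assoc]
    apply div_le_div_of_nonneg_right _ (by positivity)
    have e3 : 2 * (5 + (m : ℝ)) - 2 * j + 1 = 2 * m + 11 - 2 * j := by ring
    have e4 : 2 * (5 + (m : ℝ)) + 2 * j + 3 = 2 * m + 2 * j + 13 := by ring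
    rw [e3, e4]
    exact hp
  have h3 : (2 * (5 + (m : ℝ)) + 2 * j + 3) ^ 2 *
      (x ^ 2 * (5 + (m : ℝ) + 2 + 1 / 4) ^ (2 * j + 1)) ≤
      (2 * (5 + (m : ℝ)) + 2 * j + 3) ^ 2 * (y ^ 2 * (5 + (m : ℝ) + 1 / 4) ^ (2 * j + 1)) := by
    calc (2 * (5 + (m : ℝ)) + 2 * j + 3) ^ 2 * (x ^ 2 * (5 + (m : ℝ) + 2 + 1 / 4) ^ (2 * j + 1))
        = y ^ 2 * ((2 * (5 + (m : ℝ)) - 2 * j + 1) ^ 2 *
          (5 + (m : ℝ) + 2 + 1 / 4) ^ (2 * j + 1)) := by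
          rw [← mul_assoc, hxy2]
          ring
      _ ≤ y ^ 2 * ((2 * (5 + (m : ℝ)) + 2 * j + 3) ^ 2 *
          (5 + (m : ℝ) + 1 / 4) ^ (2 * j + 1)) := mul_le_mul_of_nonneg_left hp2 (sq_nonneg y)
      _ = _ := by ring
  exact le_of_mul_le_mul_left h3 (by positivity)

end Pool.Agent.AC2
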