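import Pool.Agent.AC2.Stmts

/-!
# DEN: the test functions
-/

open MeasureTheory Set Real
open scoped ENNReal

namespace Pool.Agent.AC2

open Pool.Agent.AutoConv

namespace DEN_

/-- the profile -/
noncomputable def GG (B : ℕ → ℝ) (s : ℝ) : ℝ :=
  Real.cos s ^ (-1 / 2 : ℝ) * ∑ j ∈ Finset.range 5, B j * Real.cos s ^ j

theorem cos_pow_eq {c : ℝ} (hc : 0 ≤ c) (j : ℕ) :
    c ^ (-1 / 2 : ℝ) * c ^ j = c ^ ((j : ℝ) - 1 / 2) := by
  rcases hc.eq_or_lt with rfl | hc
  · rw [Real.zero_rpow (by norm_num), zero_mul, Real.zero_rpow]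
    intro e
    have h1 : (2 * j : ℝ) = 1 := by linarith
    have h2 : (2 * j : ℕ) = 1 := by exact_mod_cast h1
    omega
  · rw [← Real.rpow_natCast c j, ← Real.rpow_add hc]
    congr 1
    ring

theorem cos_nn {s : ℝ} (hs : s ∈ Icc (-(π / 2)) (π / 2)) : 0 ≤ Real.cos s :=
  Real.cos_nonneg_of_mem_Icc hs

theorem GG_eq (B : ℕ → ℝ) {s : ℝ} (hs : s ∈ Icc (-(π / 2)) (π / 2)) :
    GG B s = ∑ j ∈ Finset.range 5, B j * Real.cos s ^ ((j : ℝ) - 1 / 2) := by
  unfold GG
  rw [Finset.mul_sum]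
  refine Finset.sum_congr rfl fun j _ => ?_
  rw [← cos_pow_eq (cos_nn hs) j]
  ring

theorem pi2 : -(π / 2) ≤ π / 2 := by linarith [Real.pi_pos]

section
variable (h : Stmt_REC)
include h

theorem ii {ν : ℝ} (hν : -1 < ν) :
    IntervalIntegrable (fun s => Real.cos s ^ ν) volume (-(π / 2)) (π / 2) := by
  have h0 := (h ν hν).1
  by_contra hn
  unfold II at h0
  simp only [Nat.cast_zero, zero_mul, Real.cos_zero, mul_one] at h0
  rw [intervalIntegral.integral_undef hn] at h0
  exact lt_irrefl _ h0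

theorem iik {ν : ℝ} (hν : -1 < ν) (k : ℕ) :
    IntervalIntegrable (fun s => Real.cos s ^ ν * Real.cos (k * s)) volume (-(π / 2)) (π / 2) :=
  (ii h hν).mul_continuousOn (by fun_prop)

omit h in
theorem jm (j : ℕ) : (-1 : ℝ) < (j : ℝ) - 1 / 2 := by
  have : (0 : ℝ) ≤ j := Nat.cast_nonneg j
  linarith

theorem GG_ii (B : ℕ → ℝ) : IntervalIntegrable (GG B) volume (-(π / 2)) (π / 2) := by
  have h1 : IntervalIntegrable (fun s => ∑ j ∈ Finset.range 5,
      B j * Real.cos s ^ ((j : ℝ) - 1 / 2)) volume (-(π / 2)) (π / 2) := by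
    have := IntervalIntegrable.sum (μ := volume) (a := -(π / 2)) (b := π / 2) (Finset.range 5)
      (f := fun (j : ℕ) (s : ℝ) => B j * Real.cos s ^ ((j : ℝ) - 1 / 2))
      (fun j _ => (ii h (jm j)).const_mul _)
    refine this.congr fun s _ => ?_
    simp
  refine h1.congr fun s hs => ?_
  rw [uIoc_of_le pi2] at hs
  exact (GG_eq B ⟨hs.1.le, hs.2⟩).symm

theorem GG_int (B : ℕ → ℝ) (k : ℕ) : ∫ s in (-(π / 2))..(π / 2), GG B s * Real.cos (k * s) =
    ∑ j ∈ Finset.range 5, B j * II (j - 1 / 2) k := by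
  have h1 : ∫ s in (-(π / 2))..(π / 2), GG B s * Real.cos (k * s) =
      ∫ s in (-(π / 2))..(π / 2), ∑ j ∈ Finset.range 5,
        B j * (Real.cos s ^ ((j : ℝ) - 1 / 2) * Real.cos (k * s)) := by
    refine intervalIntegral.integral_congr fun s hs => ?_
    rw [uIcc_of_le pi2] at hs
    show GG B s * Real.cos (k * s) = _
    rw [GG_eq B hs, Finset.sum_mul]
    refine Finset.sum_congr rfl fun j _ => ?_
    ring
  rw [h1, intervalIntegral.integral_finsetSum]
  · refine Finset.sum_congr rfl fun j _ => ?_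
    rw [intervalIntegral.integral_const_mul]
    rfl
  · intro j _
    exact (iik h (jm j) k).const_mul _

theorem GG_fc (B : ℕ → ℝ) (k : ℤ) :
    ∫ s in (-(π / 2))..(π / 2), (GG B s : ℂ) * Complex.exp (((-(k * s) : ℝ) : ℂ) * Complex.I) =
    ((∑ j ∈ Finset.range 5, B j * II (j - 1 / 2) k.natAbs : ℝ) : ℂ) := by
  set F : ℝ → ℂ := fun s => (GG B s : ℂ) * Complex.exp (((-(k * s) : ℝ) : ℂ) * Complex.I) with hF
  have hi : IntervalIntegrable F volume (-(π / 2)) (π / 2) := by
    have h1 : IntervalIntegrable (fun s => ((GG B s : ℝ) : ℂ)) volume (-(π / 2)) (π / 2) :=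
      ⟨(GG_ii h B).1.ofReal, (GG_ii h B).2.ofReal⟩
    exact h1.mul_continuousOn (by fun_prop)
  have hn : ∫ s in (-(π / 2))..(π / 2), F (-s) = ∫ s in (-(π / 2))..(π / 2), F s := by
    rw [intervalIntegral.integral_comp_neg]
    simp
  have hi' : IntervalIntegrable (fun s => F (-s)) volume (-(π / 2)) (π / 2) := by
    have := (IntervalIntegrable.iff_comp_neg (by simp)).1 hi
    rw [neg_neg] at this
    exact this.symm
  have hs : ∫ s in (-(π / 2))..(π / 2), (F s + F (-s)) =
      ((2 * ∑ j ∈ Finset.range 5, B j * II (j - 1 / 2) k.natAbs : ℝ) : ℂ) := by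
    rw [← GG_int h B k.natAbs, ← intervalIntegral.integral_const_mul,
      ← intervalIntegral.integral_ofReal]
    refine intervalIntegral.integral_congr fun s hs => ?_
    have hev : GG B (-s) = GG B s := by
      unfold GG
      rw [Real.cos_neg]
    have hc : Real.cos ((k.natAbs : ℕ) * s) = Real.cos (k * s) := by
      rcases Int.natAbs_eq k with h1 | h1
      · rw [show ((k.natAbs : ℕ) : ℝ) = ((k : ℤ) : ℝ) by
          conv_rhs => rw [h1]
          simp]
      · rw [show ((k : ℤ) : ℝ) = -((k.natAbs : ℕ) : ℝ) by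
          conv_lhs => rw [h1]
          simp, neg_mul, Real.cos_neg]
    show F s + F (-s) = ((2 * (GG B s * Real.cos ((k.natAbs : ℕ) * s)) : ℝ) : ℂ)
    rw [hc]
    simp only [hF, hev]
    push_cast
    have e1 : -((k : ℂ) * (s : ℂ)) * Complex.I = -(((k : ℂ) * s) * Complex.I) := by ring
    have e2 : -((k : ℂ) * -(s : ℂ)) * Complex.I = ((k : ℂ) * s) * Complex.I := by ring
    rw [e1, e2, Complex.cos]
    have e3 : -((k : ℂ) * (s : ℂ)) * Complex.I = -(((k : ℂ) * s) * Complex.I) := by ring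
    rw [e3]
    ring
  rw [intervalIntegral.integral_add hi hi', hn] at hs
  have : (2 : ℂ) * ∫ s in (-(π / 2))..(π / 2), F s =
      2 * ((∑ j ∈ Finset.range 5, B j * II (j - 1 / 2) k.natAbs : ℝ) : ℂ) := by
    rw [two_mul, hs]
    push_cast
    ring
  exact mul_left_cancel₀ two_ne_zero this

end

theorem ii_shift {g : ℝ → ℝ} (hg : IntervalIntegrable g volume (-(π / 2)) (π / 2)) :
    IntervalIntegrable (fun x => g (π * x - π / 2)) volume 0 1 := by
  have h2 := hg.comp_sub_right (π / 2)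
  have h3 := h2.comp_mul_left (c := π) (by simp) (by simp)
  have e1 : (-(π / 2) + π / 2) / π = 0 := by ring
  have e2 : (π / 2 + π / 2) / π = 1 := by
    field_simp
    norm_num
  rw [e1, e2] at h3
  exact h3

theorem mem_sh {x : ℝ} (hx : x ∈ Icc (0 : ℝ) 1) : π * x - π / 2 ∈ Icc (-(π / 2)) (π / 2) := by
  have hp := Real.pi_pos
  constructor <;> nlinarith [hx.1, hx.2]

/-- the density -/
noncomputable def den (B : ℕ → ℝ) (c : ℝ) : ℝ → ℝ :=
  (Icc (0 : ℝ) 1).indicator fun x => c * GG B (π * x - π / 2)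

end DEN_

open DEN_ in
theorem den_proof (hY : Stmt_YNG) (h : Stmt_REC) : Stmt_DEN := by
  intro B hB hS
  have I0 : 0 < II (-1 / 2) 0 := (h (-1 / 2) (by norm_num)).1
  set S := ∑ j ∈ Finset.range 5, B j * FF j 0 with hSd
  have key : ∀ k : ℕ, ∑ j ∈ Finset.range 5, B j * II (j - 1 / 2) k =
      II (-1 / 2) 0 * ∑ j ∈ Finset.range 5, B j * FF j k := by
    intro k
    rw [Finset.mul_sum]
    refine Finset.sum_congr rfl fun j _ => ?_
    unfold FF
    rw [mul_left_comm, mul_div_cancel₀ _ I0.ne']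
  set c : ℝ := π / (S * II (-1 / 2) 0) with hc
  have c0 : 0 < c := by positivity
  set f := den B c with hf
  have hfi : IntervalIntegrable (fun x => c * GG B (π * x - π / 2)) volume 0 1 :=
    (ii_shift (GG_ii h B)).const_mul c
  have hfI : Integrable f := by
    rw [hf, den, integrable_indicator_iff measurableSet_Icc, integrableOn_Icc_iff_integrableOn_Ioc]
    exact (intervalIntegrable_iff_integrableOn_Ioc_of_le zero_le_one).1 hfi
  have G0 : ∀ s ∈ Icc (-(π / 2)) (π / 2), 0 ≤ GG B s := by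
    intro s hs
    have h1 := cos_nn hs
    exact mul_nonneg (Real.rpow_nonneg h1 _) (hB _ ⟨h1, Real.cos_le_one s⟩)
  have f0 : ∀ x, 0 ≤ f x := by
    intro x
    rw [hf, den]
    refine indicator_nonneg (fun x hx => ?_) x
    exact mul_nonneg c0.le (G0 _ (mem_sh hx))
  have fcf : ∀ k : ℤ, fc f k = (c / π : ℂ) * (Complex.exp (((-(k * (π / 2)) : ℝ) : ℂ) * Complex.I) *
      ((∑ j ∈ Finset.range 5, B j * II (j - 1 / 2) k.natAbs : ℝ) : ℂ)) := by
    intro k
    set F : ℝ → ℂ := fun s => (GG B s : ℂ) * Complex.exp (((-(k * s) : ℝ) : ℂ) * Complex.I) with hF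
    have e1 : fc f k = ∫ x in (0 : ℝ)..1, ((c : ℂ) *
        Complex.exp (((-(k * (π / 2)) : ℝ) : ℂ) * Complex.I)) * F (π * x - π / 2) := by
      unfold fc
      rw [intervalIntegral.integral_of_le zero_le_one, ← integral_Icc_eq_integral_Ioc,
        ← integral_indicator measurableSet_Icc]
      refine integral_congr_ae (Filter.Eventually.of_forall fun x => ?_)
      show (f x : ℂ) * _ = _
      by_cases hx : x ∈ Icc (0 : ℝ) 1
      · rw [indicator_of_mem hx, hf, den, indicator_of_mem hx]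
        simp only [hF]
        have e2 : (((-(π * k * x) : ℝ) : ℂ) * Complex.I) =
            (((-(k * (π / 2)) : ℝ) : ℂ) * Complex.I) +
              (((-(k * (π * x - π / 2)) : ℝ) : ℂ) * Complex.I) := by
          push_cast
          ring
        rw [e2, Complex.exp_add]
        push_cast
        ring
      · rw [indicator_of_notMem hx, hf, den, indicator_of_notMem hx]
        simp
    rw [e1, intervalIntegral.integral_const_mul,
      intervalIntegral.integral_comp_mul_sub (f := F) Real.pi_ne_zero]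
    have e3 : π * 0 - π / 2 = -(π / 2) := by ring
    have e4 : π * 1 - π / 2 = π / 2 := by ring
    rw [e3, e4, GG_fc h B k]
    rw [Complex.real_smul]
    push_cast
    ring
  have nrm : ∀ k : ℤ, ‖fc f k‖ = |∑ j ∈ Finset.range 5, B j * FF j k.natAbs| / S := by
    intro k
    rw [fcf k, norm_mul, norm_mul, Complex.norm_exp_ofReal_mul_I, one_mul, key, Complex.norm_real,
      Real.norm_eq_abs, abs_mul, abs_of_pos I0]
    have e5 : ‖(c / π : ℂ)‖ = c / π := by
      rw [norm_div, Complex.norm_real, Complex.norm_real, Real.norm_eq_abs, Real.norm_eq_abs,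
        abs_of_pos c0, abs_of_pos Real.pi_pos]
    have hp := Real.pi_pos
    rw [e5, hc]
    generalize II (-1 / 2) 0 = I at I0 ⊢
    field_simp
  have hf1 : ∫ x, f x = 1 := by
    have h1 := fcf 0
    unfold fc at h1
    simp only [Int.cast_zero, mul_zero, zero_mul, neg_zero, Complex.ofReal_zero, Complex.exp_zero,
      mul_one, one_mul, Int.natAbs_zero, key] at h1
    rw [integral_complex_ofReal] at h1
    have h2 : ((∫ x, f x : ℝ) : ℂ) = ((1 : ℝ) : ℂ) := by
      rw [h1, hc, ← hSd]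
      have hS' : (S : ℂ) ≠ 0 := by exact_mod_cast hS.ne'
      have hI' : (II (-1 / 2) 0 : ℂ) ≠ 0 := by exact_mod_cast I0.ne'
      have hp' : (π : ℂ) ≠ 0 := by exact_mod_cast Real.pi_ne_zero
      push_cast
      generalize (II (-1 / 2) 0 : ℂ) = I at hI' ⊢
      field_simp
    exact_mod_cast h2
  have meas : Measurable f := by
    rw [hf, den]
    refine Measurable.indicator ?_ measurableSet_Icc
    have hg : Measurable (GG B) := by
      unfold GG
      fun_prop
    exact (hg.comp (by fun_prop : Measurable fun x : ℝ => π * x - π / 2)).const_mul c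
  refine ⟨f, ⟨hfI, f0, fun x hx => ?_, hf1⟩, ?_, nrm⟩
  · rw [hf, den, indicator_of_notMem hx]
  refine hY f meas f0 ?_
  set M : ℝ := ∑ j ∈ Finset.range 5, |B j| with hM
  have hM0 : 0 ≤ M := Finset.sum_nonneg fun j _ => abs_nonneg _
  have bd : ∀ s ∈ Icc (-(π / 2)) (π / 2), (c * GG B s) ^ (4 / 3 : ℝ) ≤
      (c * M) ^ (4 / 3 : ℝ) * Real.cos s ^ (-2 / 3 : ℝ) := by
    intro s hs
    have h1 := cos_nn hs
    have h2 : ∑ j ∈ Finset.range 5, B j * Real.cos s ^ j ≤ M := by
      refine Finset.sum_le_sum fun j _ => ?_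
      have : Real.cos s ^ j ≤ 1 := pow_le_one₀ h1 (Real.cos_le_one s)
      have h0 : 0 ≤ Real.cos s ^ j := pow_nonneg h1 j
      calc B j * Real.cos s ^ j ≤ |B j| * Real.cos s ^ j := by
            gcongr
            exact le_abs_self _
        _ ≤ |B j| * 1 := by gcongr
        _ = |B j| := mul_one _
    have h3 : c * GG B s ≤ (c * M) * Real.cos s ^ (-1 / 2 : ℝ) := by
      unfold GG
      have := Real.rpow_nonneg h1 (-1 / 2)
      calc c * (Real.cos s ^ (-1 / 2 : ℝ) * ∑ j ∈ Finset.range 5, B j * Real.cos s ^ j) ≤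
          c * (Real.cos s ^ (-1 / 2 : ℝ) * M) := by gcongr
        _ = (c * M) * Real.cos s ^ (-1 / 2 : ℝ) := by ring
    have h4 := Real.rpow_le_rpow (mul_nonneg c0.le (G0 s hs)) h3 (by norm_num : (0 : ℝ) ≤ 4 / 3)
    rw [Real.mul_rpow (by positivity) (Real.rpow_nonneg h1 _), ← Real.rpow_mul h1] at h4
    have e : (-1 / 2 : ℝ) * (4 / 3) = -2 / 3 := by norm_num
    rw [e] at h4
    exact h4
  have hi2 : IntegrableOn (fun x => (c * M) ^ (4 / 3 : ℝ) * Real.cos (π * x - π / 2) ^ (-2 / 3 : ℝ))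
      (Icc (0 : ℝ) 1) := by
    rw [integrableOn_Icc_iff_integrableOn_Ioc]
    exact (intervalIntegrable_iff_integrableOn_Ioc_of_le zero_le_one).1
      ((ii_shift (ii h (ν := -2 / 3) (by norm_num))).const_mul _)
  have le1 : ∫⁻ x, ENNReal.ofReal (f x ^ (4 / 3 : ℝ)) ≤ ∫⁻ x in Icc (0 : ℝ) 1,
      ENNReal.ofReal ((c * M) ^ (4 / 3 : ℝ) * Real.cos (π * x - π / 2) ^ (-2 / 3 : ℝ)) := by
    rw [← lintegral_indicator measurableSet_Icc]
    refine lintegral_mono fun x => ?_
    by_cases hx : x ∈ Icc (0 : ℝ) 1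
    · rw [indicator_of_mem hx, hf, den, indicator_of_mem hx]
      exact ENNReal.ofReal_le_ofReal (bd _ (mem_sh hx))
    · rw [indicator_of_notMem hx, hf, den, indicator_of_notMem hx, Real.zero_rpow (by norm_num)]
      simp
  have lt1 := hi2.lintegral_lt_top
  exact (lt_of_le_of_lt le1 lt1).ne

end Pool.Agent.AC2
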