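import Pool.Agent.AutoConv.Defs

/-!
# The L² norm of autoconvolutions on the unit interval: definitions
-/

open MeasureTheory Set Real
open scoped ENNReal

namespace Pool.Agent.AC2

open Pool.Agent.AutoConv

/-- `∫_{-π/2}^{π/2} cos^ν s cos (k s) ds` -/
noncomputable def II (ν : ℝ) (k : ℕ) : ℝ :=
  ∫ s in (-(π / 2))..(π / 2), Real.cos s ^ ν * Real.cos (k * s)

/-- the Fourier coefficient `∫ f(x) e^{-iπkx} dx` -/
noncomputable def fc (f : ℝ → ℝ) (k : ℤ) : ℂ :=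
  ∫ x, (f x : ℂ) * Complex.exp (((-(π * k * x) : ℝ) : ℂ) * Complex.I)

/-- `∫_{-π/2}^{π/2} cos^{j - 1/2} s cos (k s) ds / ∫_{-π/2}^{π/2} cos^{-1/2} s ds` -/
noncomputable def FF (j k : ℕ) : ℝ := II (j - 1 / 2) k / II (-1 / 2) 0

end Pool.Agent.AC2
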