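import Pool.Agent.AC2.Small

/-!
# The lower and the upper bound
-/

open MeasureTheory Set Real
open scoped ENNReal

namespace Pool.Agent.AC2

open Pool.Agent.AutoConv

theorem nat_sum {T : ℕ → ℝ} {a b : ℝ} (hT : ∀ n, 0 ≤ T n)
    (ho : ∀ m, ∑ i ∈ Finset.range m, T (7 + 2 * i) ≤ a)
    (he : ∀ m, ∑ i ∈ Finset.range m, T (8 + 2 * i) ≤ b) :
    ∃ S, HasSum T S ∧ S ≤ ∑ i ∈ Finset.range 7, T i + a + b := by
  have s1 : Summable fun i : ℕ => T (7 + 2 * i) :=
    summable_of_sum_range_le (fun i => hT _) ho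
  have s2 : Summable fun i : ℕ => T (8 + 2 * i) :=
    summable_of_sum_range_le (fun i => hT _) he
  have b1 : ∑' i : ℕ, T (7 + 2 * i) ≤ a := Real.tsum_le_of_sum_range_le (fun i => hT _) ho
  have b2 : ∑' i : ℕ, T (8 + 2 * i) ≤ b := Real.tsum_le_of_sum_range_le (fun i => hT _) he
  have h1 : HasSum (fun k : ℕ => T (2 * k + 7)) (∑' i : ℕ, T (7 + 2 * i)) := by
    have := s1.hasSum
    simpa [add_comm] using this
  have h2 : HasSum (fun k : ℕ => T (2 * k + 1 + 7)) (∑' i : ℕ, T (8 + 2 * i)) := by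
    have := s2.hasSum
    have e : (fun k : ℕ => T (2 * k + 1 + 7)) = fun i : ℕ => T (8 + 2 * i) := by
      funext k
      congr 1
      ring
    rw [e]
    exact this
  have h3 := HasSum.even_add_odd (f := fun n : ℕ => T (n + 7)) h1 h2
  have h4 := (hasSum_nat_add_iff 7).1 h3
  exact ⟨_, h4, by linarith⟩

theorem int_sum {T : ℕ → ℝ} {S : ℝ} (h : HasSum T S) :
    HasSum (fun k : ℤ => T k.natAbs) (2 * S - T 0) := by
  have h1 : HasSum (fun n : ℕ => (fun k : ℤ => T k.natAbs) (n : ℤ)) S := by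
    simpa using h
  have h2 : HasSum (fun n : ℕ => T (n + 1)) (S - T 0) := by
    rw [hasSum_nat_add_iff 1]
    simpa using h
  have h3 : HasSum (fun n : ℕ => (fun k : ℤ => T k.natAbs) (-((n : ℤ) + 1))) (S - T 0) := by
    have e : (fun n : ℕ => (fun k : ℤ => T k.natAbs) (-((n : ℤ) + 1))) =
        fun n : ℕ => T (n + 1) := by
      funext n
      show T (Int.natAbs (-((n : ℤ) + 1))) = T (n + 1)
      congr 1
    rw [e]
    exact h2
  have h4 := HasSum.of_nat_of_neg_add_one (f := fun k : ℤ => T k.natAbs) h1 h3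
  have e : 2 * S - T 0 = S + (S - T 0) := by ring
  rw [e]
  exact h4

/-- the dual sequence -/
noncomputable def KK (n : ℕ) : ℝ := (if n = 0 then lam else 0) + Kq n

/-- the terms of the dual sum -/
noncomputable def TT (n : ℕ) : ℝ := 2 * |KK n| * ee n + KK n ^ 2 / ee n ^ 2

theorem TT_nonneg (n : ℕ) : 0 ≤ TT n := by
  have := ee_pos n
  unfold TT
  positivity

theorem KK_zero : KK 0 = lam + Kq 0 := by simp [KK]

theorem KK_pos {n : ℕ} (h : n ≠ 0) : KK n = Kq n := by simp [KK, h]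

theorem TT_big {n : ℕ} (hn : 7 ≤ n) : TT n = 3 * |Kq n| ^ (4 / 3 : ℝ) := by
  unfold TT
  rw [KK_pos (by omega)]
  have e : ee n = if Kq n = 0 then 1 else |Kq n| ^ (1 / 3 : ℝ) := by
    unfold ee
    rw [if_neg (by omega), if_neg (by omega), if_neg (by omega), if_neg (by omega),
      if_neg (by omega), if_neg (by omega), if_neg (by omega)]
  rw [e]
  by_cases h : Kq n = 0
  · rw [if_pos h, h]
    have : (0 : ℝ) ^ (4 / 3 : ℝ) = 0 := Real.zero_rpow (by norm_num)
    simp [this]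
  · rw [if_neg h, ← sq_abs (Kq n)]
    have hp : 0 < |Kq n| := abs_pos.2 h
    set y := |Kq n| with hy
    have e1 : y * y ^ (1 / 3 : ℝ) = y ^ (4 / 3 : ℝ) := by
      nth_rewrite 1 [← Real.rpow_one y]
      rw [← Real.rpow_add hp]
      norm_num
    have e2 : y ^ 2 / (y ^ (1 / 3 : ℝ)) ^ 2 = y ^ (4 / 3 : ℝ) := by
      rw [← Real.rpow_natCast y 2, ← Real.rpow_natCast (y ^ (1 / 3 : ℝ)) 2, ← Real.rpow_mul hp.le,
        ← Real.rpow_sub hp]
      norm_num
    rw [e2, mul_assoc, e1]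
    ring

section
variable (h : Stmt_REC) (hρ : Stmt_RHO)
include h hρ

theorem TT_sum : ∃ S, HasSum TT S ∧ S - TT 0 / 2 ≤ 2 * lam - 57463960712 / 100000000000 := by
  obtain ⟨S, h1, h2⟩ := nat_sum (T := TT) (a := 9925225775513495444163 / 10 ^ 24)
    (b := 8031730101550983762256 / 10 ^ 24) TT_nonneg
    (fun m => by
      rw [Finset.sum_congr rfl fun i _ => TT_big (n := 7 + 2 * i) (by omega)]
      exact sumK_odd h hρ m)
    (fun m => by
      rw [Finset.sum_congr rfl fun i _ => TT_big (n := 8 + 2 * i) (by omega)]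
      exact sumK_evn h hρ m)
  refine ⟨S, h1, ?_⟩
  have h3 := head_dual h hρ
  rw [Finset.sum_range_succ, Finset.sum_range_succ, Finset.sum_range_succ, Finset.sum_range_succ,
    Finset.sum_range_succ, Finset.sum_range_succ, Finset.sum_range_succ, Finset.sum_range_zero]
    at h2
  have e1 : TT 1 = 2 * |Kq 1| * ee 1 + Kq 1 ^ 2 / ee 1 ^ 2 := by
    unfold TT; rw [KK_pos (by norm_num)]
  have e2 : TT 2 = 2 * |Kq 2| * ee 2 + Kq 2 ^ 2 / ee 2 ^ 2 := by
    unfold TT; rw [KK_pos (by norm_num)]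
  have e3 : TT 3 = 2 * |Kq 3| * ee 3 + Kq 3 ^ 2 / ee 3 ^ 2 := by
    unfold TT; rw [KK_pos (by norm_num)]
  have e4 : TT 4 = 2 * |Kq 4| * ee 4 + Kq 4 ^ 2 / ee 4 ^ 2 := by
    unfold TT; rw [KK_pos (by norm_num)]
  have e5 : TT 5 = 2 * |Kq 5| * ee 5 + Kq 5 ^ 2 / ee 5 ^ 2 := by
    unfold TT; rw [KK_pos (by norm_num)]
  have e6 : TT 6 = 2 * |Kq 6| * ee 6 + Kq 6 ^ 2 / ee 6 ^ 2 := by
    unfold TT; rw [KK_pos (by norm_num)]
  have e0 : TT 0 = 2 * |lam + Kq 0| * ee 0 + (lam + Kq 0) ^ 2 / ee 0 ^ 2 := by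
    unfold TT; rw [KK_zero]
  rw [← e0, ← e1, ← e2, ← e3, ← e4, ← e5, ← e6] at h3
  linarith

theorem dual_bound (hL : Stmt_LOW) (hV : Stmt_VAN) {f : ℝ → ℝ} (hf : IsUnitIntervalDensity f)
    (hm : MemLp (autoconv f) 2 volume) :
    57463960712 / 100000000000 ≤ ∫ x, autoconv f x ^ 2 := by
  obtain ⟨S, h1, h2⟩ := TT_sum h hρ
  obtain ⟨v1, v2⟩ := hV gg lam
  have hI := int_sum h1
  have hK : ∀ k : ℤ, ((if k = 0 then lam else 0) + (-1 : ℝ) ^ k.natAbs *
      ∑ j ∈ Finset.range 5, gg j * FF (j + 1) k.natAbs) = KK k.natAbs := by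
    intro k
    unfold KK Kq
    by_cases hk : k = 0
    · simp [hk]
    · rw [if_neg hk, if_neg (by omega)]
  have hS : Summable fun k : ℤ => KK k.natAbs := by
    have a1 : Summable fun k : ℤ => (if k = 0 then lam else (0 : ℝ)) :=
      summable_of_ne_finset_zero (s := {0}) fun b hb => by
        rw [if_neg (by simpa using hb)]
    have a2 := a1.add v1
    refine a2.congr fun k => ?_
    exact hK k
  have h5 := hL f (fun k => KK k.natAbs) (fun k => ee k.natAbs) lam hf hm (fun k => ee_pos _) hS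
    hI.summable (fun x hx => by
      have := v2 x hx
      simp only [hK] at this
      exact this)
  have h6 : (∑' k : ℤ, (2 * |KK k.natAbs| * ee k.natAbs + KK k.natAbs ^ 2 / ee k.natAbs ^ 2)) =
      2 * S - TT 0 := hI.tsum_eq
  rw [h6] at h5
  linarith

theorem primal_bound (hP : Stmt_PAR) (hD : Stmt_DEN) :
    ∃ f : ℝ → ℝ, IsUnitIntervalDensity f ∧ MemLp (autoconv f) 2 volume ∧
      ∫ x, autoconv f x ^ 2 ≤ 57463960716 / 100000000000 := by
  have u0 : 0 < Uq 0 := lt_of_lt_of_le (by norm_num) (Ub0 h hρ)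
  have hB : ∀ c ∈ Icc (0 : ℝ) 1, 0 ≤ ∑ j ∈ Finset.range 5, BB j * c ^ j := by
    intro c hc
    simp only [Finset.sum_range_succ, Finset.sum_range_zero, BB]
    have c0 := hc.1
    have c1 := hc.2
    have c2 : c ^ 2 ≤ 1 := pow_le_one₀ c0 c1
    have c4 : c ^ 4 ≤ 1 := pow_le_one₀ c0 c1
    have c3 : 0 ≤ c ^ 3 := by positivity
    nlinarith
  obtain ⟨f, hf, hm, hfc⟩ := hD BB hB u0
  refine ⟨f, hf, hm, ?_⟩
  have hPar := hP f hf hm
  set T : ℕ → ℝ := fun n => Uq n ^ 4 / Uq 0 ^ 4 with hT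
  have hq : ∀ k : ℤ, ‖fc f k‖ ^ 4 = T k.natAbs := by
    intro k
    rw [hfc k]
    show (|Uq k.natAbs| / Uq 0) ^ 4 = Uq k.natAbs ^ 4 / Uq 0 ^ 4
    rw [div_pow, Even.pow_abs (by decide)]
  have hT0 : ∀ n, 0 ≤ T n := fun n => by
    simp only [hT]
    have : 0 ≤ Uq n ^ 4 := by positivity
    positivity
  obtain ⟨S, h1, h2⟩ := nat_sum (T := T)
    (a := (3308444095643542647004663854888332755587347434272398533657 / 10 ^ 60) / Uq 0 ^ 4)
    (b := (2677214721477400828740152196600127726862336257122050380691 / 10 ^ 60) / Uq 0 ^ 4) hT0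
    (fun m => by
      simp only [hT]
      rw [← Finset.sum_div]
      have := sumU_odd h hρ m
      gcongr)
    (fun m => by
      simp only [hT]
      rw [← Finset.sum_div]
      have := sumU_evn h hρ m
      gcongr)
  have h3 := int_sum h1
  have h4 : 2 * ∫ x, autoconv f x ^ 2 = 2 * S - T 0 := by
    simp only [hq] at hPar
    exact hPar.unique h3
  have hT00 : T 0 = 1 := by
    simp only [hT]
    exact div_self (by positivity)
  have h5 := head_primal h hρ
  rw [Finset.sum_range_succ, Finset.sum_range_succ, Finset.sum_range_succ, Finset.sum_range_succ,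
    Finset.sum_range_succ, Finset.sum_range_succ, Finset.sum_range_succ, Finset.sum_range_zero]
    at h2
  have hp : 0 < Uq 0 ^ 4 := by positivity
  have h6 : (Uq 1 ^ 4 + Uq 2 ^ 4 + Uq 3 ^ 4 + Uq 4 ^ 4 + Uq 5 ^ 4 + Uq 6 ^ 4 +
      3308444095643542647004663854888332755587347434272398533657 / 10 ^ 60 +
      2677214721477400828740152196600127726862336257122050380691 / 10 ^ 60) / Uq 0 ^ 4 ≤
      57463960716 / 100000000000 - 1 / 2 := by
    rw [div_le_iff₀ hp]
    exact h5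
  simp only [add_div] at h6
  simp only [hT] at h2 hT00 h4
  linarith

end

end Pool.Agent.AC2
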