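import Pool.Agent.AC2.Stmts

/-!
# FOU: the Fourier series of `max (cos x) 0 ^ ν`, `ν > 0`
-/

open MeasureTheory Set Real
open scoped ENNReal

namespace Pool.Agent.AC2

open Pool.Agent.AutoConv

namespace FOU_

/-! ### summability -/

theorem summable_nat {ν : ℝ} (hν : 0 < ν) {a : ℕ → ℝ}
    (h : ∀ k : ℕ, (ν + k + 2) * a (k + 2) = (ν - k) * a k) : Summable a := by
  obtain ⟨K, hK⟩ := exists_nat_ge ν
  set b : ℕ → ℝ := fun k => |a (k + K)| with hb
  have hb0 : ∀ k, 0 ≤ b k := fun k => abs_nonneg _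
  have key : ∀ k : ℕ, ν * (b k + b (k + 2)) = (k + K : ℝ) * b k - (k + K + 2 : ℝ) * b (k + 2) := by
    intro k
    have h1 := congrArg abs (h (k + K))
    have hk : (0 : ℝ) ≤ k := Nat.cast_nonneg k
    have e0 : ((k + K : ℕ) : ℝ) = (k : ℝ) + K := by
      push_cast
      rfl
    have e1 : |ν + ((k + K : ℕ) : ℝ) + 2| = ν + (k + K : ℝ) + 2 := by
      rw [e0]
      apply abs_of_pos
      positivity
    have e2 : |ν - ((k + K : ℕ) : ℝ)| = (k + K : ℝ) - ν := by
      rw [e0, abs_of_nonpos (by linarith)]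
      ring
    rw [abs_mul, abs_mul, e1, e2] at h1
    have e3 : |a (k + K + 2)| = b (k + 2) := by
      rw [hb]
      change _ = |a (k + 2 + K)|
      rw [show k + K + 2 = k + 2 + K by ring]
    rw [e3] at h1
    change (ν + (k + K : ℝ) + 2) * b (k + 2) = ((k + K : ℝ) - ν) * b k at h1
    linarith
  set d : ℕ → ℝ := fun k => (k + K : ℝ) * b k + (k + K + 1 : ℝ) * b (k + 1) with hd
  have hd0 : ∀ k, 0 ≤ d k := by
    intro k
    have h1 := hb0 k
    have h2 := hb0 (k + 1)
    rw [hd]
    positivity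
  have step : ∀ k, b k ≤ (d k - d (k + 1)) / ν := by
    intro k
    rw [le_div_iff₀ hν]
    have h1 := key k
    have h2 := hb0 (k + 2)
    have h3 : d k - d (k + 1) = (k + K : ℝ) * b k - (k + K + 2 : ℝ) * b (k + 2) := by
      simp only [hd]
      push_cast
      ring
    rw [h3, ← h1]
    nlinarith
  have hs : ∀ n, ∑ i ∈ Finset.range n, b i ≤ d 0 / ν := by
    intro n
    have h1 : ∑ i ∈ Finset.range n, b i ≤ (d 0 - d n) / ν := by
      induction n with
      | zero => simp
      | succ n ih =>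
        rw [Finset.sum_range_succ]
        have := step n
        have e : (d 0 - d (n + 1)) / ν = (d 0 - d n) / ν + (d n - d (n + 1)) / ν := by
          rw [← add_div]
          congr 1
          ring
        rw [e]
        linarith
    refine h1.trans ?_
    apply div_le_div_of_nonneg_right _ hν.le
    linarith [hd0 n]
  have h1 : Summable b := summable_of_sum_range_le hb0 hs
  have h2 : Summable fun k => a (k + K) := Summable.of_abs h1
  exact (summable_nat_add_iff K).1 h2

theorem summable_int {ν : ℝ} (hν : 0 < ν) {a : ℕ → ℝ}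
    (h : ∀ k : ℕ, (ν + k + 2) * a (k + 2) = (ν - k) * a k) :
    Summable fun k : ℤ => a k.natAbs := by
  have h1 := summable_nat hν h
  apply Summable.of_nat_of_neg
  · simpa using h1
  · simpa using h1

/-! ### the periodic function -/

/-- the periodic function -/
noncomputable def hh (ν : ℝ) (x : ℝ) : ℂ := (((max (Real.cos x) 0) ^ ν : ℝ) : ℂ)

theorem hh_cont {ν : ℝ} (hν : 0 < ν) : Continuous (hh ν) := by
  unfold hh
  apply Complex.continuous_ofReal.comp
  apply Continuous.rpow_const
  · exact Real.continuous_cos.max continuous_const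
  · intro x
    exact Or.inr hν.le

theorem hh_per (ν : ℝ) : Function.Periodic (hh ν) (2 * π) := by
  intro x
  unfold hh
  rw [Real.cos_add_two_pi]

instance : Fact (0 < 2 * π) := ⟨Real.two_pi_pos⟩

/-- the function on the circle -/
noncomputable def F (ν : ℝ) (hν : 0 < ν) : C(AddCircle (2 * π), ℂ) where
  toFun := (hh_per ν).lift
  continuous_toFun := continuous_coinduced_dom.mpr (hh_cont hν)

theorem F_coe (ν : ℝ) (hν : 0 < ν) (x : ℝ) : F ν hν (x : AddCircle (2 * π)) = hh ν x := rfl

theorem fou_coe (n : ℤ) (x : ℝ) :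
    fourier n (x : AddCircle (2 * π)) = Complex.exp (((n * x : ℝ) : ℂ) * Complex.I) := by
  rw [fourier_coe_apply]
  congr 1
  have : (π : ℂ) ≠ 0 := Complex.ofReal_ne_zero.2 Real.pi_ne_zero
  push_cast
  field_simp

theorem coeff {ν : ℝ} (hν : 0 < ν) (n : ℤ) :
    fourierCoeff (F ν hν) n = ((1 / (2 * π) * II ν n.natAbs : ℝ) : ℂ) := by
  rw [fourierCoeff_eq_intervalIntegral _ n (-(π / 2))]
  have hc : ∀ m : ℤ, Continuous fun x : ℝ => Complex.exp (((m * x : ℝ) : ℂ) * Complex.I) * hh ν x := by
    intro m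
    have := hh_cont hν
    fun_prop
  have e0 : ∀ x : ℝ, fourier (-n) (x : AddCircle (2 * π)) • F ν hν (x : AddCircle (2 * π)) =
      Complex.exp ((((-n : ℤ) * x : ℝ) : ℂ) * Complex.I) * hh ν x := by
    intro x
    rw [fou_coe, F_coe, smul_eq_mul]
  simp_rw [e0]
  rw [show -(π / 2) + 2 * π = 3 * π / 2 by ring,
    ← intervalIntegral.integral_add_adjacent_intervals (b := π / 2)
      ((hc _).intervalIntegrable _ _) ((hc _).intervalIntegrable _ _)]
  have z : ∫ x in (π / 2)..(3 * π / 2),
      Complex.exp ((((-n : ℤ) * x : ℝ) : ℂ) * Complex.I) * hh ν x = 0 := by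
    rw [intervalIntegral.integral_congr (g := fun _ => 0)]
    · simp
    · intro x hx
      rw [uIcc_of_le (by linarith [Real.pi_pos])] at hx
      have h1 : Real.cos x ≤ 0 :=
        Real.cos_nonpos_of_pi_div_two_le_of_le hx.1 (by linarith [hx.2])
      have h2 : hh ν x = 0 := by
        unfold hh
        rw [max_eq_right h1, Real.zero_rpow hν.ne']
        simp
      change _ * hh ν x = 0
      rw [h2, mul_zero]
  rw [z, add_zero]
  -- symmetrise
  set J : ℤ → ℂ := fun m => ∫ x in (-(π / 2))..(π / 2),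
    Complex.exp (((m * x : ℝ) : ℂ) * Complex.I) * hh ν x with hJ
  have hsym : J (-n) = J n := by
    have h1 := intervalIntegral.integral_comp_neg (a := -(π / 2)) (b := π / 2)
      (fun x : ℝ => Complex.exp (((n * x : ℝ) : ℂ) * Complex.I) * hh ν x)
    rw [neg_neg] at h1
    rw [hJ]
    change _ = ∫ x in (-(π / 2))..(π / 2),
      Complex.exp (((n * x : ℝ) : ℂ) * Complex.I) * hh ν x
    rw [← h1]
    apply intervalIntegral.integral_congr
    intro x _
    change Complex.exp ((((-n : ℤ) * x : ℝ) : ℂ) * Complex.I) * hh ν x =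
      Complex.exp (((n * (-x) : ℝ) : ℂ) * Complex.I) * hh ν (-x)
    unfold hh
    rw [Real.cos_neg]
    push_cast
    congr 2
    ring
  have hsum : J (-n) + J n = ((2 * II ν n.natAbs : ℝ) : ℂ) := by
    rw [hJ]
    change (∫ x in (-(π / 2))..(π / 2),
        Complex.exp ((((-n : ℤ) * x : ℝ) : ℂ) * Complex.I) * hh ν x) +
      (∫ x in (-(π / 2))..(π / 2), Complex.exp (((n * x : ℝ) : ℂ) * Complex.I) * hh ν x) = _
    rw [← intervalIntegral.integral_add ((hc _).intervalIntegrable _ _)
      ((hc _).intervalIntegrable _ _)]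
    unfold II
    rw [← intervalIntegral.integral_const_mul, ← intervalIntegral.integral_ofReal]
    apply intervalIntegral.integral_congr
    intro x hx
    rw [uIcc_of_le (by linarith [Real.pi_pos])] at hx
    have h1 : 0 ≤ Real.cos x := Real.cos_nonneg_of_mem_Icc hx
    have h2 : hh ν x = ((Real.cos x ^ ν : ℝ) : ℂ) := by
      unfold hh
      rw [max_eq_left h1]
    have h3 : Real.cos (n.natAbs * x) = Real.cos (n * x) := by
      rw [Nat.cast_natAbs]
      rcases abs_choice n with h | h
      · rw [h]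
      · rw [h]
        push_cast
        rw [neg_mul, Real.cos_neg]
    change Complex.exp ((((-n : ℤ) * x : ℝ) : ℂ) * Complex.I) * hh ν x +
      Complex.exp (((n * x : ℝ) : ℂ) * Complex.I) * hh ν x =
      ((2 * (Real.cos x ^ ν * Real.cos (n.natAbs * x)) : ℝ) : ℂ)
    rw [h3, h2]
    push_cast
    rw [Complex.cos]
    ring_nf
  have hfin : J (-n) = ((II ν n.natAbs : ℝ) : ℂ) := by
    rw [← hsym] at hsum
    have h2 : (2 : ℂ) ≠ 0 := two_ne_zero
    have h3 : (2 : ℂ) * J (-n) = 2 * ((II ν n.natAbs : ℝ) : ℂ) := by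
      rw [two_mul, hsum]
      push_cast
      ring
    exact mul_left_cancel₀ h2 h3
  change (1 / (2 * π)) • J (-n) = _
  rw [hfin]
  push_cast
  rw [Complex.real_smul]
  push_cast
  ring

end FOU_

theorem fou_proof (h1 : Stmt_REC) : Stmt_FOU := by
  intro ν hν
  have hrec := (h1 ν (by linarith)).2.1
  have hs := FOU_.summable_int hν hrec
  refine ⟨hs, fun x => ?_⟩
  have hsum : Summable (fourierCoeff (FOU_.F ν hν)) := by
    have e : fourierCoeff (FOU_.F ν hν) =
        fun n : ℤ => ((1 / (2 * π) * II ν n.natAbs : ℝ) : ℂ) := by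
      funext n
      exact FOU_.coeff hν n
    rw [e]
    exact (Complex.ofRealCLM.summable (hs.mul_left _))
  have h2 := has_pointwise_sum_fourier_series_of_summable hsum (x : AddCircle (2 * π))
  rw [FOU_.F_coe] at h2
  have h3 := Complex.hasSum_re h2
  have h4 := h3.mul_left (2 * π)
  have e1 : 2 * π * (FOU_.hh ν x).re = 2 * π * (max (Real.cos x) 0) ^ ν := by
    unfold FOU_.hh
    rw [Complex.ofReal_re]
  rw [e1] at h4
  have e2 : (fun k : ℤ => II ν k.natAbs * Real.cos (k * x)) = fun n : ℤ =>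
      2 * π * (fourierCoeff (FOU_.F ν hν) n • fourier n (x : AddCircle (2 * π))).re := by
    funext n
    rw [FOU_.coeff, FOU_.fou_coe, smul_eq_mul, Complex.re_ofReal_mul, Complex.exp_ofReal_mul_I_re]
    have := Real.pi_ne_zero
    field_simp
  rw [e2]
  exact h4

end Pool.Agent.AC2
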