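import Pool.Agent.AC2.SoundP

/-!
# The four linear forms
-/

open Real

namespace Pool.Agent.AC2

theorem dOdd_cast (a1 a2 a3 a4 a5 : ℕ) : ((dOdd a1 a2 a3 a4 a5 : ℕ) : ℝ) =
    |(3658834 * (a1 : ℝ) + 718960 * a2 + 29733 * a5) - (310397 * a3 + 129728 * a4)| := by
  unfold dOdd
  rw [sq_eq, sq_eq, natabs]
  push_cast
  rfl

theorem dEvn_cast (a1 a2 a3 a4 a5 : ℕ) : ((dEvn a1 a2 a3 a4 a5 : ℕ) : ℝ) =
    |(3658834 * (a1 : ℝ) + 129728 * a4 + 29733 * a5) - (718960 * a2 + 310397 * a3)| := by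
  unfold dEvn
  rw [sq_eq, sq_eq, natabs]
  push_cast
  rfl

theorem eOdd_cast (a1 a2 a3 a4 a5 : ℕ) : ((eOdd a1 a2 a3 a4 a5 : ℕ) : ℝ) =
    max (3658834 * (a1 : ℝ) + 718960 * a2 + 29733 * a5) (310397 * a3 + 129728 * a4) := by
  unfold eOdd
  rw [sq_eq, sq_eq, natmax]
  push_cast
  rfl

theorem eEvn_cast (a1 a2 a3 a4 a5 : ℕ) : ((eEvn a1 a2 a3 a4 a5 : ℕ) : ℝ) =
    max (3658834 * (a1 : ℝ) + 129728 * a4 + 29733 * a5) (718960 * a2 + 310397 * a3) := by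
  unfold eEvn
  rw [sq_eq, sq_eq, natmax]
  push_cast
  rfl

theorem pOdd_cast (a0 a1 a2 a3 a4 : ℕ) : ((pOdd a0 a1 a2 a3 a4 : ℕ) : ℝ) =
    |(9286143 * (a0 : ℝ) + 1832840 * a1 + 496850 * a2) - (192330 * a3 + 45220 * a4)| := by
  unfold pOdd
  rw [sq_eq, sq_eq, natabs]
  push_cast
  rfl

theorem pEvn_cast (a0 a1 a2 a3 a4 : ℕ) : ((pEvn a0 a1 a2 a3 a4 : ℕ) : ℝ) =
    |(9286143 * (a0 : ℝ) + 496850 * a2 + 192330 * a3) - (1832840 * a1 + 45220 * a4)| := by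
  unfold pEvn
  rw [sq_eq, sq_eq, natabs]
  push_cast
  rfl

theorem fOdd_cast (a0 a1 a2 a3 a4 : ℕ) : ((fOdd a0 a1 a2 a3 a4 : ℕ) : ℝ) =
    max (9286143 * (a0 : ℝ) + 1832840 * a1 + 496850 * a2) (192330 * a3 + 45220 * a4) := by
  unfold fOdd
  rw [sq_eq, sq_eq, natmax]
  push_cast
  rfl

theorem fEvn_cast (a0 a1 a2 a3 a4 : ℕ) : ((fEvn a0 a1 a2 a3 a4 : ℕ) : ℝ) =
    max (9286143 * (a0 : ℝ) + 496850 * a2 + 192330 * a3) (1832840 * a1 + 45220 * a4) := by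
  unfold fEvn
  rw [sq_eq, sq_eq, natmax]
  push_cast
  rfl

/-- the form `K` for odd `k` -/
noncomputable def KO (X : ℕ → ℕ → ℝ) (k : ℕ) : ℝ :=
  (3658834 * X 1 k + 718960 * X 2 k + -310397 * X 3 k + -129728 * X 4 k + 29733 * X 5 k) / 10000000

/-- the form `K` for even `k` -/
noncomputable def KE (X : ℕ → ℕ → ℝ) (k : ℕ) : ℝ :=
  (3658834 * X 1 k + -718960 * X 2 k + -310397 * X 3 k + 129728 * X 4 k + 29733 * X 5 k) / 10000000

/-- the form `u` for odd `k` -/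
noncomputable def UO (X : ℕ → ℕ → ℝ) (k : ℕ) : ℝ :=
  (9286143 * X 0 k + 1832840 * X 1 k + 496850 * X 2 k + -192330 * X 3 k + -45220 * X 4 k) / 10000000

/-- the form `u` for even `k` -/
noncomputable def UE (X : ℕ → ℕ → ℝ) (k : ℕ) : ℝ :=
  (9286143 * X 0 k + -1832840 * X 1 k + 496850 * X 2 k + 192330 * X 3 k + -45220 * X 4 k) / 10000000

theorem absdiv (x : ℝ) : |x / 10000000| = |x| / 10000000 := by
  rw [abs_div, abs_of_pos (show (0 : ℝ) < 10000000 by norm_num)]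

theorem hD_KO {X : ℕ → ℕ → ℝ} (k a1 a2 a3 a4 a5 : ℕ) (E : ℝ) (h : App X k a1 a2 a3 a4 a5 E) :
    |KO X k| * 10 ^ 24 ≤ (dOdd a1 a2 a3 a4 a5 : ℝ) / 10000000 + E := by
  obtain ⟨h1, h2, h3, h4, h5⟩ := h
  have := form_err (c1 := 3658834) (c2 := 718960) (c3 := -310397) (c4 := -129728) (c5 := 29733)
    (C := 10000000) h1 h2 h3 h4 h5 (by norm_num)
  rw [dOdd_cast, KO, absdiv]
  have e1 : (3658834 * (a1 : ℝ) + 718960 * a2 + 29733 * a5) - (310397 * a3 + 129728 * a4) =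
    3658834 * (a1 : ℝ) + 718960 * a2 + -310397 * a3 + -129728 * a4 + 29733 * a5 := by ring
  rw [e1]
  linarith

theorem hD_KE {X : ℕ → ℕ → ℝ} (k a1 a2 a3 a4 a5 : ℕ) (E : ℝ) (h : App X k a1 a2 a3 a4 a5 E) :
    |KE X k| * 10 ^ 24 ≤ (dEvn a1 a2 a3 a4 a5 : ℝ) / 10000000 + E := by
  obtain ⟨h1, h2, h3, h4, h5⟩ := h
  have := form_err (c1 := 3658834) (c2 := -718960) (c3 := -310397) (c4 := 129728) (c5 := 29733)
    (C := 10000000) h1 h2 h3 h4 h5 (by norm_num)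
  rw [dEvn_cast, KE, absdiv]
  have e1 : (3658834 * (a1 : ℝ) + 129728 * a4 + 29733 * a5) - (718960 * a2 + 310397 * a3) =
    3658834 * (a1 : ℝ) + -718960 * a2 + -310397 * a3 + 129728 * a4 + 29733 * a5 := by ring
  rw [e1]
  linarith

theorem hD_UO {X : ℕ → ℕ → ℝ} (k a0 a1 a2 a3 a4 : ℕ) (E : ℝ) (h : App0 X k a0 a1 a2 a3 a4 E) :
    |UO X k| * 10 ^ 31 ≤ (pOdd a0 a1 a2 a3 a4 : ℝ) + 12000000 * E := by
  obtain ⟨h1, h2, h3, h4, h5⟩ := h
  have := form_err (c1 := 9286143) (c2 := 1832840) (c3 := 496850) (c4 := -192330) (c5 := -45220)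
    (C := 12000000) h1 h2 h3 h4 h5 (by norm_num)
  rw [pOdd_cast, UO, absdiv]
  have e1 : (9286143 * (a0 : ℝ) + 1832840 * a1 + 496850 * a2) - (192330 * a3 + 45220 * a4) =
    9286143 * (a0 : ℝ) + 1832840 * a1 + 496850 * a2 + -192330 * a3 + -45220 * a4 := by ring
  rw [e1]
  have e2 : ∀ y : ℝ, y / 10000000 * 10 ^ 31 = y * 10 ^ 24 := fun y => by ring
  rw [e2]
  exact this

theorem hD_UE {X : ℕ → ℕ → ℝ} (k a0 a1 a2 a3 a4 : ℕ) (E : ℝ) (h : App0 X k a0 a1 a2 a3 a4 E) :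
    |UE X k| * 10 ^ 31 ≤ (pEvn a0 a1 a2 a3 a4 : ℝ) + 12000000 * E := by
  obtain ⟨h1, h2, h3, h4, h5⟩ := h
  have := form_err (c1 := 9286143) (c2 := -1832840) (c3 := 496850) (c4 := 192330) (c5 := -45220)
    (C := 12000000) h1 h2 h3 h4 h5 (by norm_num)
  rw [pEvn_cast, UE, absdiv]
  have e1 : (9286143 * (a0 : ℝ) + 496850 * a2 + 192330 * a3) - (1832840 * a1 + 45220 * a4) =
    9286143 * (a0 : ℝ) + -1832840 * a1 + 496850 * a2 + 192330 * a3 + -45220 * a4 := by ring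
  rw [e1]
  have e2 : ∀ y : ℝ, y / 10000000 * 10 ^ 31 = y * 10 ^ 24 := fun y => by ring
  rw [e2]
  exact this

/-- abstract form of the tail bound -/
theorem tail_form {P Q : ℕ → ℝ} {k i : ℕ} {r p q C : ℝ} (hP0 : 0 ≤ P (k + 2 * i))
    (hQ0 : 0 ≤ Q (k + 2 * i)) (hr : 0 ≤ r)
    (hP : P (k + 2 * i) ≤ P k * r) (hQ : Q (k + 2 * i) ≤ Q k * r)
    (hp : P k * 10 ^ 24 ≤ p + C) (hq : Q k * 10 ^ 24 ≤ q + C) :
    |P (k + 2 * i) - Q (k + 2 * i)| * 10 ^ 24 ≤ (max p q + C) * r := by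
  have h1 : |P (k + 2 * i) - Q (k + 2 * i)| ≤ max (P k) (Q k) * r :=
    abs_sub_le_max hP0 hQ0 hr hP hQ
  have h2 : max (P k) (Q k) * 10 ^ 24 ≤ max p q + C := by
    rcases max_cases (P k) (Q k) with ⟨h, _⟩ | ⟨h, _⟩
    · rw [h]; linarith [le_max_left p q]
    · rw [h]; linarith [le_max_right p q]
  calc |P (k + 2 * i) - Q (k + 2 * i)| * 10 ^ 24 ≤ max (P k) (Q k) * r * 10 ^ 24 :=
        mul_le_mul_of_nonneg_right h1 (by positivity)
    _ = max (P k) (Q k) * 10 ^ 24 * r := by ring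
    _ ≤ (max p q + C) * r := mul_le_mul_of_nonneg_right h2 hr

theorem up {x a E : ℝ} (h : |x * 10 ^ 24 - a| ≤ E) : x * 10 ^ 24 ≤ a + E := by
  have := (abs_le.mp h).2
  linarith

theorem hM_KO {X : ℕ → ℕ → ℝ} (hX : IsX X) (k a1 a2 a3 a4 a5 : ℕ) (E : ℝ) (hk : 5 ≤ k)
    (h : App X k a1 a2 a3 a4 a5 E) (i : ℕ) :
    |KO X (k + 2 * i)| * 10 ^ 24 ≤ ((eOdd a1 a2 a3 a4 a5 : ℝ) / 10000000 + E) *
        ((4 * k + 1 : ℝ) / (4 * k + 1 + 8 * i)) ^ (3 / 2 : ℝ) := by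
  obtain ⟨h1, h2, h3, h4, h5⟩ := h
  have hE : 0 ≤ E := (abs_nonneg _).trans h1
  set r := ((4 * k + 1 : ℝ) / (4 * k + 1 + 8 * i)) ^ (3 / 2 : ℝ) with hr
  have hr0 : 0 ≤ r := Real.rpow_nonneg (by positivity) _
  have d1 := decay hX (j := 1) (by omega) (fun k hk => ratio_le (by omega) hk (by omega)) hk i
  have d2 := decay hX (j := 2) (by omega) (fun k hk => ratio_le (by omega) hk (by omega)) hk i
  have d3 := decay hX (j := 3) (by omega) (fun k hk => ratio_le (by omega) hk (by omega)) hk i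
  have d4 := decay hX (j := 4) (by omega) (fun k hk => ratio_le (by omega) hk (by omega)) hk i
  have d5 := decay hX (j := 5) (by omega) (fun k hk => ratio_le (by omega) hk (by omega)) hk i
  rw [← hr] at d1 d2 d3 d4 d5
  have n1 := hX.1 1 (k + 2 * i)
  have n2 := hX.1 2 (k + 2 * i)
  have n3 := hX.1 3 (k + 2 * i)
  have n4 := hX.1 4 (k + 2 * i)
  have n5 := hX.1 5 (k + 2 * i)
  have key := tail_form (P := fun k => 3658834 * X 1 k + 718960 * X 2 k + 29733 * X 5 k)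
    (Q := fun k => 310397 * X 3 k + 129728 * X 4 k) (k := k) (i := i) (r := r)
    (p := 3658834 * (a1 : ℝ) + 718960 * a2 + 29733 * a5) (q := 310397 * (a3 : ℝ) + 129728 * a4)
    (C := 10000000 * E) (by positivity) (by positivity) hr0
    (by linarith) (by linarith)
    (by linarith [up h1, up h2, up h5])
    (by linarith [up h3, up h4])
  rw [eOdd_cast, KO, absdiv]
  have e1 : 3658834 * X 1 (k + 2 * i) + 718960 * X 2 (k + 2 * i) + -310397 * X 3 (k + 2 * i) +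
      -129728 * X 4 (k + 2 * i) + 29733 * X 5 (k + 2 * i) =
      (3658834 * X 1 (k + 2 * i) + 718960 * X 2 (k + 2 * i) + 29733 * X 5 (k + 2 * i)) -
      (310397 * X 3 (k + 2 * i) + 129728 * X 4 (k + 2 * i)) := by ring
  rw [e1]
  beta_reduce at key
  nlinarith [key]

theorem hM_KE {X : ℕ → ℕ → ℝ} (hX : IsX X) (k a1 a2 a3 a4 a5 : ℕ) (E : ℝ) (hk : 5 ≤ k)
    (h : App X k a1 a2 a3 a4 a5 E) (i : ℕ) :
    |KE X (k + 2 * i)| * 10 ^ 24 ≤ ((eEvn a1 a2 a3 a4 a5 : ℝ) / 10000000 + E) *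
        ((4 * k + 1 : ℝ) / (4 * k + 1 + 8 * i)) ^ (3 / 2 : ℝ) := by
  obtain ⟨h1, h2, h3, h4, h5⟩ := h
  have hE : 0 ≤ E := (abs_nonneg _).trans h1
  set r := ((4 * k + 1 : ℝ) / (4 * k + 1 + 8 * i)) ^ (3 / 2 : ℝ) with hr
  have hr0 : 0 ≤ r := Real.rpow_nonneg (by positivity) _
  have d1 := decay hX (j := 1) (by omega) (fun k hk => ratio_le (by omega) hk (by omega)) hk i
  have d2 := decay hX (j := 2) (by omega) (fun k hk => ratio_le (by omega) hk (by omega)) hk i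
  have d3 := decay hX (j := 3) (by omega) (fun k hk => ratio_le (by omega) hk (by omega)) hk i
  have d4 := decay hX (j := 4) (by omega) (fun k hk => ratio_le (by omega) hk (by omega)) hk i
  have d5 := decay hX (j := 5) (by omega) (fun k hk => ratio_le (by omega) hk (by omega)) hk i
  rw [← hr] at d1 d2 d3 d4 d5
  have n1 := hX.1 1 (k + 2 * i)
  have n2 := hX.1 2 (k + 2 * i)
  have n3 := hX.1 3 (k + 2 * i)
  have n4 := hX.1 4 (k + 2 * i)
  have n5 := hX.1 5 (k + 2 * i)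
  have key := tail_form (P := fun k => 3658834 * X 1 k + 129728 * X 4 k + 29733 * X 5 k)
    (Q := fun k => 718960 * X 2 k + 310397 * X 3 k) (k := k) (i := i) (r := r)
    (p := 3658834 * (a1 : ℝ) + 129728 * a4 + 29733 * a5) (q := 718960 * (a2 : ℝ) + 310397 * a3)
    (C := 10000000 * E) (by positivity) (by positivity) hr0
    (by linarith) (by linarith)
    (by linarith [up h1, up h4, up h5])
    (by linarith [up h2, up h3])
  rw [eEvn_cast, KE, absdiv]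
  have e1 : 3658834 * X 1 (k + 2 * i) + -718960 * X 2 (k + 2 * i) + -310397 * X 3 (k + 2 * i) +
      129728 * X 4 (k + 2 * i) + 29733 * X 5 (k + 2 * i) =
      (3658834 * X 1 (k + 2 * i) + 129728 * X 4 (k + 2 * i) + 29733 * X 5 (k + 2 * i)) -
      (718960 * X 2 (k + 2 * i) + 310397 * X 3 (k + 2 * i)) := by ring
  rw [e1]
  beta_reduce at key
  nlinarith [key]

theorem hM_UO {X : ℕ → ℕ → ℝ} (hX : IsX X) (k a0 a1 a2 a3 a4 : ℕ) (E : ℝ) (hk : 5 ≤ k)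
    (h : App0 X k a0 a1 a2 a3 a4 E) (i : ℕ) :
    |UO X (k + 2 * i)| * 10 ^ 31 ≤ ((fOdd a0 a1 a2 a3 a4 : ℝ) + 12000000 * E) *
        ((4 * k + 1 : ℝ) / (4 * k + 1 + 8 * i)) ^ (1 / 2 : ℝ) := by
  obtain ⟨h0, h1, h2, h3, h4⟩ := h
  have hE : 0 ≤ E := (abs_nonneg _).trans h1
  set r := ((4 * k + 1 : ℝ) / (4 * k + 1 + 8 * i)) ^ (1 / 2 : ℝ) with hr
  have hr0 : 0 ≤ r := Real.rpow_nonneg (by positivity) _
  have d0 := decay hX (j := 0) (by omega) (fun k hk => ratio_le0 (by omega) hk) hk i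
  have d1 := decay hX (j := 1) (by omega) (fun k hk => ratio_le0 (by omega) hk) hk i
  have d2 := decay hX (j := 2) (by omega) (fun k hk => ratio_le0 (by omega) hk) hk i
  have d3 := decay hX (j := 3) (by omega) (fun k hk => ratio_le0 (by omega) hk) hk i
  have d4 := decay hX (j := 4) (by omega) (fun k hk => ratio_le0 (by omega) hk) hk i
  rw [← hr] at d0 d1 d2 d3 d4
  have n0 := hX.1 0 (k + 2 * i)
  have n1 := hX.1 1 (k + 2 * i)
  have n2 := hX.1 2 (k + 2 * i)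
  have n3 := hX.1 3 (k + 2 * i)
  have n4 := hX.1 4 (k + 2 * i)
  have key := tail_form (P := fun k => 9286143 * X 0 k + 1832840 * X 1 k + 496850 * X 2 k)
    (Q := fun k => 192330 * X 3 k + 45220 * X 4 k) (k := k) (i := i) (r := r)
    (p := 9286143 * (a0 : ℝ) + 1832840 * a1 + 496850 * a2) (q := 192330 * (a3 : ℝ) + 45220 * a4)
    (C := 12000000 * E) (by positivity) (by positivity) hr0
    (by linarith) (by linarith)
    (by linarith [up h0, up h1, up h2])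
    (by linarith [up h3, up h4])
  rw [fOdd_cast, UO, absdiv]
  have e1 : 9286143 * X 0 (k + 2 * i) + 1832840 * X 1 (k + 2 * i) + 496850 * X 2 (k + 2 * i) +
      -192330 * X 3 (k + 2 * i) + -45220 * X 4 (k + 2 * i) =
      (9286143 * X 0 (k + 2 * i) + 1832840 * X 1 (k + 2 * i) + 496850 * X 2 (k + 2 * i)) -
      (192330 * X 3 (k + 2 * i) + 45220 * X 4 (k + 2 * i)) := by ring
  have e2 : ∀ y : ℝ, y / 10000000 * 10 ^ 31 = y * 10 ^ 24 := fun y => by ring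
  rw [e1, e2]
  exact key

theorem hM_UE {X : ℕ → ℕ → ℝ} (hX : IsX X) (k a0 a1 a2 a3 a4 : ℕ) (E : ℝ) (hk : 5 ≤ k)
    (h : App0 X k a0 a1 a2 a3 a4 E) (i : ℕ) :
    |UE X (k + 2 * i)| * 10 ^ 31 ≤ ((fEvn a0 a1 a2 a3 a4 : ℝ) + 12000000 * E) *
        ((4 * k + 1 : ℝ) / (4 * k + 1 + 8 * i)) ^ (1 / 2 : ℝ) := by
  obtain ⟨h0, h1, h2, h3, h4⟩ := h
  have hE : 0 ≤ E := (abs_nonneg _).trans h1
  set r := ((4 * k + 1 : ℝ) / (4 * k + 1 + 8 * i)) ^ (1 / 2 : ℝ) with hr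
  have hr0 : 0 ≤ r := Real.rpow_nonneg (by positivity) _
  have d0 := decay hX (j := 0) (by omega) (fun k hk => ratio_le0 (by omega) hk) hk i
  have d1 := decay hX (j := 1) (by omega) (fun k hk => ratio_le0 (by omega) hk) hk i
  have d2 := decay hX (j := 2) (by omega) (fun k hk => ratio_le0 (by omega) hk) hk i
  have d3 := decay hX (j := 3) (by omega) (fun k hk => ratio_le0 (by omega) hk) hk i
  have d4 := decay hX (j := 4) (by omega) (fun k hk => ratio_le0 (by omega) hk) hk i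
  rw [← hr] at d0 d1 d2 d3 d4
  have n0 := hX.1 0 (k + 2 * i)
  have n1 := hX.1 1 (k + 2 * i)
  have n2 := hX.1 2 (k + 2 * i)
  have n3 := hX.1 3 (k + 2 * i)
  have n4 := hX.1 4 (k + 2 * i)
  have key := tail_form (P := fun k => 9286143 * X 0 k + 496850 * X 2 k + 192330 * X 3 k)
    (Q := fun k => 1832840 * X 1 k + 45220 * X 4 k) (k := k) (i := i) (r := r)
    (p := 9286143 * (a0 : ℝ) + 496850 * a2 + 192330 * a3) (q := 1832840 * (a1 : ℝ) + 45220 * a4)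
    (C := 12000000 * E) (by positivity) (by positivity) hr0
    (by linarith) (by linarith)
    (by linarith [up h0, up h2, up h3])
    (by linarith [up h1, up h4])
  rw [fEvn_cast, UE, absdiv]
  have e1 : 9286143 * X 0 (k + 2 * i) + -1832840 * X 1 (k + 2 * i) + 496850 * X 2 (k + 2 * i) +
      192330 * X 3 (k + 2 * i) + -45220 * X 4 (k + 2 * i) =
      (9286143 * X 0 (k + 2 * i) + 496850 * X 2 (k + 2 * i) + 192330 * X 3 (k + 2 * i)) -
      (1832840 * X 1 (k + 2 * i) + 45220 * X 4 (k + 2 * i)) := by ring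
  have e2 : ∀ y : ℝ, y / 10000000 * 10 ^ 31 = y * 10 ^ 24 := fun y => by ring
  rw [e1, e2]
  exact key

end Pool.Agent.AC2
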