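import Pool.Agent.AC2.Stmts

/-!
# LOW: weak duality
-/

set_option autoImplicit false

open MeasureTheory Set Real
open scoped ENNReal

namespace Pool.Agent.AC2

open Pool.Agent.AutoConv

namespace LOW_

/-- the elementary inequality -/
lemma elem {a K e : ℝ} (he : 0 < e) :
    4 * (|K| * a) ≤ a ^ 4 + (2 * |K| * e + K ^ 2 / e ^ 2) := by
  have hK : 0 ≤ |K| := abs_nonneg K
  have h1 : 2 * (a ^ 2 * (|K| / e)) ≤ a ^ 4 + K ^ 2 / e ^ 2 := by
    have h2 : K ^ 2 / e ^ 2 = (|K| / e) ^ 2 := by
      rw [div_pow, sq_abs]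
    rw [h2]
    nlinarith [sq_nonneg (a ^ 2 - |K| / e)]
  have h3 : 2 * a ≤ a ^ 2 / e + e := by
    rw [div_add' _ _ _ he.ne', le_div_iff₀ he]
    nlinarith [sq_nonneg (a - e)]
  have h4 : 2 * (|K| * (2 * a)) ≤ 2 * (|K| * (a ^ 2 / e + e)) :=
    mul_le_mul_of_nonneg_left (mul_le_mul_of_nonneg_left h3 hK) (by norm_num)
  have h5 : 2 * (|K| * (a ^ 2 / e + e)) = 2 * (a ^ 2 * (|K| / e)) + 2 * |K| * e := by
    ring
  linarith

lemma integrable_cos {f : ℝ → ℝ} (hf : Integrable f) (c d : ℝ) :
    Integrable (fun x => f x * Real.cos (c * (x - d))) := by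
  refine hf.mul_bdd (c := 1) ?_ ?_
  · exact (by fun_prop : Continuous fun x : ℝ => Real.cos (c * (x - d))).aestronglyMeasurable
  · exact Filter.Eventually.of_forall fun x => by
      rw [Real.norm_eq_abs]
      exact Real.abs_cos_le_one _

/-- the cosine coefficients are bounded by the Fourier coefficients -/
lemma coef_le {f : ℝ → ℝ} (hf : Integrable f) (k : ℤ) :
    |∫ x, f x * Real.cos (π * k * (x - 1 / 2))| ≤ ‖fc f k‖ := by
  have hint : Integrable (fun x => (f x : ℂ) *
      Complex.exp (((-(π * k * x) : ℝ) : ℂ) * Complex.I)) := by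
    refine hf.ofReal.mul_bdd (c := 1) ?_ ?_
    · exact (by fun_prop : Continuous fun x : ℝ =>
        Complex.exp (((-(π * k * x) : ℝ) : ℂ) * Complex.I)).aestronglyMeasurable
    · exact Filter.Eventually.of_forall fun x => by
        rw [Complex.norm_exp_ofReal_mul_I]
  obtain ⟨w, hw⟩ : ∃ w : ℂ, w = Complex.exp (((π * k / 2 : ℝ) : ℂ) * Complex.I) := ⟨_, rfl⟩
  have hwn : ‖w‖ = 1 := by
    rw [hw]
    exact Complex.norm_exp_ofReal_mul_I _
  have h1 : ∫ x, f x * Real.cos (π * k * (x - 1 / 2)) = (w * fc f k).re := by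
    unfold fc
    rw [← integral_const_mul]
    have h2 := Complex.reCLM.integral_comp_comm (hint.const_mul w)
    rw [Complex.reCLM_apply] at h2
    rw [← h2]
    refine integral_congr_ae (Filter.Eventually.of_forall fun x => ?_)
    simp only [Complex.reCLM_apply]
    have h3 : w * ((f x : ℂ) * Complex.exp (((-(π * k * x) : ℝ) : ℂ) * Complex.I)) =
        (f x : ℂ) * Complex.exp (((-(π * k * (x - 1 / 2)) : ℝ) : ℂ) * Complex.I) := by
      rw [hw, mul_left_comm, ← Complex.exp_add]
      congr 2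
      push_cast
      ring
    rw [h3, Complex.re_ofReal_mul, Complex.exp_ofReal_mul_I_re, Real.cos_neg]
  rw [h1]
  calc |(w * fc f k).re| ≤ ‖w * fc f k‖ := Complex.abs_re_le_norm _
    _ = ‖fc f k‖ := by rw [norm_mul, hwn, one_mul]

end LOW_

open LOW_

theorem low_proof (hPAR : Stmt_PAR) : Stmt_LOW := by
  intro f K e lam hf hL2 he hK hS hlam
  have hpar := hPAR f hf hL2
  -- integrate the series
  have hint : ∀ k : ℤ, Integrable (fun x => K k * (f x * Real.cos (π * k * (x - 1 / 2)))) :=
    fun k => (integrable_cos hf.integrable _ _).const_mul _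
  have hsum : Summable fun k : ℤ =>
      ∫ x, ‖K k * (f x * Real.cos (π * k * (x - 1 / 2)))‖ := by
    refine Summable.of_nonneg_of_le (fun k => integral_nonneg fun x => norm_nonneg _)
      (fun k => ?_) hK.abs
    have h1 : ∫ x, ‖K k * (f x * Real.cos (π * k * (x - 1 / 2)))‖ ≤ ∫ x, |K k| * f x := by
      refine integral_mono (hint k).norm (hf.integrable.const_mul _) fun x => ?_
      simp only [norm_mul, Real.norm_eq_abs]
      rw [abs_of_nonneg (hf.nonneg x)]
      refine mul_le_mul_of_nonneg_left ?_ (abs_nonneg _)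
      exact mul_le_of_le_one_right (hf.nonneg x) (Real.abs_cos_le_one _)
    rw [integral_const_mul, hf.integral_eq_one, mul_one] at h1
    exact h1
  have hH := hasSum_integral_of_summable_integral_norm hint hsum
  have htot : ∫ x, ∑' k : ℤ, K k * (f x * Real.cos (π * k * (x - 1 / 2))) = lam := by
    have h1 : ∀ x, ∑' k : ℤ, K k * (f x * Real.cos (π * k * (x - 1 / 2))) = f x * lam := by
      intro x
      by_cases hx : x ∈ Icc (0 : ℝ) 1
      · have h2 := (hlam x hx).mul_left (f x)
        rw [← h2.tsum_eq]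
        refine tsum_congr fun k => ?_
        ring
      · rw [hf.eq_zero x hx]
        simp
    simp only [h1]
    rw [integral_mul_const, hf.integral_eq_one, one_mul]
  rw [htot] at hH
  have hH4 := hH.mul_left 4
  have hR := hpar.add hS.hasSum
  have hle := hasSum_le (fun k => ?_) hH4 hR
  · linarith
  · rw [integral_const_mul]
    have h1 := coef_le hf.integrable k
    have h2 : K k * ∫ x, f x * Real.cos (π * k * (x - 1 / 2)) ≤ |K k| * ‖fc f k‖ := by
      calc K k * ∫ x, f x * Real.cos (π * k * (x - 1 / 2))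
          ≤ |K k * ∫ x, f x * Real.cos (π * k * (x - 1 / 2))| := le_abs_self _
        _ = |K k| * |∫ x, f x * Real.cos (π * k * (x - 1 / 2))| := abs_mul _ _
        _ ≤ _ := mul_le_mul_of_nonneg_left h1 (abs_nonneg _)
    have h3 := elem (a := ‖fc f k‖) (K := K k) (he k)
    linarith

end Pool.Agent.AC2
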