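import Pool.Agent.AC2.Dual

/-!
# The two bounds for the infimum
-/

open MeasureTheory Set Real
open scoped ENNReal

namespace Pool.Agent.AC2

open Pool.Agent.AutoConv

theorem autoconv_aesm {f : ℝ → ℝ} (hf : Integrable f) :
    AEStronglyMeasurable (autoconv f) volume := by
  have h := hf.integrable_convolution (L := ContinuousLinearMap.mul ℝ ℝ) hf
  have e : (fun x => MeasureTheory.convolution f f (ContinuousLinearMap.mul ℝ ℝ) volume x) =
      autoconv f := by
    funext x
    rfl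
  rw [← e]
  exact h.aestronglyMeasurable

theorem eLp_eq {g : ℝ → ℝ} (hg : MemLp g 2 volume) :
    eLpNorm g 2 volume = ENNReal.ofReal (√(∫ x, g x ^ 2)) := by
  rw [hg.eLpNorm_eq_integral_rpow_norm (by norm_num) (by norm_num)]
  congr 1
  rw [Real.sqrt_eq_rpow]
  have e : ∀ x, ‖g x‖ ^ (2 : ℝ≥0∞).toReal = g x ^ 2 := by
    intro x
    simp
  simp only [e]
  norm_num

theorem bounds (hL : Stmt_LOW) (hV : Stmt_VAN) (hP : Stmt_PAR) (hD : Stmt_DEN) (h : Stmt_REC)
    (hρ : Stmt_RHO) :
    ENNReal.ofReal (57463960712 / 100000000000) ≤ minNorm 2 ^ 2 ∧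
      minNorm 2 ^ 2 ≤ ENNReal.ofReal (57463960716 / 100000000000) := by
  have sq : ∀ c : ℝ, 0 ≤ c → ENNReal.ofReal (√c) ^ 2 = ENNReal.ofReal c := by
    intro c hc
    rw [← ENNReal.ofReal_pow (Real.sqrt_nonneg c), Real.sq_sqrt hc]
  constructor
  · rw [← sq _ (by norm_num)]
    gcongr
    unfold minNorm
    refine le_iInf₂ fun f hf => ?_
    by_cases hm : MemLp (autoconv f) 2 volume
    · rw [eLp_eq hm]
      exact ENNReal.ofReal_le_ofReal (Real.sqrt_le_sqrt (dual_bound h hρ hL hV hf hm))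
    · have : eLpNorm (autoconv f) 2 volume = ⊤ := by
        by_contra hne
        exact hm ⟨autoconv_aesm hf.integrable, lt_top_iff_ne_top.2 hne⟩
      rw [this]
      exact le_top
  · obtain ⟨f, hf, hm, hb⟩ := primal_bound h hρ hP hD
    rw [← sq _ (by norm_num)]
    gcongr
    unfold minNorm
    refine (iInf₂_le f hf).trans ?_
    rw [eLp_eq hm]
    exact ENNReal.ofReal_le_ofReal (Real.sqrt_le_sqrt hb)

end Pool.Agent.AC2
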