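import Mathlib.Data.Nat.Basic

/-!
# Fixed point loops (computable part)

Values are multiples of `10 ^ (-24)`, the auxiliary quantities `e` are multiples of `10 ^ (-12)`.
-/

namespace Pool.Agent.AC2

/-- forcing -/
def sq {α : Sort _} (a : ℕ) (f : ℕ → α) : α := Nat.rec (f 0) (fun n _ => f (n + 1)) a

/-- `|G_1 a_1 + G_2 a_2 - G_3 a_3 - G_4 a_4 + G_5 a_5|` -/
def dOdd (a1 a2 a3 a4 a5 : ℕ) : ℕ :=
  sq (3658834 * a1 + 718960 * a2 + 29733 * a5) fun P => sq (310397 * a3 + 129728 * a4) fun Q =>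
    (P - Q) + (Q - P)

/-- sum of the positive and the negative part -/
def eOdd (a1 a2 a3 a4 a5 : ℕ) : ℕ :=
  sq (3658834 * a1 + 718960 * a2 + 29733 * a5) fun P => sq (310397 * a3 + 129728 * a4) fun Q =>
    P + (Q - P)

/-- `|G_1 a_1 - G_2 a_2 - G_3 a_3 + G_4 a_4 + G_5 a_5|` -/
def dEvn (a1 a2 a3 a4 a5 : ℕ) : ℕ :=
  sq (3658834 * a1 + 129728 * a4 + 29733 * a5) fun P => sq (718960 * a2 + 310397 * a3) fun Q =>
    (P - Q) + (Q - P)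

def eEvn (a1 a2 a3 a4 a5 : ℕ) : ℕ :=
  sq (3658834 * a1 + 129728 * a4 + 29733 * a5) fun P => sq (718960 * a2 + 310397 * a3) fun Q =>
    P + (Q - P)

/-- sums of `3 |K_k| ^ (4 / 3)` over `k + 2, k + 4, …`, scale `10 ^ 24` -/
def loopD (D E : ℕ → ℕ → ℕ → ℕ → ℕ → ℕ) : ℕ → ℕ → ℕ → ℕ → ℕ → ℕ → ℕ → ℕ → ℕ → ℕ :=
  fun n => Nat.rec (fun k a1 a2 a3 a4 a5 w s =>
      sq (E a1 a2 a3 a4 a5 / 10000000 + 1000000) fun y =>
      s + ((2 * y * w / 1000000000000 + y * y / (w * w) + 2) * ((4 * k + 1) * (4 * k + 1)) /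
        (8 * (4 * k + 5)) + 1))
    (fun _ ih k a1 a2 a3 a4 a5 w s =>
      sq (a1 * (2 * k - 1) / (2 * k + 5)) fun b1 =>
      sq (a2 * (2 * k - 3) / (2 * k + 7)) fun b2 =>
      sq (a3 * (2 * k - 5) / (2 * k + 9)) fun b3 =>
      sq (a4 * (2 * k - 7) / (2 * k + 11)) fun b4 =>
      sq (a5 * (2 * k - 9) / (2 * k + 13)) fun b5 =>
      sq (D b1 b2 b3 b4 b5 / 10000000 + 1000000) fun y =>
      sq (y * 1000000000000) fun z =>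
      sq (w * (k + 1) / (k + 2)) fun w1 =>
      sq ((2 * w1 + z / (w1 * w1)) / 3) fun w2 =>
      sq ((2 * w2 + z / (w2 * w2)) / 3 + 1) fun w3 =>
      sq (s + (2 * y * w3 / 1000000000000 + y * y / (w3 * w3) + 2)) fun t =>
      sq (k + 2) fun k' =>
      ih k' b1 b2 b3 b4 b5 w3 t) n

/-- `|B_0 a_0 + B_1 a_1 + B_2 a_2 - B_3 a_3 - B_4 a_4|` -/
def pOdd (a0 a1 a2 a3 a4 : ℕ) : ℕ :=
  sq (9286143 * a0 + 1832840 * a1 + 496850 * a2) fun P => sq (192330 * a3 + 45220 * a4) fun Q =>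
    (P - Q) + (Q - P)

def fOdd (a0 a1 a2 a3 a4 : ℕ) : ℕ :=
  sq (9286143 * a0 + 1832840 * a1 + 496850 * a2) fun P => sq (192330 * a3 + 45220 * a4) fun Q =>
    P + (Q - P)

/-- `|B_0 a_0 - B_1 a_1 + B_2 a_2 + B_3 a_3 - B_4 a_4|` -/
def pEvn (a0 a1 a2 a3 a4 : ℕ) : ℕ :=
  sq (9286143 * a0 + 496850 * a2 + 192330 * a3) fun P => sq (1832840 * a1 + 45220 * a4) fun Q =>
    (P - Q) + (Q - P)

def fEvn (a0 a1 a2 a3 a4 : ℕ) : ℕ :=
  sq (9286143 * a0 + 496850 * a2 + 192330 * a3) fun P => sq (1832840 * a1 + 45220 * a4) fun Q =>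
    P + (Q - P)

/-- sums of `u_k ^ 4` over `k + 2, k + 4, …`, scale `10 ^ 60` -/
def loopP (D E : ℕ → ℕ → ℕ → ℕ → ℕ → ℕ) : ℕ → ℕ → ℕ → ℕ → ℕ → ℕ → ℕ → ℕ → ℕ :=
  fun n => Nat.rec (fun k a0 a1 a2 a3 a4 s =>
      sq (E a0 a1 a2 a3 a4 / 10000000000000000 + 2) fun v =>
      sq (v * v) fun v2 =>
      s + (v2 * v2 * ((4 * k + 1) * (4 * k + 1)) / (8 * (4 * k + 5)) + 1))
    (fun _ ih k a0 a1 a2 a3 a4 s =>
      sq (a0 * (2 * k + 1) / (2 * k + 3)) fun b0 =>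
      sq (a1 * (2 * k - 1) / (2 * k + 5)) fun b1 =>
      sq (a2 * (2 * k - 3) / (2 * k + 7)) fun b2 =>
      sq (a3 * (2 * k - 5) / (2 * k + 9)) fun b3 =>
      sq (a4 * (2 * k - 7) / (2 * k + 11)) fun b4 =>
      sq (D b0 b1 b2 b3 b4 / 10000000000000000 + 2) fun v =>
      sq (v * v) fun v2 =>
      sq (s + v2 * v2) fun t =>
      sq (k + 2) fun k' =>
      ih k' b0 b1 b2 b3 b4 t) n

end Pool.Agent.AC2
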