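import Pool.Agent.AC2.Loop

/-!
# Kernel evaluation of a loop
-/

namespace Pool.Agent.AC2

set_option maxRecDepth 100000 in
theorem numD5 :
    Nat.ble (loopD dOdd eOdd 30000 5 21645021645021645021646 7029947400684055775000 4329004329004329004330
      4824473706351802982843 14354066985645933014355 202230859070 0) 9925225775513495444163 = true := by
  decide +kernel

end Pool.Agent.AC2
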