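import Pool.Agent.AC2.Loop

/-!
# Kernel evaluation of a loop
-/

namespace Pool.Agent.AC2

set_option maxRecDepth 100000 in
theorem numD6 :
    Nat.ble (loopD dEvn eEvn 30000 6 16403210601596130141666 4329004329004329004330 2067631588436486992647
      1594896331738437001595 2067631588436486992647 178140146188 0) 8031730101550983762256 = true := by
  decide +kernel

end Pool.Agent.AC2
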