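import Pool.Agent.AC2.Loop

/-!
# Kernel evaluation of a loop
-/

namespace Pool.Agent.AC2

set_option maxRecDepth 100000 in
theorem numP6 :
    Nat.ble (loopP pEvn fEvn 30000 6 194805194805194805194806 16403210601596130141666 4329004329004329004330
      2067631588436486992647 1594896331738437001595 0) 2677214721477400828740152196600127726862336257122050380691 = true := by
  decide +kernel

end Pool.Agent.AC2
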