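import Pool.Agent.AC2.Stmts

/-!
# Module PAR: Parseval for the autoconvolution on a circle of length 2
-/

open MeasureTheory Set Real
open scoped ENNReal

namespace Pool.Agent.AC2

open Pool.Agent.AutoConv

namespace PAR_

/-- `f(x) e^{-iπkx}` -/
noncomputable def F (f : ℝ → ℝ) (k : ℤ) (x : ℝ) : ℂ :=
  (f x : ℂ) * Complex.exp (((-(π * k * x) : ℝ) : ℂ) * Complex.I)

theorem F_integrable {f : ℝ → ℝ} (hf : Integrable f) (k : ℤ) : Integrable (F f k) := by
  have h1 : Integrable (fun x => (f x : ℂ)) := hf.ofReal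
  refine h1.mono ?_ (Filter.Eventually.of_forall fun x => ?_)
  · refine h1.aestronglyMeasurable.mul ?_
    refine Continuous.aestronglyMeasurable ?_
    fun_prop
  · unfold F
    rw [norm_mul, Complex.norm_exp_ofReal_mul_I, mul_one]

theorem autoconv_eq_zero {f : ℝ → ℝ} (hf : ∀ x, x ∉ Icc (0:ℝ) 1 → f x = 0) (x : ℝ)
    (hx : x ∉ Icc (0:ℝ) 2) : autoconv f x = 0 := by
  unfold autoconv
  have : (fun t => f t * f (x - t)) = fun _ => 0 := by
    funext t
    by_cases h1 : t ∈ Icc (0:ℝ) 1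
    · by_cases h2 : x - t ∈ Icc (0:ℝ) 1
      · exfalso
        apply hx
        exact ⟨by linarith [h1.1, h2.1], by linarith [h1.2, h2.2]⟩
      · rw [hf _ h2, mul_zero]
    · rw [hf _ h1, zero_mul]
  rw [this]
  simp

theorem conv_eq (f : ℝ → ℝ) (k : ℤ) (x : ℝ) :
    MeasureTheory.convolution (F f k) (F f k) (ContinuousLinearMap.mul ℝ ℂ) volume x =
      (autoconv f x : ℂ) * Complex.exp (((-(π * k * x) : ℝ) : ℂ) * Complex.I) := by
  unfold MeasureTheory.convolution autoconv
  rw [← integral_complex_ofReal, ← integral_mul_const]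
  refine integral_congr_ae (Filter.Eventually.of_forall fun t => ?_)
  simp only [ContinuousLinearMap.mul_apply']
  unfold F
  have e : Complex.exp (((-(π * k * x) : ℝ) : ℂ) * Complex.I) =
      Complex.exp (((-(π * k * t) : ℝ) : ℂ) * Complex.I) *
      Complex.exp (((-(π * k * (x - t)) : ℝ) : ℂ) * Complex.I) := by
    rw [← Complex.exp_add]
    congr 1
    push_cast
    ring
  rw [e]
  push_cast
  ring

theorem integral_conv {f : ℝ → ℝ} (hf : Integrable f) (k : ℤ) :
    ∫ x, (autoconv f x : ℂ) * Complex.exp (((-(π * k * x) : ℝ) : ℂ) * Complex.I) = fc f k ^ 2 := by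
  have h := MeasureTheory.integral_convolution (ContinuousLinearMap.mul ℝ ℂ)
    (F_integrable hf k) (F_integrable hf k)
  have e : (fun x => MeasureTheory.convolution (F f k) (F f k) (ContinuousLinearMap.mul ℝ ℂ)
      volume x) = fun x => (autoconv f x : ℂ) *
        Complex.exp (((-(π * k * x) : ℝ) : ℂ) * Complex.I) := by
    funext x
    exact conv_eq f k x
  rw [e] at h
  rw [h]
  simp only [ContinuousLinearMap.mul_apply']
  have : ∫ x, F f k x = fc f k := rfl
  rw [this]
  ring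

theorem interval_eq {E : Type} [NormedAddCommGroup E] [NormedSpace ℝ E] (g : ℝ → E)
    (hg : ∀ x, x ∉ Icc (0:ℝ) 2 → g x = 0) : ∫ x in (0:ℝ)..2, g x = ∫ x, g x := by
  rw [intervalIntegral.integral_of_le (by norm_num), ← integral_Icc_eq_integral_Ioc]
  exact setIntegral_eq_integral_of_forall_compl_eq_zero hg

end PAR_

open PAR_ in
theorem par_proof : Stmt_PAR := by
  intro f hf hL
  have h02 : (0:ℝ) < 2 := by norm_num
  have hG : MemLp (fun x => (autoconv f x : ℂ)) 2 (volume.restrict (Ioc (0:ℝ) 2)) :=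
    hL.ofReal.restrict _
  have hP := hasSum_sq_fourierCoeffOn h02 hG
  have hcoef : ∀ k : ℤ, fourierCoeffOn h02 (fun x => (autoconv f x : ℂ)) k = (1 / 2) * fc f k ^ 2 := by
    intro k
    rw [fourierCoeffOn_eq_integral, ← integral_conv hf.integrable k]
    have e : ∀ x : ℝ, (fourier (-k) (x : AddCircle ((2:ℝ) - 0))) • (autoconv f x : ℂ) =
        (autoconv f x : ℂ) * Complex.exp (((-(π * k * x) : ℝ) : ℂ) * Complex.I) := by
      intro x
      rw [fourier_coe_apply, smul_eq_mul, mul_comm]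
      congr 2
      push_cast
      ring
    simp_rw [e]
    rw [interval_eq]
    · rw [← Complex.coe_smul, smul_eq_mul]
      push_cast
      ring
    · intro x hx
      rw [autoconv_eq_zero hf.eq_zero x hx]
      simp
  have hint : ∫ x in (0:ℝ)..2, ‖(autoconv f x : ℂ)‖ ^ 2 = ∫ x, autoconv f x ^ 2 := by
    rw [interval_eq]
    · refine integral_congr_ae (Filter.Eventually.of_forall fun x => ?_)
      simp
    · intro x hx
      rw [autoconv_eq_zero hf.eq_zero x hx]
      simp
  rw [hint] at hP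
  simp_rw [hcoef] at hP
  have h4 := hP.mul_left 4
  have e1 : ∀ k : ℤ, 4 * ‖(1 / 2 : ℂ) * fc f k ^ 2‖ ^ 2 = ‖fc f k‖ ^ 4 := by
    intro k
    rw [norm_mul, norm_pow]
    have : ‖(1 / 2 : ℂ)‖ = 1 / 2 := by norm_num
    rw [this]
    ring
  simp_rw [e1] at h4
  have e2 : 4 * (((2:ℝ) - 0)⁻¹ • ∫ x, autoconv f x ^ 2) = 2 * ∫ x, autoconv f x ^ 2 := by
    rw [smul_eq_mul]; ring
  rw [e2] at h4
  exact h4

end Pool.Agent.AC2
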