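import Pool.Agent.AC2.Stmts

open MeasureTheory Set Real

namespace Pool.Agent.AC2

namespace REC_

lemma int_lin {ν : ℝ} (hν : -1 < ν) :
    IntervalIntegrable (fun x : ℝ => (1 - 2 / π * x) ^ ν) volume 0 (π / 2) := by
  have h0 : IntervalIntegrable (fun x : ℝ => x ^ ν) volume 1 0 :=
    intervalIntegral.intervalIntegrable_rpow' hν
  have h1 : IntervalIntegrable (fun x : ℝ => (1 - x) ^ ν) volume (1 - 1) (1 - 0) :=
    h0.comp_sub_left 1
  have h2 := h1.comp_mul_left (c := 2 / π)
  have e1 : (1 - 1 : ℝ) / (2 / π) = 0 := by simp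
  have e2 : (1 - 0 : ℝ) / (2 / π) = π / 2 := by
    have := Real.pi_pos
    field_simp
    ring
  rw [e1, e2] at h2
  exact h2

lemma int_half {ν : ℝ} (hν : -1 < ν) :
    IntervalIntegrable (fun x : ℝ => Real.cos x ^ ν) volume 0 (π / 2) := by
  have hpi := Real.pi_pos
  by_cases h0 : 0 ≤ ν
  · exact (Real.continuous_cos.rpow_const fun x => Or.inr h0).intervalIntegrable _ _
  · refine (int_lin hν).mono_fun' ?_ ?_
    · exact (Real.measurable_cos.pow_const ν).aestronglyMeasurable
    · rw [Set.uIoc_of_le (by positivity)]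
      refine (ae_restrict_mem measurableSet_Ioc).mono fun x hx => ?_
      have hc : 0 ≤ Real.cos x :=
        Real.cos_nonneg_of_neg_pi_div_two_le_of_le (by linarith [hx.1]) hx.2
      have e : ‖Real.cos x ^ ν‖ = Real.cos x ^ ν := by
        rw [Real.norm_eq_abs, abs_of_nonneg (Real.rpow_nonneg hc ν)]
      change ‖Real.cos x ^ ν‖ ≤ (1 - 2 / π * x) ^ ν
      rw [e]
      rcases hx.2.eq_or_lt with h | h
      · rw [h, Real.cos_pi_div_two]
        have : 1 - 2 / π * (π / 2) = 0 := by field_simp; ring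
        rw [this]
      · refine Real.rpow_le_rpow_of_nonpos ?_ (Real.one_sub_mul_le_cos hx.1.le hx.2) (by linarith)
        have : 2 / π * x < 1 := by
          rw [div_mul_eq_mul_div, div_lt_one hpi]
          linarith
        linarith

lemma int_full {ν : ℝ} (hν : -1 < ν) :
    IntervalIntegrable (fun x : ℝ => Real.cos x ^ ν) volume (-(π / 2)) (π / 2) := by
  have h1 := int_half hν
  have h2 : IntervalIntegrable (fun x : ℝ => Real.cos (-x) ^ ν) volume (-0) (-(π / 2)) :=
    (IntervalIntegrable.iff_comp_neg (f := fun x : ℝ => Real.cos x ^ ν) (by simp)).1 h1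
  simp only [Real.cos_neg, neg_zero] at h2
  exact h2.symm.trans h1

lemma int_mul {ν : ℝ} (hν : -1 < ν) {g : ℝ → ℝ} (hg : Continuous g) :
    IntervalIntegrable (fun x : ℝ => Real.cos x ^ ν * g x) volume (-(π / 2)) (π / 2) :=
  (int_full hν).mul_continuousOn hg.continuousOn

lemma int_II {ν : ℝ} (hν : -1 < ν) (k : ℕ) :
    IntervalIntegrable (fun x : ℝ => Real.cos x ^ ν * Real.cos (k * x)) volume
      (-(π / 2)) (π / 2) :=
  int_mul hν (by fun_prop)

lemma pos {ν : ℝ} (hν : -1 < ν) : 0 < II ν 0 := by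
  have hpi := Real.pi_pos
  unfold II
  refine intervalIntegral.intervalIntegral_pos_of_pos_on (int_II hν 0) ?_ (by linarith)
  intro x hx
  have : 0 < Real.cos x := Real.cos_pos_of_mem_Ioo hx
  simp only [Nat.cast_zero, zero_mul, Real.cos_zero, mul_one]
  exact Real.rpow_pos_of_pos this ν

lemma recur {ν : ℝ} (hν : -1 < ν) (k : ℕ) : (ν + k + 2) * II ν (k + 2) = (ν - k) * II ν k := by
  have hpi := Real.pi_pos
  have hν1 : 0 < ν + 1 := by linarith
  have key : ∫ x in (-(π / 2))..(π / 2), ((k - ν) / 2 * (Real.cos x ^ ν * Real.cos (k * x)) +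
      (ν + k + 2) / 2 * (Real.cos x ^ ν * Real.cos ((k + 2 : ℕ) * x))) =
      Real.cos (π / 2) ^ (ν + 1) * Real.sin ((k + 1) * (π / 2)) -
      Real.cos (-(π / 2)) ^ (ν + 1) * Real.sin ((k + 1) * (-(π / 2))) := by
    refine intervalIntegral.integral_eq_sub_of_hasDerivAt_of_le
      (f := fun x => Real.cos x ^ (ν + 1) * Real.sin ((k + 1) * x)) (by linarith) ?_ ?_ ?_
    · refine Continuous.continuousOn ?_
      exact (Real.continuous_cos.rpow_const fun x => Or.inr hν1.le).mul (by fun_prop)
    · intro x hx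
      have hc : 0 < Real.cos x := Real.cos_pos_of_mem_Ioo hx
      have d1 : HasDerivAt (fun y => Real.cos y ^ (ν + 1))
          (-Real.sin x * (ν + 1) * Real.cos x ^ (ν + 1 - 1)) x :=
        (Real.hasDerivAt_cos x).rpow_const (Or.inl hc.ne')
      have d2 : HasDerivAt (fun y : ℝ => Real.sin ((k + 1) * y))
          (Real.cos ((k + 1) * x) * ((k + 1) * 1)) x :=
        ((hasDerivAt_id x).const_mul ((k : ℝ) + 1)).sin
      have d3 := d1.mul d2
      refine d3.congr_deriv ?_
      have e1 : ν + 1 - 1 = ν := by ring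
      have e2 : Real.cos x ^ (ν + 1) = Real.cos x ^ ν * Real.cos x := Real.rpow_add_one hc.ne' ν
      have e3 : Real.cos (k * x) = Real.cos ((k + 1) * x) * Real.cos x +
          Real.sin ((k + 1) * x) * Real.sin x := by
        rw [← Real.cos_sub]; congr 1; ring
      have e4 : Real.cos ((k + 2 : ℕ) * x) = Real.cos ((k + 1) * x) * Real.cos x -
          Real.sin ((k + 1) * x) * Real.sin x := by
        rw [← Real.cos_add]; congr 1; push_cast; ring
      rw [e1, e2, e3, e4]
      ring
    · exact ((int_II hν k).const_mul _).add ((int_II hν (k + 2)).const_mul _)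
  rw [intervalIntegral.integral_add ((int_II hν k).const_mul _)
    ((int_II hν (k + 2)).const_mul _), intervalIntegral.integral_const_mul,
    intervalIntegral.integral_const_mul, Real.cos_neg, Real.cos_pi_div_two,
    Real.zero_rpow hν1.ne'] at key
  change (k - ν) / 2 * II ν k + (ν + k + 2) / 2 * II ν (k + 2) = _ at key
  linarith

lemma pow_succ' {ν : ℝ} (hν : -1 < ν) (x : ℝ) : Real.cos x ^ (ν + 1) = Real.cos x ^ ν * Real.cos x := by
  by_cases h : Real.cos x = 0
  · rw [h, mul_zero, Real.zero_rpow (by linarith)]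
  · exact Real.rpow_add_one h ν

lemma up0 {ν : ℝ} (hν : -1 < ν) : II (ν + 1) 0 = II ν 1 := by
  unfold II
  refine intervalIntegral.integral_congr fun x _ => ?_
  simp only [pow_succ' hν, Nat.cast_zero, zero_mul, Real.cos_zero, mul_one, Nat.cast_one, one_mul]

lemma up {ν : ℝ} (hν : -1 < ν) (k : ℕ) : II (ν + 1) (k + 1) = (II ν (k + 2) + II ν k) / 2 := by
  unfold II
  rw [← intervalIntegral.integral_add (int_II hν (k + 2)) (int_II hν k),
    ← intervalIntegral.integral_div]
  refine intervalIntegral.integral_congr fun x _ => ?_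
  have e3 : Real.cos (k * x) = Real.cos ((k + 1) * x) * Real.cos x +
      Real.sin ((k + 1) * x) * Real.sin x := by
    rw [← Real.cos_sub]; congr 1; ring
  have e4 : Real.cos ((k + 2 : ℕ) * x) = Real.cos ((k + 1) * x) * Real.cos x -
      Real.sin ((k + 1) * x) * Real.sin x := by
    rw [← Real.cos_add]; congr 1; push_cast; ring
  simp only [pow_succ' hν, e3, e4]
  push_cast
  ring

end REC_

theorem rec_proof : Stmt_REC := fun _ hν =>
  ⟨REC_.pos hν, REC_.recur hν, REC_.up0 hν, REC_.up hν⟩

end Pool.Agent.AC2
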