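import Pool.Agent.AC2.Stmts

/-!
# RHO: the quotient of the two basic constants to 23 digits
-/

set_option autoImplicit false

open MeasureTheory Set Real
open scoped ENNReal

namespace Pool.Agent.AC2

namespace RHO_

/-- `II (79/2) (2m) / II (79/2) 0` -/
def PP : ℕ → ℚ
  | 0 => 1
  | m + 1 => PP m * ((79 / 2 - 2 * m) / (79 / 2 + 2 * m + 2))

/-- `II (79/2) (2m+1) / II (81/2) 0` -/
def QQ : ℕ → ℚ
  | 0 => 1
  | m + 1 => QQ m * ((79 / 2 - (2 * m + 1)) / (79 / 2 + (2 * m + 1) + 2))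

def SP : ℕ → ℚ
  | 0 => 0
  | m + 1 => SP m + PP m

def SQ : ℕ → ℚ
  | 0 => 0
  | m + 1 => SQ m + QQ m

def CC : ℕ → ℚ
  | 0 => 1
  | n + 1 => CC n * ((2 * n + 1 / 2) * (2 * n + 5 / 2) / (2 * n + 3 / 2) ^ 2)

lemma numLo : (456946581044463625374966 / 10 ^ 24 - 1 / 10 ^ 23 : ℚ) *
    (2 * SQ 30 + 122 * |QQ 30| / (79 / 2)) ≤
    CC 20 * (2 * SP 30 - 1 - 120 * |PP 30| / (79 / 2)) := by
  decide +kernel

lemma numHi : CC 20 * (2 * SP 30 - 1 + 120 * |PP 30| / (79 / 2)) ≤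
    (456946581044463625374966 / 10 ^ 24 + 1 / 10 ^ 23 : ℚ) *
    (2 * SQ 30 - 122 * |QQ 30| / (79 / 2)) := by
  decide +kernel

lemma numPos : 0 < 2 * SQ 30 - 122 * |QQ 30| / (79 / 2) ∧ 0 < CC 20 := by
  decide +kernel

lemma W_succ (h1 : Stmt_REC) (ν : ℝ) (hν : -1 < ν) :
    (ν + 2) * II (ν + 2) 0 = (ν + 1) * II ν 0 := by
  obtain ⟨h0, hr, he, hp⟩ := h1 ν hν
  obtain ⟨-, -, he', -⟩ := h1 (ν + 1) (by linarith)
  have e1 := hr 0
  have e2 := hp 0
  simp only [Nat.cast_zero, zero_add, add_zero, sub_zero] at e1 e2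
  have e3 : ν + 1 + 1 = ν + 2 := by ring
  rw [e3] at he'
  rw [he', e2]
  linarith

noncomputable def rr (ν : ℝ) : ℝ := II (ν + 1) 0 / II ν 0

lemma rr_step (h1 : Stmt_REC) (ν : ℝ) (hν : -1 < ν) :
    rr ν = (ν + 1) * (ν + 3) / (ν + 2) ^ 2 * rr (ν + 2) := by
  have h0 := (h1 ν hν).1
  have h0' := (h1 (ν + 1) (by linarith)).1
  have a := W_succ h1 ν hν
  have b := W_succ h1 (ν + 1) (by linarith)
  have e1 : ν + 1 + 2 = ν + 2 + 1 := by ring
  rw [e1] at b
  have hν1 : 0 < ν + 1 := by linarith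
  have hν2 : 0 < ν + 2 := by linarith
  have hν3 : 0 < ν + 3 := by linarith
  have a' : II (ν + 2) 0 = (ν + 1) / (ν + 2) * II ν 0 := by
    field_simp
    linarith
  have b' : II (ν + 2 + 1) 0 = (ν + 2) / (ν + 3) * II (ν + 1) 0 := by
    field_simp
    have e : ν + 2 + 1 = ν + 3 := by ring
    rw [e] at b ⊢
    have e4 : ν + 1 + 1 = ν + 2 := by ring
    rw [e4] at b
    linarith
  unfold rr
  rw [a', b']
  field_simp

lemma chain (h1 : Stmt_REC) (n : ℕ) :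
    rr (-1 / 2) = (CC n : ℝ) * rr (-1 / 2 + 2 * n) := by
  induction n with
  | zero => simp [CC]
  | succ n ih =>
    have hn : (0 : ℝ) ≤ n := Nat.cast_nonneg n
    rw [ih, rr_step h1 (-1 / 2 + 2 * n) (by linarith), CC]
    have e1 : (-1 / 2 + 2 * (n : ℝ) + 2) = -1 / 2 + 2 * ((n + 1 : ℕ) : ℝ) := by
      push_cast; ring
    rw [e1]
    have e2 : -1 / 2 + 2 * (n : ℝ) + 1 = 2 * n + 1 / 2 := by ring
    have e3 : -1 / 2 + 2 * (n : ℝ) + 3 = 2 * n + 5 / 2 := by ring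
    have e4 : -1 / 2 + 2 * ((n + 1 : ℕ) : ℝ) = 2 * n + 3 / 2 := by push_cast; ring
    rw [e2, e3, e4]
    push_cast
    ring

lemma evenT (h1 : Stmt_REC) (m : ℕ) : II (79 / 2) (2 * m) = II (79 / 2) 0 * (PP m : ℝ) := by
  induction m with
  | zero => simp [PP]
  | succ m ih =>
    have h := (h1 (79 / 2) (by norm_num)).2.1 (2 * m)
    have e : 2 * (m + 1) = 2 * m + 2 := by ring
    have hm : (0 : ℝ) ≤ m := Nat.cast_nonneg m
    have hpos : (0 : ℝ) < 79 / 2 + 2 * m + 2 := by linarith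
    rw [e, PP]
    push_cast at h ⊢
    rw [ih] at h
    have h' : II (79 / 2) (2 * m + 2) =
        ((79 / 2 - 2 * m) * (II (79 / 2) 0 * (PP m : ℝ))) / (79 / 2 + 2 * m + 2) := by
      rw [eq_div_iff hpos.ne']
      linarith
    rw [h']
    ring

lemma oddT (h1 : Stmt_REC) (m : ℕ) :
    II (79 / 2) (2 * m + 1) = II (79 / 2 + 1) 0 * (QQ m : ℝ) := by
  induction m with
  | zero => simp [QQ, (h1 (79 / 2) (by norm_num)).2.2.1]
  | succ m ih =>
    have h := (h1 (79 / 2) (by norm_num)).2.1 (2 * m + 1)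
    have e : 2 * (m + 1) + 1 = 2 * m + 1 + 2 := by ring
    have hm : (0 : ℝ) ≤ m := Nat.cast_nonneg m
    have hpos : (0 : ℝ) < 79 / 2 + (2 * m + 1) + 2 := by linarith
    rw [e, QQ]
    push_cast at h ⊢
    rw [ih] at h
    have h' : II (79 / 2) (2 * m + 1 + 2) =
        ((79 / 2 - (2 * m + 1)) * (II (79 / 2 + 1) 0 * (QQ m : ℝ))) /
          (79 / 2 + (2 * m + 1) + 2) := by
      rw [eq_div_iff hpos.ne']
      linarith
    rw [h']
    ring

lemma tail (h1 : Stmt_REC) (K : ℕ) (hK : 40 ≤ K) (N : ℕ) :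
    (79 / 2) * ∑ k ∈ Finset.range N, |II (79 / 2) (K + k)| ≤
      (K * |II (79 / 2) K| + (K + 1) * |II (79 / 2) (K + 1)|) -
      ((K + N) * |II (79 / 2) (K + N)| + (K + N + 1) * |II (79 / 2) (K + N + 1)|) := by
  induction N with
  | zero => simp
  | succ N ih =>
    rw [Finset.sum_range_succ, mul_add]
    have h := (h1 (79 / 2) (by norm_num)).2.1 (K + N)
    have hKN : (40 : ℝ) ≤ (K + N : ℕ) := by
      have : 40 ≤ K + N := by omega
      exact_mod_cast this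
    have h2 : (79 / 2 + ((K + N : ℕ) : ℝ) + 2) * |II (79 / 2) (K + N + 2)| =
        (((K + N : ℕ) : ℝ) - 79 / 2) * |II (79 / 2) (K + N)| := by
      have := congrArg abs h
      rw [abs_mul, abs_mul] at this
      rw [abs_of_pos (by linarith : (0 : ℝ) < 79 / 2 + ((K + N : ℕ) : ℝ) + 2),
        abs_of_neg (by linarith : 79 / 2 - ((K + N : ℕ) : ℝ) < 0)] at this
      rw [this]
      ring
    have e1 : K + (N + 1) = K + N + 1 := by ring
    have e2 : K + N + 1 + 1 = K + N + 2 := by ring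
    rw [e1, e2]
    push_cast at h2 ⊢
    have h3 : 0 ≤ |II (79 / 2) (K + N + 2)| := abs_nonneg _
    nlinarith

lemma main (h1 : Stmt_REC) (h2 : Stmt_FOU) :
    |II (79 / 2) 0 * (2 * (SP 30 : ℝ) - 1) - II (79 / 2 + 1) 0 * (2 * (SQ 30 : ℝ))| ≤
      2 * ((60 * (II (79 / 2) 0 * |(PP 30 : ℝ)|) + 61 * (II (79 / 2 + 1) 0 * |(QQ 30 : ℝ)|)) /
        (79 / 2)) := by
  obtain ⟨hs, hx⟩ := h2 (79 / 2) (by norm_num)
  have h := hx π
  rw [Real.cos_pi, max_eq_right (by norm_num : (-1 : ℝ) ≤ 0),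
    Real.zero_rpow (by norm_num), mul_zero] at h
  have hn := h.nat_add_neg
  simp only [Int.natAbs_natCast, Int.natAbs_neg, Int.natAbs_zero, Int.cast_neg, neg_mul,
    Real.cos_neg, Int.cast_natCast, Int.cast_zero, zero_mul, Real.cos_zero, mul_one,
    zero_add] at hn
  have hc : ∀ n : ℕ, Real.cos (n * π) = (-1) ^ n := fun n => Real.cos_nat_mul_pi n
  simp only [hc] at hn
  have ht := hn.tendsto_sum_nat
  -- partial sums
  have hbound : ∀ N : ℕ, |∑ i ∈ Finset.range (60 + N), (II (79 / 2) i * (-1) ^ i +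
      II (79 / 2) i * (-1) ^ i) - ∑ i ∈ Finset.range 60, (II (79 / 2) i * (-1) ^ i +
      II (79 / 2) i * (-1) ^ i)| ≤
      2 * ((60 * |II (79 / 2) 60| + 61 * |II (79 / 2) 61|) / (79 / 2)) := by
    intro N
    rw [Finset.sum_range_add, add_sub_cancel_left]
    refine (Finset.abs_sum_le_sum_abs _ _).trans ?_
    have ht := tail h1 60 (by norm_num) N
    have hle : ∀ i ∈ Finset.range N, |II (79 / 2) (60 + i) * (-1) ^ (60 + i) +
        II (79 / 2) (60 + i) * (-1) ^ (60 + i)| ≤ 2 * |II (79 / 2) (60 + i)| := by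
      intro i _
      rw [← two_mul, abs_mul, abs_mul, abs_pow]
      simp
    refine (Finset.sum_le_sum hle).trans ?_
    rw [← Finset.mul_sum]
    have hpos : 0 ≤ ((60 : ℕ) + (N : ℝ)) * |II (79 / 2) (60 + N)| +
        ((60 : ℕ) + (N : ℝ) + 1) * |II (79 / 2) (60 + N + 1)| := by positivity
    have h61 : (60 : ℕ) + 1 = 61 := rfl
    rw [h61] at ht
    push_cast at ht hpos
    have : (79 / 2) * ∑ k ∈ Finset.range N, |II (79 / 2) (60 + k)| ≤
        60 * |II (79 / 2) 60| + 61 * |II (79 / 2) 61| := by linarith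
    have h4 : ∑ k ∈ Finset.range N, |II (79 / 2) (60 + k)| ≤
        (60 * |II (79 / 2) 60| + 61 * |II (79 / 2) 61|) / (79 / 2) := by
      rw [le_div_iff₀ (by norm_num)]
      linarith
    linarith
  have ht2 : Filter.Tendsto (fun N : ℕ => |∑ i ∈ Finset.range (60 + N), (II (79 / 2) i * (-1) ^ i +
      II (79 / 2) i * (-1) ^ i) - ∑ i ∈ Finset.range 60, (II (79 / 2) i * (-1) ^ i +
      II (79 / 2) i * (-1) ^ i)|) Filter.atTop (nhds |II (79 / 2) 0 -
      ∑ i ∈ Finset.range 60, (II (79 / 2) i * (-1) ^ i + II (79 / 2) i * (-1) ^ i)|) := by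
    have ht3 := ht.comp (Filter.tendsto_add_atTop_nat 60)
    have : (fun n => n + 60) = fun n : ℕ => 60 + n := by funext n; ring
    rw [this] at ht3
    exact (ht3.sub_const _).abs
  have hfin := le_of_tendsto' ht2 hbound
  -- evaluate the finite sum
  have hsum : ∀ M : ℕ, ∑ i ∈ Finset.range (2 * M), (II (79 / 2) i * (-1) ^ i +
      II (79 / 2) i * (-1) ^ i) =
      2 * (II (79 / 2) 0 * (SP M : ℝ) - II (79 / 2 + 1) 0 * (SQ M : ℝ)) := by
    intro M
    induction M with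
    | zero => simp [SP, SQ]
    | succ M ih =>
      have e : 2 * (M + 1) = 2 * M + 1 + 1 := by ring
      rw [e, Finset.sum_range_succ, Finset.sum_range_succ, ih, evenT h1, oddT h1, SP, SQ]
      have e1 : (-1 : ℝ) ^ (2 * M) = 1 := by rw [pow_mul]; norm_num
      have e2 : (-1 : ℝ) ^ (2 * M + 1) = -1 := by rw [pow_succ, e1]; norm_num
      rw [e1, e2]
      push_cast
      ring
  have h60 := hsum 30
  norm_num at h60
  rw [h60] at hfin
  have e60 := evenT h1 30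
  have e61 := oddT h1 30
  norm_num at e60 e61
  rw [e60, e61, abs_mul, abs_mul, abs_of_pos (h1 (79 / 2) (by norm_num)).1] at hfin
  have hpos2 := (h1 (79 / 2 + 1) (by norm_num)).1
  norm_num at hpos2
  rw [abs_of_pos hpos2] at hfin
  norm_num
  rw [show II (79 / 2) 0 * (2 * (SP 30 : ℝ) - 1) - II (81 / 2) 0 * (2 * (SQ 30 : ℝ)) =
    -(II (79 / 2) 0 - 2 * (II (79 / 2) 0 * (SP 30 : ℝ) - II (81 / 2) 0 * (SQ 30 : ℝ))) by ring,
    abs_neg]
  norm_num at hfin
  exact hfin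

end RHO_

open RHO_

theorem rho_proof (h1 : Stmt_REC) (h2 : Stmt_FOU) : Stmt_RHO := by
  have hm := main h1 h2
  have hW := (h1 (79 / 2) (by norm_num)).1
  have hW' := (h1 (79 / 2 + 1) (by norm_num)).1
  have hc := chain h1 20
  have hFF : FF 0 1 = rr (-1 / 2) := by
    have h := (h1 (-1 / 2) (by norm_num)).2.2.1
    unfold FF rr
    rw [h]
    norm_num
  have hν : (-1 / 2 + 2 * ((20 : ℕ) : ℝ)) = 79 / 2 := by norm_num
  rw [hν] at hc
  have hlo : ((456946581044463625374966 / 10 ^ 24 - 1 / 10 ^ 23 : ℚ) : ℝ) *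
    (2 * (SQ 30 : ℝ) + 122 * |(QQ 30 : ℝ)| / (79 / 2)) ≤
    (CC 20 : ℝ) * (2 * (SP 30 : ℝ) - 1 - 120 * |(PP 30 : ℝ)| / (79 / 2)) := by
    have := numLo
    have h : (((456946581044463625374966 / 10 ^ 24 - 1 / 10 ^ 23 : ℚ) *
      (2 * SQ 30 + 122 * |QQ 30| / (79 / 2)) : ℚ) : ℝ) ≤
      ((CC 20 * (2 * SP 30 - 1 - 120 * |PP 30| / (79 / 2)) : ℚ) : ℝ) := by
      exact_mod_cast this
    push_cast at h ⊢
    exact h
  have hhi : (CC 20 : ℝ) * (2 * (SP 30 : ℝ) - 1 + 120 * |(PP 30 : ℝ)| / (79 / 2)) ≤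
    ((456946581044463625374966 / 10 ^ 24 + 1 / 10 ^ 23 : ℚ) : ℝ) *
    (2 * (SQ 30 : ℝ) - 122 * |(QQ 30 : ℝ)| / (79 / 2)) := by
    have := numHi
    have h : ((CC 20 * (2 * SP 30 - 1 + 120 * |PP 30| / (79 / 2)) : ℚ) : ℝ) ≤
      (((456946581044463625374966 / 10 ^ 24 + 1 / 10 ^ 23 : ℚ) *
      (2 * SQ 30 - 122 * |QQ 30| / (79 / 2)) : ℚ) : ℝ) := by
      exact_mod_cast this
    push_cast at h ⊢
    exact h
  have hp1 : (0 : ℝ) < 2 * (SQ 30 : ℝ) - 122 * |(QQ 30 : ℝ)| / (79 / 2) := by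
    have := numPos.1
    have h : ((0 : ℚ) : ℝ) < ((2 * SQ 30 - 122 * |QQ 30| / (79 / 2) : ℚ) : ℝ) := by
      exact_mod_cast this
    push_cast at h ⊢
    exact h
  have hp2 : (0 : ℝ) < (CC 20 : ℝ) := by exact_mod_cast numPos.2
  set W := II (79 / 2) 0 with hWdef
  set W' := II (79 / 2 + 1) 0 with hW'def
  set r := rr (79 / 2) with hr
  have hrW : W' = r * W := by
    rw [hr, rr, ← hWdef, ← hW'def]
    field_simp
  have hrpos : 0 < r := by
    rw [hr, rr, ← hWdef, ← hW'def]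
    positivity
  set A : ℝ := 2 * (SP 30 : ℝ) - 1
  set B : ℝ := 2 * (SQ 30 : ℝ)
  set P : ℝ := |(PP 30 : ℝ)|
  set Q : ℝ := |(QQ 30 : ℝ)|
  rw [hrW, abs_le] at hm
  obtain ⟨m1, m2⟩ := hm
  have k1 : r * (B - 122 * Q / (79 / 2)) ≤ A + 120 * P / (79 / 2) := by
    by_contra hcon
    push Not at hcon
    have := mul_lt_mul_of_pos_left hcon hW
    nlinarith
  have k2 : A - 120 * P / (79 / 2) ≤ r * (B + 122 * Q / (79 / 2)) := by
    by_contra hcon
    push Not at hcon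
    have := mul_lt_mul_of_pos_left hcon hW
    nlinarith
  have hQ : 0 ≤ Q := abs_nonneg _
  have hp3 : (0 : ℝ) < B + 122 * Q / (79 / 2) := by
    have : 0 ≤ 122 * Q / (79 / 2) := by positivity
    linarith
  rw [Stmt_RHO, hFF, hc, abs_le]
  push_cast at hlo hhi
  constructor
  · have : (456946581044463625374966 / 10 ^ 24 - 1 / 10 ^ 23 : ℝ) *
        (B + 122 * Q / (79 / 2)) ≤ ((CC 20 : ℝ) * r) * (B + 122 * Q / (79 / 2)) := by
      refine hlo.trans ?_
      rw [mul_assoc]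
      exact mul_le_mul_of_nonneg_left k2 hp2.le
    have := le_of_mul_le_mul_right this hp3
    linarith
  · have : ((CC 20 : ℝ) * r) * (B - 122 * Q / (79 / 2)) ≤
        (456946581044463625374966 / 10 ^ 24 + 1 / 10 ^ 23 : ℝ) *
        (B - 122 * Q / (79 / 2)) := by
      refine le_trans ?_ hhi
      rw [mul_assoc]
      exact mul_le_mul_of_nonneg_left k1 hp2.le
    have := le_of_mul_le_mul_right this hp1
    linarith

end Pool.Agent.AC2
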