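import Pool.Agent.AC2.Coef
import Pool.Agent.AC2.Inst

/-!
# Signs of the coefficients; the two sequences
-/

open MeasureTheory Set Real

namespace Pool.Agent.AC2

/-- absolute values -/
noncomputable def XX (j k : ℕ) : ℝ := |FF j k|

/-- coefficients of the dual function -/
noncomputable def gg : ℕ → ℝ
  | 0 => -3658834 / 10000000
  | 1 => 718960 / 10000000
  | 2 => -310397 / 10000000
  | 3 => 129728 / 10000000
  | 4 => -29733 / 10000000
  | _ => 0

/-- coefficients of the density -/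
noncomputable def BB : ℕ → ℝ
  | 0 => 9286143 / 10000000
  | 1 => 1832840 / 10000000
  | 2 => -496850 / 10000000
  | 3 => 192330 / 10000000
  | 4 => -45220 / 10000000
  | _ => 0

/-- the dual sequence without the constant term -/
noncomputable def Kq (k : ℕ) : ℝ := (-1 : ℝ) ^ k * ∑ j ∈ Finset.range 5, gg j * FF (j + 1) k

/-- the primal sequence -/
noncomputable def Uq (k : ℕ) : ℝ := ∑ j ∈ Finset.range 5, BB j * FF j k

theorem Kq_eq (k : ℕ) : Kq k = (-1 : ℝ) ^ k * (-3658834 / 10000000 * FF 1 k +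
    718960 / 10000000 * FF 2 k + -310397 / 10000000 * FF 3 k + 129728 / 10000000 * FF 4 k +
    -29733 / 10000000 * FF 5 k) := by
  unfold Kq
  simp only [Finset.sum_range_succ, Finset.sum_range_zero, gg, zero_add]

theorem Uq_eq (k : ℕ) : Uq k = 9286143 / 10000000 * FF 0 k + 1832840 / 10000000 * FF 1 k +
    -496850 / 10000000 * FF 2 k + 192330 / 10000000 * FF 3 k + -45220 / 10000000 * FF 4 k := by
  unfold Uq
  simp only [Finset.sum_range_succ, Finset.sum_range_zero, BB, zero_add]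

section
variable (h : Stmt_REC)
include h

theorem ff_step (j k : ℕ) (hj : j ≤ 5) (hk : 5 ≤ k) : FF j (k + 2) =
    -(FF j k * (((2 * k + 1 - 2 * j : ℕ) : ℝ) / ((2 * k + 3 + 2 * j : ℕ) : ℝ))) := by
  have h1 := ff_rec h j k
  rw [Nat.cast_sub (by omega)]
  push_cast
  have hp : (0 : ℝ) < 2 * k + 3 + 2 * j := by positivity
  rw [mul_div_assoc', eq_neg_iff_add_eq_zero, ← mul_left_inj' hp.ne', add_mul,
    div_mul_cancel₀ _ hp.ne']
  linear_combination h1

theorem isX : IsX XX := by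
  refine ⟨fun j k => abs_nonneg _, ?_⟩
  intro j k hj hk
  unfold XX
  rw [ff_step h j k hj hk, abs_neg, abs_mul, abs_of_nonneg (by positivity : (0 : ℝ) ≤
    (((2 * k + 1 - 2 * j : ℕ) : ℝ) / ((2 * k + 3 + 2 * j : ℕ) : ℝ)))]

theorem sign_step {j k : ℕ} (hj : j ≤ 5) (hk : 5 ≤ k) {τ : ℝ} (hτ : FF j k = τ * XX j k) :
    FF j (k + 2) = (-τ) * XX j (k + 2) := by
  rw [(isX h).2 j k hj hk, ff_step h j k hj hk, hτ]
  ring

variable (hρ : 0 < FF 0 1)
include hρ

theorem sign_odd (i : ℕ) : ∃ τ : ℝ, |τ| = 1 ∧ FF 0 (5 + 2 * i) = τ * XX 0 (5 + 2 * i) ∧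
    FF 1 (5 + 2 * i) = τ * XX 1 (5 + 2 * i) ∧ FF 2 (5 + 2 * i) = (-τ) * XX 2 (5 + 2 * i) ∧
    FF 3 (5 + 2 * i) = (-τ) * XX 3 (5 + 2 * i) ∧ FF 4 (5 + 2 * i) = τ * XX 4 (5 + 2 * i) ∧
    FF 5 (5 + 2 * i) = τ * XX 5 (5 + 2 * i) := by
  induction i with
  | zero =>
    refine ⟨1, by norm_num, ?_, ?_, ?_, ?_, ?_, ?_⟩
    · simp only [XX, mul_zero, add_zero]
      rw [v05 h, abs_of_pos (by positivity)]; ring
    · simp only [XX, mul_zero, add_zero]
      rw [v15 h, abs_of_pos (by positivity)]; ring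
    · simp only [XX, mul_zero, add_zero]
      rw [v25 h, abs_of_neg (by nlinarith)]; ring
    · simp only [XX, mul_zero, add_zero]
      rw [v35 h, abs_of_neg (by norm_num)]; ring
    · simp only [XX, mul_zero, add_zero]
      rw [v45 h, abs_of_pos (by positivity)]; ring
    · simp only [XX, mul_zero, add_zero]
      rw [v55 h, abs_of_pos (by positivity)]; ring
  | succ i ih =>
    obtain ⟨τ, h0, h1, h2, h3, h4, h5, h6⟩ := ih
    have e : 5 + 2 * (i + 1) = 5 + 2 * i + 2 := by ring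
    rw [e]
    refine ⟨-τ, by rw [abs_neg, h0], sign_step h (by omega) (by omega) h1,
      sign_step h (by omega) (by omega) h2, sign_step h (by omega) (by omega) h3,
      sign_step h (by omega) (by omega) h4, sign_step h (by omega) (by omega) h5,
      sign_step h (by omega) (by omega) h6⟩

theorem sign_evn (i : ℕ) : ∃ τ : ℝ, |τ| = 1 ∧ FF 0 (6 + 2 * i) = (-τ) * XX 0 (6 + 2 * i) ∧
    FF 1 (6 + 2 * i) = τ * XX 1 (6 + 2 * i) ∧ FF 2 (6 + 2 * i) = τ * XX 2 (6 + 2 * i) ∧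
    FF 3 (6 + 2 * i) = (-τ) * XX 3 (6 + 2 * i) ∧ FF 4 (6 + 2 * i) = (-τ) * XX 4 (6 + 2 * i) ∧
    FF 5 (6 + 2 * i) = τ * XX 5 (6 + 2 * i) := by
  induction i with
  | zero =>
    refine ⟨1, by norm_num, ?_, ?_, ?_, ?_, ?_, ?_⟩
    · simp only [XX, mul_zero, add_zero]
      rw [v06 h, abs_of_neg (by norm_num)]; ring
    · simp only [XX, mul_zero, add_zero]
      rw [v16 h, abs_of_pos (by positivity)]; ring
    · simp only [XX, mul_zero, add_zero]
      rw [v26 h, abs_of_pos (by positivity)]; ring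
    · simp only [XX, mul_zero, add_zero]
      rw [v36 h, abs_of_neg (by nlinarith)]; ring
    · simp only [XX, mul_zero, add_zero]
      rw [v46 h, abs_of_neg (by norm_num)]; ring
    · simp only [XX, mul_zero, add_zero]
      rw [v56 h, abs_of_pos (by positivity)]; ring
  | succ i ih =>
    obtain ⟨τ, h0, h1, h2, h3, h4, h5, h6⟩ := ih
    have e : 6 + 2 * (i + 1) = 6 + 2 * i + 2 := by ring
    rw [e]
    refine ⟨-τ, by rw [abs_neg, h0], sign_step h (by omega) (by omega) h1,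
      sign_step h (by omega) (by omega) h2, sign_step h (by omega) (by omega) h3,
      sign_step h (by omega) (by omega) h4, sign_step h (by omega) (by omega) h5,
      sign_step h (by omega) (by omega) h6⟩

omit h hρ in
theorem abs_sgn {τ y z : ℝ} (hτ : |τ| = 1) (h : y = τ * z) : |y| = |z| := by
  rw [h, abs_mul, hτ, one_mul]

theorem absK_odd (i : ℕ) : |Kq (5 + 2 * i)| = |KO XX (5 + 2 * i)| := by
  obtain ⟨τ, h0, h1, h2, h3, h4, h5, h6⟩ := sign_odd h hρ i
  refine abs_sgn h0 ?_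
  have e : (-1 : ℝ) ^ (5 + 2 * i) = -1 := by
    rw [pow_add, pow_mul]
    norm_num
  rw [Kq_eq, e, h2, h3, h4, h5, h6, KO]
  ring

theorem absK_evn (i : ℕ) : |Kq (6 + 2 * i)| = |KE XX (6 + 2 * i)| := by
  obtain ⟨τ, h0, h1, h2, h3, h4, h5, h6⟩ := sign_evn h hρ i
  refine abs_sgn (τ := -τ) (by rw [abs_neg, h0]) ?_
  have e : (-1 : ℝ) ^ (6 + 2 * i) = 1 := by
    rw [pow_add, pow_mul]
    norm_num
  rw [Kq_eq, e, h2, h3, h4, h5, h6, KE]
  ring

theorem absU_odd (i : ℕ) : |Uq (5 + 2 * i)| = |UO XX (5 + 2 * i)| := by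
  obtain ⟨τ, h0, h1, h2, h3, h4, h5, h6⟩ := sign_odd h hρ i
  refine abs_sgn h0 ?_
  rw [Uq_eq, h1, h2, h3, h4, h5, UO]
  ring

theorem absU_evn (i : ℕ) : |Uq (6 + 2 * i)| = |UE XX (6 + 2 * i)| := by
  obtain ⟨τ, h0, h1, h2, h3, h4, h5, h6⟩ := sign_evn h hρ i
  refine abs_sgn (τ := -τ) (by rw [abs_neg, h0]) ?_
  rw [Uq_eq, h1, h2, h3, h4, h5, UE]
  ring

end

end Pool.Agent.AC2
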