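import Pool.Agent.AC2.Sums

/-!
# The first seven terms
-/

open MeasureTheory Set Real

namespace Pool.Agent.AC2

/-- the dual value -/
noncomputable def lam : ℝ := 11492792143 / 10000000000

section
variable (h : Stmt_REC) (hρ : Stmt_RHO)
include h hρ

theorem Kb0 : |lam + Kq 0| ≤ 5000000091565607 / 5000000000000000 := by
  obtain ⟨r1, r2⟩ := rho_bd hρ
  rw [Kq_eq, v10 h, v20 h, v30 h, v40 h, v50 h, abs_le, lam]
  constructor <;> norm_num <;> norm_num at r1 r2 <;> linarith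

theorem Kb1 : |Kq 1| ≤ 107452831130087707 / 1000000000000000000 := by
  obtain ⟨r1, r2⟩ := rho_bd hρ
  rw [Kq_eq, v11 h, v21 h, v31 h, v41 h, v51 h, abs_le]
  constructor <;> norm_num <;> norm_num at r1 r2 <;> linarith

theorem Kb2 : |Kq 2| ≤ 26368174096369359 / 1000000000000000000 := by
  obtain ⟨r1, r2⟩ := rho_bd hρ
  rw [Kq_eq, v12 h, v22 h, v32 h, v42 h, v52 h, abs_le]
  constructor <;> norm_num <;> norm_num at r1 r2 <;> linarith

theorem Kb3 : |Kq 3| ≤ 18391307391067563 / 1000000000000000000 := by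
  obtain ⟨r1, r2⟩ := rho_bd hρ
  rw [Kq_eq, v13 h, v23 h, v33 h, v43 h, v53 h, abs_le]
  constructor <;> norm_num <;> norm_num at r1 r2 <;> linarith

theorem Kb4 : |Kq 4| ≤ 2528141219733561 / 250000000000000000 := by
  obtain ⟨r1, r2⟩ := rho_bd hρ
  rw [Kq_eq, v14 h, v24 h, v34 h, v44 h, v54 h, abs_le]
  constructor <;> norm_num <;> norm_num at r1 r2 <;> linarith

theorem Kb5 : |Kq 5| ≤ 103383752875917 / 12500000000000000 := by
  obtain ⟨r1, r2⟩ := rho_bd hρ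
  rw [Kq_eq, v15 h, v25 h, v35 h, v45 h, v55 h, abs_le]
  constructor <;> norm_num <;> norm_num at r1 r2 <;> linarith

theorem Kb6 : |Kq 6| ≤ 2826541833254313 / 500000000000000000 := by
  obtain ⟨r1, r2⟩ := rho_bd hρ
  rw [Kq_eq, v16 h, v26 h, v36 h, v46 h, v56 h, abs_le]
  constructor <;> norm_num <;> norm_num at r1 r2 <;> linarith

theorem Ub0 : 500000017991378519 / 500000000000000000 ≤ Uq 0 := by
  obtain ⟨r1, r2⟩ := rho_bd hρ
  rw [Uq_eq, ff_00 h, v10 h, v20 h, v30 h, v40 h]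
  norm_num
  norm_num at r1 r2
  linarith

theorem Ub1 : |Uq 1| ≤ 237707384104504153 / 500000000000000000 := by
  obtain ⟨r1, r2⟩ := rho_bd hρ
  rw [Uq_eq, v11 h, v21 h, v31 h, v41 h, abs_le]
  constructor <;> norm_num <;> norm_num at r1 r2 <;> linarith

theorem Ub2 : |Uq 2| ≤ 297641424694901909 / 1000000000000000000 := by
  obtain ⟨r1, r2⟩ := rho_bd hρ
  rw [Uq_eq, v02 h, v12 h, v22 h, v32 h, v42 h, abs_le]
  constructor <;> norm_num <;> norm_num at r1 r2 <;> linarith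

theorem Ub3 : |Uq 3| ≤ 263959627099960503 / 1000000000000000000 := by
  obtain ⟨r1, r2⟩ := rho_bd hρ
  rw [Uq_eq, v03 h, v13 h, v23 h, v33 h, v43 h, abs_le]
  constructor <;> norm_num <;> norm_num at r1 r2 <;> linarith

theorem Ub4 : |Uq 4| ≤ 8649952697904973 / 40000000000000000 := by
  obtain ⟨r1, r2⟩ := rho_bd hρ
  rw [Uq_eq, v04 h, v14 h, v24 h, v34 h, v44 h, abs_le]
  constructor <;> norm_num <;> norm_num at r1 r2 <;> linarith

theorem Ub5 : |Uq 5| ≤ 202230720170628273 / 1000000000000000000 := by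
  obtain ⟨r1, r2⟩ := rho_bd hρ
  rw [Uq_eq, v05 h, v15 h, v25 h, v35 h, v45 h, abs_le]
  constructor <;> norm_num <;> norm_num at r1 r2 <;> linarith

theorem Ub6 : |Uq 6| ≤ 7125603391028061 / 40000000000000000 := by
  obtain ⟨r1, r2⟩ := rho_bd hρ
  rw [Uq_eq, v06 h, v16 h, v26 h, v36 h, v46 h, abs_le]
  constructor <;> norm_num <;> norm_num at r1 r2 <;> linarith

end

theorem T_le {K e c : ℝ} (he : 0 < e) (h : |K| ≤ c) :
    2 * |K| * e + K ^ 2 / e ^ 2 ≤ 2 * c * e + c ^ 2 / e ^ 2 := by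
  have h1 : K ^ 2 ≤ c ^ 2 := by
    rw [← sq_abs K]
    exact pow_le_pow_left₀ (abs_nonneg _) h 2
  gcongr

theorem P_le {u c : ℝ} (h : |u| ≤ c) : u ^ 4 ≤ c ^ 4 := by
  have e : u ^ 4 = |u| ^ 4 := (Even.pow_abs (by decide) u).symm
  rw [e]
  exact pow_le_pow_left₀ (abs_nonneg _) h 4

/-- the weights for the dual certificate -/
noncomputable def ee (k : ℕ) : ℝ :=
  if k = 0 then 1 else if k = 1 then 1485671 / 3125000 else if k = 2 then 29764141 / 100000000 else if k = 3 then 6598991 / 25000000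
  else if k = 4 then 21624883 / 100000000 else if k = 5 then 10111543 / 50000000 else if k = 6 then 3562803 / 20000000
  else if Kq k = 0 then 1 else |Kq k| ^ (1 / 3 : ℝ)

theorem ee_pos (k : ℕ) : 0 < ee k := by
  unfold ee
  split_ifs with h0 h1 h2 h3 h4 h5 h6 h7 <;> try norm_num
  exact Real.rpow_pos_of_pos (abs_pos.2 h7) _

section
variable (h : Stmt_REC) (hρ : Stmt_RHO)
include h hρ

/-- the head of the dual sum -/
theorem head_dual : (2 * |lam + Kq 0| * ee 0 + (lam + Kq 0) ^ 2 / ee 0 ^ 2) / 2 +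
    ((2 * |Kq 1| * ee 1 + (Kq 1) ^ 2 / ee 1 ^ 2) +
    (2 * |Kq 2| * ee 2 + (Kq 2) ^ 2 / ee 2 ^ 2) +
    (2 * |Kq 3| * ee 3 + (Kq 3) ^ 2 / ee 3 ^ 2) +
    (2 * |Kq 4| * ee 4 + (Kq 4) ^ 2 / ee 4 ^ 2) +
    (2 * |Kq 5| * ee 5 + (Kq 5) ^ 2 / ee 5 ^ 2) +
    (2 * |Kq 6| * ee 6 + (Kq 6) ^ 2 / ee 6 ^ 2)) +
    9925225775513495444163 / 10 ^ 24 + 8031730101550983762256 / 10 ^ 24 ≤
    2 * lam - 57463960712 / 100000000000 := by
  have t0 := T_le (ee_pos 0) (Kb0 h hρ)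
  have e0 : ee 0 = 1 := by simp [ee]
  have t1 := T_le (ee_pos 1) (Kb1 h hρ)
  have e1 : ee 1 = 1485671 / 3125000 := by simp [ee]
  have t2 := T_le (ee_pos 2) (Kb2 h hρ)
  have e2 : ee 2 = 29764141 / 100000000 := by simp [ee]
  have t3 := T_le (ee_pos 3) (Kb3 h hρ)
  have e3 : ee 3 = 6598991 / 25000000 := by simp [ee]
  have t4 := T_le (ee_pos 4) (Kb4 h hρ)
  have e4 : ee 4 = 21624883 / 100000000 := by simp [ee]
  have t5 := T_le (ee_pos 5) (Kb5 h hρ)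
  have e5 : ee 5 = 10111543 / 50000000 := by simp [ee]
  have t6 := T_le (ee_pos 6) (Kb6 h hρ)
  have e6 : ee 6 = 3562803 / 20000000 := by simp [ee]
  rw [e0] at t0 ⊢
  rw [e1] at t1 ⊢
  rw [e2] at t2 ⊢
  rw [e3] at t3 ⊢
  rw [e4] at t4 ⊢
  rw [e5] at t5 ⊢
  rw [e6] at t6 ⊢
  have hl : lam = 11492792143 / 10000000000 := rfl
  linarith

/-- the head of the primal sum -/
theorem head_primal : Uq 1 ^ 4 + Uq 2 ^ 4 + Uq 3 ^ 4 + Uq 4 ^ 4 + Uq 5 ^ 4 + Uq 6 ^ 4 +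
    3308444095643542647004663854888332755587347434272398533657 / 10 ^ 60 +
    2677214721477400828740152196600127726862336257122050380691 / 10 ^ 60 ≤
    (57463960716 / 100000000000 - 1 / 2) * Uq 0 ^ 4 := by
  have t1 := P_le (Ub1 h hρ)
  have t2 := P_le (Ub2 h hρ)
  have t3 := P_le (Ub3 h hρ)
  have t4 := P_le (Ub4 h hρ)
  have t5 := P_le (Ub5 h hρ)
  have t6 := P_le (Ub6 h hρ)
  have t0 : (500000017991378519 / 500000000000000000 : ℝ) ^ 4 ≤ Uq 0 ^ 4 :=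
    pow_le_pow_left₀ (by norm_num) (Ub0 h hρ) 4
  norm_num at *
  linarith

end

end Pool.Agent.AC2
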