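import Mathlib
import Pool.Agent.AC2.Loop

/-!
# Soundness of the fixed point loops
-/

open Real

namespace Pool.Agent.AC2

theorem sq_eq {α : Sort _} (a : ℕ) (f : ℕ → α) : sq a f = f a := by
  cases a <;> rfl

/-- AM-GM -/
theorem amgm {y e : ℝ} (hy : 0 ≤ y) (he : 0 < e) :
    3 * y ^ (4 / 3 : ℝ) ≤ 2 * y * e + y ^ 2 / e ^ 2 := by
  set c := y ^ (1 / 3 : ℝ) with hc
  have hc0 : 0 ≤ c := Real.rpow_nonneg hy _
  have h1 : y = c ^ 3 := by
    rw [hc, ← Real.rpow_natCast, ← Real.rpow_mul hy]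
    norm_num
  have h2 : y ^ (4 / 3 : ℝ) = c ^ 4 := by
    rw [hc, ← Real.rpow_natCast, ← Real.rpow_mul hy]
    norm_num
  rw [h2, h1]
  have h3 : 0 ≤ c ^ 3 * ((c - e) ^ 2 * (c + 2 * e)) / e ^ 2 := by positivity
  have h4 : 2 * c ^ 3 * e + (c ^ 3) ^ 2 / e ^ 2 - 3 * c ^ 4 =
      c ^ 3 * ((c - e) ^ 2 * (c + 2 * e)) / e ^ 2 := by
    field_simp
    ring
  linarith

theorem floor_div (a b : ℕ) (hb : 0 < b) : (a : ℝ) / b ≤ ((a / b : ℕ) : ℝ) + 1 := by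
  rw [div_le_iff₀ (by exact_mod_cast hb)]
  have h1 := Nat.div_add_mod a b
  have h2 := Nat.mod_lt a hb
  have h3 : a ≤ (a / b + 1) * b := by nlinarith
  exact_mod_cast h3

theorem div_floor (a b : ℕ) : ((a / b : ℕ) : ℝ) ≤ (a : ℝ) / b := Nat.cast_div_le

/-- one step of the recurrence -/
theorem step_err {x E : ℝ} {a p q : ℕ} (hq : 0 < q) (hpq : p ≤ q)
    (h : |x * 10 ^ 24 - a| ≤ E) :
    |x * ((p : ℝ) / q) * 10 ^ 24 - ((a * p / q : ℕ) : ℝ)| ≤ E + 1 := by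
  have hq' : (0 : ℝ) < q := by exact_mod_cast hq
  have hr0 : 0 ≤ (p : ℝ) / q := by positivity
  have hr1 : (p : ℝ) / q ≤ 1 := by
    rw [div_le_one hq']
    exact_mod_cast hpq
  have h1 := floor_div (a * p) q hq
  have h2 := div_floor (a * p) q
  push_cast at h1 h2
  have h3 : (a : ℝ) * p / q = a * ((p : ℝ) / q) := by ring
  rw [h3] at h1 h2
  have hE : 0 ≤ E := (abs_nonneg _).trans h
  obtain ⟨h4, h5⟩ := abs_le.mp h
  rw [abs_le]
  constructor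
  · nlinarith
  · nlinarith

theorem natabs (P Q : ℕ) : (((P - Q) + (Q - P) : ℕ) : ℝ) = |(P : ℝ) - Q| := by
  rcases le_total P Q with h | h
  · rw [Nat.sub_eq_zero_of_le h, zero_add, Nat.cast_sub h, abs_sub_comm,
      abs_of_nonneg (by have : (P : ℝ) ≤ Q := by exact_mod_cast h
                        linarith)]
  · rw [Nat.sub_eq_zero_of_le h, add_zero, Nat.cast_sub h,
      abs_of_nonneg (by have : (Q : ℝ) ≤ P := by exact_mod_cast h
                        linarith)]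

theorem natmax (P Q : ℕ) : ((P + (Q - P) : ℕ) : ℝ) = max (P : ℝ) Q := by
  rcases le_total P Q with h | h
  · rw [Nat.add_sub_cancel' h, max_eq_right (by exact_mod_cast h)]
  · rw [Nat.sub_eq_zero_of_le h, add_zero, max_eq_left (by exact_mod_cast h)]

/-- the recurrence of the absolute values of the coefficients -/
def IsX (X : ℕ → ℕ → ℝ) : Prop :=
  (∀ j k, 0 ≤ X j k) ∧ ∀ j k, j ≤ 5 → 5 ≤ k →
    X j (k + 2) = X j k * (((2 * k + 1 - 2 * j : ℕ) : ℝ) / ((2 * k + 3 + 2 * j : ℕ) : ℝ))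

theorem ratio_le {j k : ℕ} (hj : j ≤ 5) (hk : 5 ≤ k) (h1 : 1 ≤ j) :
    (((2 * k + 1 - 2 * j : ℕ) : ℝ) / ((2 * k + 3 + 2 * j : ℕ) : ℝ)) ≤
      ((4 * k + 1 : ℝ) / (4 * k + 9)) ^ (3 / 2 : ℝ) := by
  have hk' : (5 : ℝ) ≤ k := by exact_mod_cast hk
  have e1 : (((2 * k + 1 - 2 * j : ℕ) : ℝ) / ((2 * k + 3 + 2 * j : ℕ) : ℝ)) ≤
      (2 * k - 1 : ℝ) / (2 * k + 5) := by
    rw [Nat.cast_sub (by omega)]
    push_cast
    have hj1 : (1 : ℝ) ≤ j := by exact_mod_cast h1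
    rw [div_le_div_iff₀ (by positivity) (by positivity)]
    nlinarith
  refine e1.trans ?_
  have hr : (0 : ℝ) ≤ (4 * k + 1 : ℝ) / (4 * k + 9) := by positivity
  refine le_of_sq_le_sq ?_ (Real.rpow_nonneg hr _)
  have e2 : (((4 * k + 1 : ℝ) / (4 * k + 9)) ^ (3 / 2 : ℝ)) ^ 2 =
      ((4 * k + 1 : ℝ) / (4 * k + 9)) ^ 3 := by
    rw [← Real.rpow_natCast, ← Real.rpow_mul hr, ← Real.rpow_natCast]
    norm_num
  rw [e2, div_pow, div_pow, div_le_div_iff₀ (by positivity) (by positivity)]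
  nlinarith [pow_pos (show (0 : ℝ) < k by linarith) 2, pow_pos (show (0 : ℝ) < k by linarith) 3]
where
  le_of_sq_le_sq {a b : ℝ} (h : a ^ 2 ≤ b ^ 2) (hb : 0 ≤ b) : a ≤ b := by
    by_contra hc
    nlinarith [not_le.mp hc]

theorem ratio_le0 {j k : ℕ} (hj : j ≤ 5) (hk : 5 ≤ k) :
    (((2 * k + 1 - 2 * j : ℕ) : ℝ) / ((2 * k + 3 + 2 * j : ℕ) : ℝ)) ≤
      ((4 * k + 1 : ℝ) / (4 * k + 9)) ^ (1 / 2 : ℝ) := by
  have hk' : (5 : ℝ) ≤ k := by exact_mod_cast hk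
  have e1 : (((2 * k + 1 - 2 * j : ℕ) : ℝ) / ((2 * k + 3 + 2 * j : ℕ) : ℝ)) ≤
      (2 * k + 1 : ℝ) / (2 * k + 3) := by
    rw [Nat.cast_sub (by omega)]
    push_cast
    have hj1 : (0 : ℝ) ≤ j := by positivity
    rw [div_le_div_iff₀ (by positivity) (by positivity)]
    nlinarith
  refine e1.trans ?_
  have hr : (0 : ℝ) ≤ (4 * k + 1 : ℝ) / (4 * k + 9) := by positivity
  refine ratio_le.le_of_sq_le_sq ?_ (Real.rpow_nonneg hr _)
  have e2 : (((4 * k + 1 : ℝ) / (4 * k + 9)) ^ (1 / 2 : ℝ)) ^ 2 =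
      ((4 * k + 1 : ℝ) / (4 * k + 9)) := by
    rw [← Real.rpow_natCast, ← Real.rpow_mul hr]
    norm_num
  rw [e2, div_pow, div_le_div_iff₀ (by positivity) (by positivity)]
  nlinarith [pow_pos (show (0 : ℝ) < k by linarith) 2]

/-- decay -/
theorem decay {X : ℕ → ℕ → ℝ} (hX : IsX X) {j : ℕ} (hj : j ≤ 5) {p : ℝ}
    (hr : ∀ k, 5 ≤ k → (((2 * k + 1 - 2 * j : ℕ) : ℝ) / ((2 * k + 3 + 2 * j : ℕ) : ℝ)) ≤
      ((4 * k + 1 : ℝ) / (4 * k + 9)) ^ p) {k : ℕ} (hk : 5 ≤ k) (i : ℕ) :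
    X j (k + 2 * i) ≤ X j k * ((4 * k + 1 : ℝ) / (4 * k + 1 + 8 * i)) ^ p := by
  induction i with
  | zero =>
    have : (4 * k + 1 : ℝ) / (4 * k + 1 + 8 * ((0 : ℕ) : ℝ)) = 1 := by
      rw [Nat.cast_zero, mul_zero, add_zero, div_self (by positivity)]
    rw [this, Real.one_rpow, mul_one]
    exact le_of_eq rfl
  | succ i ih =>
    have e1 : k + 2 * (i + 1) = (k + 2 * i) + 2 := by ring
    rw [e1, hX.2 j (k + 2 * i) hj (by omega)]
    have h1 := hr (k + 2 * i) (by omega)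
    have h2 : 0 ≤ (((2 * (k + 2 * i) + 1 - 2 * j : ℕ) : ℝ) /
        ((2 * (k + 2 * i) + 3 + 2 * j : ℕ) : ℝ)) := by positivity
    refine (mul_le_mul ih h1 h2 (mul_nonneg (hX.1 _ _) (Real.rpow_nonneg (by positivity) _))).trans
      (le_of_eq ?_)
    rw [mul_assoc, ← Real.mul_rpow (by positivity) (by positivity)]
    congr 2
    push_cast
    field_simp
    ring

/-- the telescoping sum -/
theorem tail_sum (k m : ℕ) :
    ∑ i ∈ Finset.range m, ((4 * k + 1 : ℝ) / (4 * k + 1 + 8 * ((i + 1 : ℕ) : ℝ))) ^ 2 ≤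
      (4 * (k : ℝ) + 1) ^ 2 / (8 * (4 * (k : ℝ) + 5)) := by
  have key : ∀ m : ℕ, ∑ i ∈ Finset.range m,
      ((4 * k + 1 : ℝ) / (4 * k + 1 + 8 * ((i + 1 : ℕ) : ℝ))) ^ 2 ≤
      (4 * (k : ℝ) + 1) ^ 2 / 8 * (1 / (4 * (k : ℝ) + 5) - 1 / (4 * (k : ℝ) + 5 + 8 * (m : ℝ))) := by
    intro m
    induction m with
    | zero => simp
    | succ m ih =>
      rw [Finset.sum_range_succ]
      have h1 : ((4 * k + 1 : ℝ) / (4 * k + 1 + 8 * ((m + 1 : ℕ) : ℝ))) ^ 2 ≤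
          (4 * k + 1) ^ 2 / 8 * (1 / (4 * k + 5 + 8 * m) - 1 / (4 * k + 5 + 8 * (m + 1 : ℕ))) := by
        have e1 : (1 : ℝ) / (4 * k + 5 + 8 * m) - 1 / (4 * k + 5 + 8 * (m + 1 : ℕ)) =
            8 / ((4 * k + 5 + 8 * m) * (4 * k + 5 + 8 * (m + 1 : ℕ))) := by
          push_cast
          field_simp
          ring
        rw [e1, div_pow]
        have e2 : (4 * k + 1 : ℝ) ^ 2 / 8 *
            (8 / ((4 * k + 5 + 8 * m) * (4 * k + 5 + 8 * (m + 1 : ℕ)))) =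
            (4 * k + 1) ^ 2 / ((4 * k + 5 + 8 * m) * (4 * k + 5 + 8 * (m + 1 : ℕ))) := by
          field_simp
        rw [e2]
        refine div_le_div_of_nonneg_left (by positivity) (by positivity) ?_
        push_cast
        nlinarith
      linarith
  refine (key m).trans ?_
  have h1 : (0 : ℝ) ≤ 1 / (4 * k + 5 + 8 * m) := by positivity
  have e1 : (4 * k + 1 : ℝ) ^ 2 / (8 * (4 * k + 5)) = (4 * k + 1) ^ 2 / 8 * (1 / (4 * k + 5)) := by
    field_simp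
  rw [e1]
  exact mul_le_mul_of_nonneg_left (by linarith) (by positivity)

/-- the integer bound for one term -/
theorem term_le {Kk : ℝ} {y w : ℕ} (hw : 1 ≤ w) (h : |Kk| * 10 ^ 24 ≤ y) :
    3 * |Kk| ^ (4 / 3 : ℝ) * 10 ^ 24 ≤
      ((2 * y * w / 1000000000000 + y * y / (w * w) + 2 : ℕ) : ℝ) := by
  have hw' : (0 : ℝ) < w := by exact_mod_cast hw
  have he : (0 : ℝ) < (w : ℝ) / 10 ^ 12 := by positivity
  have h0 := abs_nonneg Kk
  have h1 : |Kk| ≤ (y : ℝ) / 10 ^ 24 := by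
    rw [le_div_iff₀ (by positivity)]
    exact h
  have h2 : 3 * |Kk| ^ (4 / 3 : ℝ) ≤ 3 * ((y : ℝ) / 10 ^ 24) ^ (4 / 3 : ℝ) :=
    mul_le_mul_of_nonneg_left (Real.rpow_le_rpow h0 h1 (by norm_num)) (by norm_num)
  have h3 := amgm (y := (y : ℝ) / 10 ^ 24) (by positivity) he
  have h4 := floor_div (2 * y * w) 1000000000000 (by norm_num)
  have h5 := floor_div (y * y) (w * w) (by positivity)
  push_cast at h4 h5 ⊢
  have h6 : (2 * ((y : ℝ) / 10 ^ 24) * ((w : ℝ) / 10 ^ 12) +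
      ((y : ℝ) / 10 ^ 24) ^ 2 / ((w : ℝ) / 10 ^ 12) ^ 2) * 10 ^ 24 =
      2 * y * w / 1000000000000 + y * y / (w * w) := by
    field_simp
    ring
  have h7 : 3 * |Kk| ^ (4 / 3 : ℝ) * 10 ^ 24 ≤
      (2 * ((y : ℝ) / 10 ^ 24) * ((w : ℝ) / 10 ^ 12) +
      ((y : ℝ) / 10 ^ 24) ^ 2 / ((w : ℝ) / 10 ^ 12) ^ 2) * 10 ^ 24 :=
    mul_le_mul_of_nonneg_right (h2.trans h3) (by positivity)
  rw [h6] at h7
  linarith

/-- approximation of the five values at `k` -/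
def App (X : ℕ → ℕ → ℝ) (k a1 a2 a3 a4 a5 : ℕ) (E : ℝ) : Prop :=
  |X 1 k * 10 ^ 24 - a1| ≤ E ∧ |X 2 k * 10 ^ 24 - a2| ≤ E ∧ |X 3 k * 10 ^ 24 - a3| ≤ E ∧
    |X 4 k * 10 ^ 24 - a4| ≤ E ∧ |X 5 k * 10 ^ 24 - a5| ≤ E

theorem App.step {X : ℕ → ℕ → ℝ} (hX : IsX X) {k a1 a2 a3 a4 a5 : ℕ} {E : ℝ} (hk : 5 ≤ k)
    (h : App X k a1 a2 a3 a4 a5 E) :
    App X (k + 2) (a1 * (2 * k - 1) / (2 * k + 5)) (a2 * (2 * k - 3) / (2 * k + 7))
      (a3 * (2 * k - 5) / (2 * k + 9)) (a4 * (2 * k - 7) / (2 * k + 11))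
      (a5 * (2 * k - 9) / (2 * k + 13)) (E + 1) := by
  obtain ⟨h1, h2, h3, h4, h5⟩ := h
  refine ⟨?_, ?_, ?_, ?_, ?_⟩
  · rw [hX.2 1 k (by omega) hk, show 2 * k + 1 - 2 * 1 = 2 * k - 1 by omega,
      show 2 * k + 3 + 2 * 1 = 2 * k + 5 by omega]
    exact step_err (by omega) (by omega) h1
  · rw [hX.2 2 k (by omega) hk, show 2 * k + 1 - 2 * 2 = 2 * k - 3 by omega,
      show 2 * k + 3 + 2 * 2 = 2 * k + 7 by omega]
    exact step_err (by omega) (by omega) h2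
  · rw [hX.2 3 k (by omega) hk, show 2 * k + 1 - 2 * 3 = 2 * k - 5 by omega,
      show 2 * k + 3 + 2 * 3 = 2 * k + 9 by omega]
    exact step_err (by omega) (by omega) h3
  · rw [hX.2 4 k (by omega) hk, show 2 * k + 1 - 2 * 4 = 2 * k - 7 by omega,
      show 2 * k + 3 + 2 * 4 = 2 * k + 11 by omega]
    exact step_err (by omega) (by omega) h4
  · rw [hX.2 5 k (by omega) hk, show 2 * k + 1 - 2 * 5 = 2 * k - 9 by omega,
      show 2 * k + 3 + 2 * 5 = 2 * k + 13 by omega]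
    exact step_err (by omega) (by omega) h5

/-- SOUNDNESS of `loopD` -/
theorem loopD_sound {D M : ℕ → ℕ → ℕ → ℕ → ℕ → ℕ} {X : ℕ → ℕ → ℝ} {K : ℕ → ℝ} (hX : IsX X)
    (hD : ∀ k a1 a2 a3 a4 a5 E, App X k a1 a2 a3 a4 a5 E →
      |K k| * 10 ^ 24 ≤ (D a1 a2 a3 a4 a5 : ℝ) / 10000000 + E)
    (hM : ∀ k a1 a2 a3 a4 a5 E, 5 ≤ k → App X k a1 a2 a3 a4 a5 E → ∀ i : ℕ,
      |K (k + 2 * i)| * 10 ^ 24 ≤ ((M a1 a2 a3 a4 a5 : ℝ) / 10000000 + E) *
        ((4 * k + 1 : ℝ) / (4 * k + 1 + 8 * i)) ^ (3 / 2 : ℝ)) :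
    ∀ (n k a1 a2 a3 a4 a5 w s : ℕ) (E : ℝ), 5 ≤ k → 1 ≤ w → App X k a1 a2 a3 a4 a5 E →
      E + n ≤ 100000 → ∀ m : ℕ,
      (∑ i ∈ Finset.range m, (3 * |K (k + 2 * (i + 1))| ^ (4 / 3 : ℝ) * 10 ^ 24 : ℝ)) + (s : ℝ) ≤
        ((loopD D M n k a1 a2 a3 a4 a5 w s : ℕ) : ℝ) := by
  intro n
  induction n with
  | zero =>
    intro k a1 a2 a3 a4 a5 w s E hk hw hA hE m
    have hres : loopD D M 0 k a1 a2 a3 a4 a5 w s =
        s + ((2 * (M a1 a2 a3 a4 a5 / 10000000 + 1000000) * w / 1000000000000 +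
          (M a1 a2 a3 a4 a5 / 10000000 + 1000000) * (M a1 a2 a3 a4 a5 / 10000000 + 1000000) /
            (w * w) + 2) * ((4 * k + 1) * (4 * k + 1)) / (8 * (4 * k + 5)) + 1) := by
      have : loopD D M 0 k a1 a2 a3 a4 a5 w s = sq (M a1 a2 a3 a4 a5 / 10000000 + 1000000)
        fun y => s + ((2 * y * w / 1000000000000 + y * y / (w * w) + 2) *
          ((4 * k + 1) * (4 * k + 1)) / (8 * (4 * k + 5)) + 1) := rfl
      rw [this, sq_eq]
    rw [hres]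
    set y := M a1 a2 a3 a4 a5 / 10000000 + 1000000 with hy
    set g := 2 * y * w / 1000000000000 + y * y / (w * w) + 2 with hg
    have hE0 : 0 ≤ E := (abs_nonneg _).trans hA.1
    have hy1 : (M a1 a2 a3 a4 a5 : ℝ) / 10000000 + E ≤ y := by
      have := floor_div (M a1 a2 a3 a4 a5) 10000000 (by norm_num)
      rw [hy]
      push_cast at this ⊢
      rw [Nat.cast_zero, add_zero] at hE
      linarith
    have hterm : ∀ i : ℕ, 3 * |K (k + 2 * (i + 1))| ^ (4 / 3 : ℝ) * 10 ^ 24 ≤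
        g * ((4 * k + 1 : ℝ) / (4 * k + 1 + 8 * ((i + 1 : ℕ) : ℝ))) ^ 2 := by
      intro i
      set r : ℝ := (4 * k + 1 : ℝ) / (4 * k + 1 + 8 * ((i + 1 : ℕ) : ℝ)) with hr
      have hr0 : 0 ≤ r := by rw [hr]; positivity
      have h1 := hM k a1 a2 a3 a4 a5 E hk hA (i + 1)
      have h2 : |K (k + 2 * (i + 1))| ≤ (y : ℝ) / 10 ^ 24 * r ^ (3 / 2 : ℝ) := by
        have h3 : |K (k + 2 * (i + 1))| * 10 ^ 24 ≤ y * r ^ (3 / 2 : ℝ) :=
          h1.trans (mul_le_mul_of_nonneg_right hy1 (Real.rpow_nonneg hr0 _))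
        have h4 : (0 : ℝ) < 10 ^ 24 := by positivity
        calc |K (k + 2 * (i + 1))| = |K (k + 2 * (i + 1))| * 10 ^ 24 / 10 ^ 24 := by
              field_simp
          _ ≤ y * r ^ (3 / 2 : ℝ) / 10 ^ 24 := div_le_div_of_nonneg_right h3 h4.le
          _ = _ := by ring
      have h3 : |K (k + 2 * (i + 1))| ^ (4 / 3 : ℝ) ≤
          ((y : ℝ) / 10 ^ 24) ^ (4 / 3 : ℝ) * r ^ 2 := by
        refine (Real.rpow_le_rpow (abs_nonneg _) h2 (by norm_num)).trans (le_of_eq ?_)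
        rw [Real.mul_rpow (by positivity) (Real.rpow_nonneg hr0 _), ← Real.rpow_mul hr0]
        norm_num
      have h4 : 3 * ((y : ℝ) / 10 ^ 24) ^ (4 / 3 : ℝ) * 10 ^ 24 ≤ g := by
        have := term_le (Kk := (y : ℝ) / 10 ^ 24) (y := y) hw (by
          rw [abs_of_nonneg (by positivity)]
          exact le_of_eq (by field_simp))
        rw [abs_of_nonneg (by positivity)] at this
        exact this
      calc 3 * |K (k + 2 * (i + 1))| ^ (4 / 3 : ℝ) * 10 ^ 24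
          ≤ 3 * (((y : ℝ) / 10 ^ 24) ^ (4 / 3 : ℝ) * r ^ 2) * 10 ^ 24 :=
            mul_le_mul_of_nonneg_right (mul_le_mul_of_nonneg_left h3 (by norm_num))
              (by positivity)
        _ = 3 * ((y : ℝ) / 10 ^ 24) ^ (4 / 3 : ℝ) * 10 ^ 24 * r ^ 2 := by ring
        _ ≤ g * r ^ 2 := mul_le_mul_of_nonneg_right h4 (by positivity)
    have hsum : (∑ i ∈ Finset.range m,
        (3 * |K (k + 2 * (i + 1))| ^ (4 / 3 : ℝ) * 10 ^ 24 : ℝ)) ≤
        (g : ℝ) * ((4 * (k : ℝ) + 1) ^ 2 / (8 * (4 * (k : ℝ) + 5))) := by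
      refine (Finset.sum_le_sum fun i _ => hterm i).trans ?_
      rw [← Finset.mul_sum]
      exact mul_le_mul_of_nonneg_left (tail_sum k m) (by positivity)
    have hfl := floor_div (g * ((4 * k + 1) * (4 * k + 1))) (8 * (4 * k + 5)) (by positivity)
    push_cast at hfl ⊢
    have e1 : (g : ℝ) * ((4 * k + 1) ^ 2 / (8 * (4 * k + 5))) =
        g * ((4 * k + 1) * (4 * k + 1)) / (8 * (4 * k + 5)) := by ring
    rw [e1] at hsum
    linarith
  | succ n ih =>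
    intro k a1 a2 a3 a4 a5 w s E hk hw hA hE m
    set b1 := a1 * (2 * k - 1) / (2 * k + 5) with hb1
    set b2 := a2 * (2 * k - 3) / (2 * k + 7) with hb2
    set b3 := a3 * (2 * k - 5) / (2 * k + 9) with hb3
    set b4 := a4 * (2 * k - 7) / (2 * k + 11) with hb4
    set b5 := a5 * (2 * k - 9) / (2 * k + 13) with hb5
    set y := D b1 b2 b3 b4 b5 / 10000000 + 1000000 with hy
    obtain ⟨w3, hw3, hres⟩ : ∃ w3 : ℕ, 1 ≤ w3 ∧ loopD D M (n + 1) k a1 a2 a3 a4 a5 w s =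
        loopD D M n (k + 2) b1 b2 b3 b4 b5 w3
          (s + (2 * y * w3 / 1000000000000 + y * y / (w3 * w3) + 2)) := by
      refine ⟨(2 * ((2 * (w * (k + 1) / (k + 2)) + y * 1000000000000 /
        ((w * (k + 1) / (k + 2)) * (w * (k + 1) / (k + 2)))) / 3) + y * 1000000000000 /
        (((2 * (w * (k + 1) / (k + 2)) + y * 1000000000000 /
        ((w * (k + 1) / (k + 2)) * (w * (k + 1) / (k + 2)))) / 3) *
        ((2 * (w * (k + 1) / (k + 2)) + y * 1000000000000 /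
        ((w * (k + 1) / (k + 2)) * (w * (k + 1) / (k + 2)))) / 3))) / 3 + 1,
        Nat.le_add_left 1 _, ?_⟩
      have : loopD D M (n + 1) k a1 a2 a3 a4 a5 w s =
        (sq (a1 * (2 * k - 1) / (2 * k + 5)) fun b1 =>
        sq (a2 * (2 * k - 3) / (2 * k + 7)) fun b2 =>
        sq (a3 * (2 * k - 5) / (2 * k + 9)) fun b3 =>
        sq (a4 * (2 * k - 7) / (2 * k + 11)) fun b4 =>
        sq (a5 * (2 * k - 9) / (2 * k + 13)) fun b5 =>
        sq (D b1 b2 b3 b4 b5 / 10000000 + 1000000) fun y =>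
        sq (y * 1000000000000) fun z =>
        sq (w * (k + 1) / (k + 2)) fun w1 =>
        sq ((2 * w1 + z / (w1 * w1)) / 3) fun w2 =>
        sq ((2 * w2 + z / (w2 * w2)) / 3 + 1) fun w3 =>
        sq (s + (2 * y * w3 / 1000000000000 + y * y / (w3 * w3) + 2)) fun t =>
        sq (k + 2) fun k' => loopD D M n k' b1 b2 b3 b4 b5 w3 t) := rfl
      rw [this]
      simp only [sq_eq]
      rfl
    rw [hres]
    have hA' : App X (k + 2) b1 b2 b3 b4 b5 (E + 1) := hA.step hX hk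
    have hE0 : 0 ≤ E := (abs_nonneg _).trans hA.1
    have hn0 : (0 : ℝ) ≤ n := Nat.cast_nonneg n
    have hE' : E + 1 + n ≤ 100000 := by push_cast at hE; linarith
    have ih' := ih (k + 2) b1 b2 b3 b4 b5 w3
      (s + (2 * y * w3 / 1000000000000 + y * y / (w3 * w3) + 2)) (E + 1) (by omega) hw3 hA' hE'
    have hKy : |K (k + 2)| * 10 ^ 24 ≤ (y : ℝ) := by
      have h1 := hD (k + 2) b1 b2 b3 b4 b5 (E + 1) hA'
      have h2 := floor_div (D b1 b2 b3 b4 b5) 10000000 (by norm_num)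
      rw [hy]
      push_cast at h2 ⊢
      linarith
    have hterm := term_le hw3 hKy
    cases m with
    | zero =>
      have := ih' 0
      rw [Finset.sum_range_zero, zero_add] at this ⊢
      refine le_trans ?_ this
      exact_mod_cast Nat.le_add_right _ _
    | succ m =>
      have := ih' m
      rw [Finset.sum_range_succ']
      have e1 : ∀ i : ℕ, k + 2 * (i + 1 + 1) = k + 2 + 2 * (i + 1) := fun i => by ring
      simp only [e1, zero_add, mul_one]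
      rw [Nat.cast_add] at this
      linarith

end Pool.Agent.AC2
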