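import Pool.Agent.AC2.Stmts

/-!
# VAN: the dual function is constant on the unit interval
-/

open MeasureTheory Set Real
open scoped ENNReal

namespace Pool.Agent.AC2

open Pool.Agent.AutoConv

namespace VAN_

/-- `cos (k (θ + π)) = (-1)^|k| cos (k θ)` -/
theorem cos_int_mul (k : ℤ) (θ : ℝ) :
    Real.cos (k * (θ + π)) = (-1 : ℝ) ^ k.natAbs * Real.cos (k * θ) := by
  rw [mul_add, Real.cos_add_int_mul_pi]
  congr 1
  rcases Int.natAbs_eq k with h | h
  · rw [h, Int.natAbs_natCast, zpow_natCast]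
  · rw [h, Int.natAbs_neg, Int.natAbs_natCast, zpow_neg, zpow_natCast]
    rcases neg_one_pow_eq_or ℝ k.natAbs with h2 | h2 <;> rw [h2] <;> norm_num

theorem nu_pos (j : ℕ) : (0 : ℝ) < ((j + 1 : ℕ) : ℝ) - 1 / 2 := by
  push_cast
  have : (0 : ℝ) ≤ j := Nat.cast_nonneg _
  linarith

theorem hasSum_one (h1 : Stmt_FOU) (j : ℕ) (θ : ℝ) (hθ : 0 ≤ Real.cos θ) :
    HasSum (fun k : ℤ => (-1 : ℝ) ^ k.natAbs * FF (j + 1) k.natAbs * Real.cos (k * θ)) 0 := by
  have h2 := (h1 (((j + 1 : ℕ) : ℝ) - 1 / 2) (nu_pos j)).2 (θ + π)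
  rw [Real.cos_add_pi, max_eq_right (by linarith), Real.zero_rpow (nu_pos j).ne', mul_zero] at h2
  have h3 := h2.div_const (II (-1 / 2) 0)
  rw [zero_div] at h3
  refine h3.congr_fun ?_
  intro k
  rw [cos_int_mul]
  unfold FF
  ring

theorem summable_one (h1 : Stmt_FOU) (j : ℕ) :
    Summable (fun k : ℤ => (-1 : ℝ) ^ k.natAbs * FF (j + 1) k.natAbs) := by
  have h2 := ((h1 (((j + 1 : ℕ) : ℝ) - 1 / 2) (nu_pos j)).2 π).summable.div_const (II (-1 / 2) 0)
  refine h2.congr ?_
  intro k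
  have h3 := cos_int_mul k 0
  rw [zero_add, mul_zero, Real.cos_zero, mul_one] at h3
  rw [h3]
  unfold FF
  ring

end VAN_

theorem van_proof (h1 : Stmt_FOU) (_h2 : Stmt_REC) : Stmt_VAN := by
  intro g lam
  constructor
  · have h3 : Summable (fun k : ℤ => ∑ j ∈ Finset.range 5,
        g j * ((-1 : ℝ) ^ k.natAbs * FF (j + 1) k.natAbs)) :=
      summable_sum fun j _ => (VAN_.summable_one h1 j).mul_left (g j)
    refine h3.congr ?_
    intro k
    rw [Finset.mul_sum]
    refine Finset.sum_congr rfl fun j _ => ?_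
    ring
  · intro x hx
    have hc : 0 ≤ Real.cos (π * (x - 1 / 2)) := by
      refine Real.cos_nonneg_of_mem_Icc ⟨?_, ?_⟩
      · nlinarith [hx.1, Real.pi_pos]
      · nlinarith [hx.2, Real.pi_pos]
    have h3 : HasSum (fun k : ℤ => ∑ j ∈ Finset.range 5,
        g j * ((-1 : ℝ) ^ k.natAbs * FF (j + 1) k.natAbs * Real.cos (k * (π * (x - 1 / 2)))))
        (∑ j ∈ Finset.range 5, g j * 0) :=
      hasSum_sum fun j _ => (VAN_.hasSum_one h1 j _ hc).mul_left (g j)
    have h4 : HasSum (fun k : ℤ => (if k = 0 then lam else 0) * Real.cos (π * k * (x - 1 / 2)))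
        lam := by
      have h5 := hasSum_single (f := fun k : ℤ => (if k = 0 then lam else 0) *
        Real.cos (π * k * (x - 1 / 2))) 0 (fun k hk => by simp [hk])
      simpa using h5
    have h6 := h4.add h3
    simp only [mul_zero, Finset.sum_const_zero, add_zero] at h6
    refine h6.congr_fun ?_
    intro k
    rw [add_mul, Finset.mul_sum, Finset.sum_mul]
    refine congrArg₂ (· + ·) rfl (Finset.sum_congr rfl fun j _ => ?_)
    rw [show π * (k : ℝ) * (x - 1 / 2) = k * (π * (x - 1 / 2)) by ring]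
    ring

end Pool.Agent.AC2
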