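import Pool.Agent.AC2.Stmts

/-!
# Young's inequality for the autoconvolution
-/

open MeasureTheory Set Real
open scoped ENNReal

namespace Pool.Agent.AC2

open Pool.Agent.AutoConv

namespace YNG_

/-- Cauchy-Schwarz for `lintegral` -/
theorem cs (g h : ℝ → ℝ≥0∞) (hg : Measurable g) (hh : Measurable h) :
    (∫⁻ t, g t * h t) ^ 2 ≤ (∫⁻ t, g t ^ 2) * (∫⁻ t, h t ^ 2) := by
  have h1 := ENNReal.lintegral_mul_le_Lp_mul_Lq volume Real.HolderConjugate.two_two hg.aemeasurable hh.aemeasurable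
  have h2 : (∫⁻ t, g t * h t) ≤ (∫⁻ t, g t ^ 2) ^ (1 / 2 : ℝ) * (∫⁻ t, h t ^ 2) ^ (1 / 2 : ℝ) := by
    simpa [ENNReal.rpow_two] using h1
  calc (∫⁻ t, g t * h t) ^ 2 ≤ ((∫⁻ t, g t ^ 2) ^ (1 / 2 : ℝ) * (∫⁻ t, h t ^ 2) ^ (1 / 2 : ℝ)) ^ 2 := by
        gcongr
    _ = (∫⁻ t, g t ^ 2) * (∫⁻ t, h t ^ 2) := by
        rw [mul_pow]
        rw [← ENNReal.rpow_two, ← ENNReal.rpow_two, ← ENNReal.rpow_mul, ← ENNReal.rpow_mul]
        norm_num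

theorem rp (a : ℝ≥0∞) (p q : ℝ) (hp : 0 ≤ p) (hq : 0 ≤ q) : a ^ p * a ^ q = a ^ (p + q) :=
  (ENNReal.rpow_add_of_nonneg p q hp hq).symm

theorem rsq (a : ℝ≥0∞) (p : ℝ) : (a ^ p) ^ 2 = a ^ (2 * p) := by
  rw [← ENNReal.rpow_two, ← ENNReal.rpow_mul]
  ring_nf

theorem pointwise (F : ℝ → ℝ≥0∞) (hF : Measurable F) (x : ℝ) :
    (∫⁻ t, F t * F (x - t)) ^ 2 ≤
      (∫⁻ t, F t ^ (4 / 3 : ℝ) * F (x - t) ^ (4 / 3 : ℝ)) * ∫⁻ t, F t ^ (4 / 3 : ℝ) := by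
  have hFx : Measurable fun t => F (x - t) := hF.comp (measurable_const.sub measurable_id)
  have e1 : ∀ t, F t * F (x - t) = (F t ^ (2 / 3 : ℝ) * F (x - t) ^ (2 / 3 : ℝ)) *
      (F t ^ (1 / 3 : ℝ) * F (x - t) ^ (1 / 3 : ℝ)) := by
    intro t
    rw [mul_mul_mul_comm, rp _ _ _ (by norm_num) (by norm_num), rp _ _ _ (by norm_num) (by norm_num)]
    norm_num
  have m1 : Measurable fun t => F t ^ (2 / 3 : ℝ) * F (x - t) ^ (2 / 3 : ℝ) :=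
    (hF.pow_const _).mul (hFx.pow_const _)
  have m2 : Measurable fun t => F t ^ (1 / 3 : ℝ) * F (x - t) ^ (1 / 3 : ℝ) :=
    (hF.pow_const _).mul (hFx.pow_const _)
  have h1 := cs _ _ m1 m2
  have e2 : ∀ t, (F t ^ (2 / 3 : ℝ) * F (x - t) ^ (2 / 3 : ℝ)) ^ 2 = F t ^ (4 / 3 : ℝ) * F (x - t) ^ (4 / 3 : ℝ) := by
    intro t
    rw [mul_pow, rsq, rsq]
    norm_num
  have e3 : ∀ t, (F t ^ (1 / 3 : ℝ) * F (x - t) ^ (1 / 3 : ℝ)) ^ 2 = F t ^ (2 / 3 : ℝ) * F (x - t) ^ (2 / 3 : ℝ) := by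
    intro t
    rw [mul_pow, rsq, rsq]
    norm_num
  simp only [e2, e3] at h1
  simp only [e1]
  refine h1.trans (mul_le_mul_right ?_ _)
  have h2 := cs _ _ (hF.pow_const (2 / 3 : ℝ)) (hFx.pow_const (2 / 3 : ℝ))
  simp only [rsq] at h2
  have e4 : ∫⁻ t, F (x - t) ^ (2 * (2 / 3) : ℝ) = ∫⁻ t, F t ^ (2 * (2 / 3) : ℝ) :=
    lintegral_sub_left_eq_self (fun t => F t ^ (2 * (2 / 3) : ℝ)) x
  rw [e4] at h2
  have e5 : (2 * (2 / 3) : ℝ) = 4 / 3 := by norm_num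
  rw [e5, ← sq] at h2
  exact (ENNReal.pow_le_pow_left_iff (by norm_num)).1 h2

theorem total (F : ℝ → ℝ≥0∞) (hF : Measurable F) :
    ∫⁻ x, (∫⁻ t, F t * F (x - t)) ^ 2 ≤ (∫⁻ t, F t ^ (4 / 3 : ℝ)) ^ 3 := by
  have hG : Measurable fun t => F t ^ (4 / 3 : ℝ) := hF.pow_const _
  have m : Measurable (Function.uncurry fun x t : ℝ => F t ^ (4 / 3 : ℝ) * F (x - t) ^ (4 / 3 : ℝ)) := by
    have a1 : Measurable fun p : ℝ × ℝ => F p.2 ^ (4 / 3 : ℝ) := hG.comp measurable_snd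
    have a2 : Measurable fun p : ℝ × ℝ => F (p.1 - p.2) ^ (4 / 3 : ℝ) :=
      hG.comp (measurable_fst.sub measurable_snd)
    exact a1.mul a2
  calc ∫⁻ x, (∫⁻ t, F t * F (x - t)) ^ 2
      ≤ ∫⁻ x, (∫⁻ t, F t ^ (4 / 3 : ℝ) * F (x - t) ^ (4 / 3 : ℝ)) * ∫⁻ t, F t ^ (4 / 3 : ℝ) :=
        lintegral_mono fun x => pointwise F hF x
    _ = (∫⁻ x, ∫⁻ t, F t ^ (4 / 3 : ℝ) * F (x - t) ^ (4 / 3 : ℝ)) * ∫⁻ t, F t ^ (4 / 3 : ℝ) :=
        lintegral_mul_const _ (Measurable.lintegral_prod_right m)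
    _ = (∫⁻ t, ∫⁻ x, F t ^ (4 / 3 : ℝ) * F (x - t) ^ (4 / 3 : ℝ)) * ∫⁻ t, F t ^ (4 / 3 : ℝ) := by
        rw [lintegral_lintegral_swap m.aemeasurable]
    _ = (∫⁻ t, F t ^ (4 / 3 : ℝ) * ∫⁻ x, F x ^ (4 / 3 : ℝ)) * ∫⁻ t, F t ^ (4 / 3 : ℝ) := by
        congr 1
        refine lintegral_congr fun t => ?_
        have m3 : Measurable fun x : ℝ => F (x - t) ^ (4 / 3 : ℝ) := hG.comp (measurable_id.sub_const t)
        rw [lintegral_const_mul _ m3]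
        congr 1
        exact lintegral_sub_right_eq_self (fun x => F x ^ (4 / 3 : ℝ)) t
    _ = (∫⁻ t, F t ^ (4 / 3 : ℝ)) ^ 3 := by
        rw [lintegral_mul_const _ hG]
        ring

end YNG_

open YNG_ in
theorem yng_proof : Stmt_YNG := by
  intro f hf hf0 hfin
  have hF : Measurable fun x => ENNReal.ofReal (f x) := hf.ennreal_ofReal
  have hp : ∀ x, ENNReal.ofReal (f x) ^ (4 / 3 : ℝ) = ENNReal.ofReal (f x ^ (4 / 3 : ℝ)) := fun x =>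
    ENNReal.ofReal_rpow_of_nonneg (hf0 x) (by norm_num)
  have hm : StronglyMeasurable (autoconv f) := by
    have : Measurable (Function.uncurry fun x t : ℝ => f t * f (x - t)) := by
      have a1 : Measurable fun p : ℝ × ℝ => f p.2 := hf.comp measurable_snd
      have a2 : Measurable fun p : ℝ × ℝ => f (p.1 - p.2) := hf.comp (measurable_fst.sub measurable_snd)
      exact a1.mul a2
    exact this.stronglyMeasurable.integral_prod_right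
  refine ⟨hm.aestronglyMeasurable, ?_⟩
  rw [eLpNorm_lt_top_iff_lintegral_rpow_enorm_lt_top (by norm_num) (by norm_num)]
  have e : ∀ x, ‖autoconv f x‖ₑ ≤ ∫⁻ t, ENNReal.ofReal (f t) * ENNReal.ofReal (f (x - t)) := by
    intro x
    refine (enorm_integral_le_lintegral_enorm _).trans (le_of_eq ?_)
    refine lintegral_congr fun t => ?_
    rw [← ENNReal.ofReal_mul (hf0 t), Real.enorm_eq_ofReal (mul_nonneg (hf0 _) (hf0 _))]
  have t := total _ hF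
  simp only [hp] at t
  refine lt_of_le_of_lt (lintegral_mono fun x => ?_) (lt_of_le_of_lt t (ENNReal.pow_lt_top (lt_top_iff_ne_top.2 hfin)))
  simp only [ENNReal.toReal_ofNat]
  rw [ENNReal.rpow_two]
  exact pow_le_pow_left' (e x) 2

end Pool.Agent.AC2
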