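import Pool.Agent.AC2.Last
import Pool.Agent.AC2.PAR
import Pool.Agent.AC2.LOW
import Pool.Agent.AC2.YNG
import Pool.Agent.AC2.REC
import Pool.Agent.AC2.FOU
import Pool.Agent.AC2.RHO
import Pool.Agent.AC2.VAN
import Pool.Agent.AC2.DEN

/-!
# The minimal L² norm of autoconvolutions on the unit interval: ten digits of `c(2)²`
-/

open MeasureTheory
open scoped ENNReal

namespace Pool.Agent.AC2.SquareNorm

open Pool.Agent.AutoConv Pool.Agent.AC2

/-- `0.57463960712 ≤ c(2)² ≤ 0.57463960716`. -/
theorem result : ENNReal.ofReal (57463960712 / 100000000000) ≤ minNorm 2 ^ 2 ∧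
    minNorm 2 ^ 2 ≤ ENNReal.ofReal (57463960716 / 100000000000) :=
  bounds (low_proof par_proof) (van_proof (fou_proof rec_proof) rec_proof) par_proof
    (den_proof yng_proof rec_proof) rec_proof (rho_proof rec_proof (fou_proof rec_proof))

end Pool.Agent.AC2.SquareNorm
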