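import Pool.Agent.AC2.Defs

/-!
# Statements of the modules
-/

open MeasureTheory Set Real
open scoped ENNReal

namespace Pool.Agent.AC2

open Pool.Agent.AutoConv

/-- PAR. Parseval on a circle of length 2: `4 Σ |½ c_k²|² = 2 ∫ (f*f)²`. -/
def Stmt_PAR : Prop :=
  ∀ f : ℝ → ℝ, IsUnitIntervalDensity f → MemLp (autoconv f) 2 volume →
    HasSum (fun k : ℤ => ‖fc f k‖ ^ 4) (2 * ∫ x, autoconv f x ^ 2)

/-- LOW. Weak duality. -/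
def Stmt_LOW : Prop :=
  ∀ (f : ℝ → ℝ) (K e : ℤ → ℝ) (lam : ℝ), IsUnitIntervalDensity f →
    MemLp (autoconv f) 2 volume → (∀ k, 0 < e k) → Summable K →
    Summable (fun k => 2 * |K k| * e k + K k ^ 2 / e k ^ 2) →
    (∀ x ∈ Icc (0 : ℝ) 1, HasSum (fun k : ℤ => K k * Real.cos (π * k * (x - 1 / 2))) lam) →
    2 * lam - (∑' k, (2 * |K k| * e k + K k ^ 2 / e k ^ 2)) / 2 ≤ ∫ x, autoconv f x ^ 2

/-- YNG. Young's inequality `‖f * f‖₂² ≤ (∫ f^{4/3})³`. -/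
def Stmt_YNG : Prop :=
  ∀ f : ℝ → ℝ, Measurable f → (∀ x, 0 ≤ f x) →
    (∫⁻ x, ENNReal.ofReal (f x ^ (4 / 3 : ℝ))) ≠ ⊤ → MemLp (autoconv f) 2 volume

/-- REC. Integration by parts and product formula. -/
def Stmt_REC : Prop :=
  ∀ ν : ℝ, -1 < ν → 0 < II ν 0 ∧ (∀ k : ℕ, (ν + k + 2) * II ν (k + 2) = (ν - k) * II ν k) ∧
    II (ν + 1) 0 = II ν 1 ∧ ∀ k : ℕ, II (ν + 1) (k + 1) = (II ν (k + 2) + II ν k) / 2

/-- FOU. The Fourier series of `max (cos x) 0 ^ ν` for `ν > 0`. -/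
def Stmt_FOU : Prop :=
  ∀ ν : ℝ, 0 < ν → Summable (fun k : ℤ => II ν k.natAbs) ∧
    ∀ x : ℝ, HasSum (fun k : ℤ => II ν k.natAbs * Real.cos (k * x))
      (2 * π * (max (Real.cos x) 0) ^ ν)

/-- RHO. The quotient of the two basic constants, to 23 digits. -/
def Stmt_RHO : Prop :=
  |FF 0 1 - 456946581044463625374966 / 10 ^ 24| ≤ 1 / 10 ^ 23

/-- DEC. Decay: `F_j(k)² (k + 1/4)^(2j+1)` is nonincreasing in steps of two. -/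
def Stmt_DEC : Prop :=
  ∀ j k : ℕ, j ≤ 5 → 5 ≤ k →
    FF j (k + 2) ^ 2 * ((k : ℝ) + 2 + 1 / 4) ^ (2 * j + 1) ≤
      FF j k ^ 2 * ((k : ℝ) + 1 / 4) ^ (2 * j + 1)

/-- DEN. The test functions `Σ B_j cos^{j-1/2}(π(x-1/2))`, normalised. -/
def Stmt_DEN : Prop :=
  ∀ B : ℕ → ℝ, (∀ c ∈ Icc (0 : ℝ) 1, 0 ≤ ∑ j ∈ Finset.range 5, B j * c ^ j) →
    0 < ∑ j ∈ Finset.range 5, B j * FF j 0 →
    ∃ f : ℝ → ℝ, IsUnitIntervalDensity f ∧ MemLp (autoconv f) 2 volume ∧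
      ∀ k : ℤ, ‖fc f k‖ = |∑ j ∈ Finset.range 5, B j * FF j k.natAbs| /
        ∑ j ∈ Finset.range 5, B j * FF j 0

/-- VAN. Value of the dual function on the unit interval. -/
def Stmt_VAN : Prop :=
  ∀ (g : ℕ → ℝ) (lam : ℝ),
    Summable (fun k : ℤ => (-1 : ℝ) ^ k.natAbs * ∑ j ∈ Finset.range 5, g j * FF (j + 1) k.natAbs) ∧
    ∀ x ∈ Icc (0 : ℝ) 1, HasSum (fun k : ℤ => ((if k = 0 then lam else 0) +
      (-1 : ℝ) ^ k.natAbs * ∑ j ∈ Finset.range 5, g j * FF (j + 1) k.natAbs) *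
        Real.cos (π * k * (x - 1 / 2))) lam

end Pool.Agent.AC2
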