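import Pool.Agent.AC2.Sgn
import Pool.Agent.AC2.NumD5
import Pool.Agent.AC2.NumD6
import Pool.Agent.AC2.NumP5
import Pool.Agent.AC2.NumP6

/-!
# The four infinite sums
-/

open MeasureTheory Set Real

namespace Pool.Agent.AC2

theorem rho_bd (h : Stmt_RHO) : 456946581044463625374956 / 10 ^ 24 ≤ FF 0 1 ∧
    FF 0 1 ≤ 456946581044463625374976 / 10 ^ 24 := by
  have h1 := abs_le.1 h
  constructor <;> norm_num at h1 ⊢ <;> linarith [h1.1, h1.2]

theorem rho_pos (h : Stmt_RHO) : 0 < FF 0 1 := by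
  have := (rho_bd h).1
  have h2 : (0 : ℝ) < 456946581044463625374956 / 10 ^ 24 := by positivity
  linarith

theorem leD5 : loopD dOdd eOdd 30000 5 21645021645021645021646 7029947400684055775000
      4329004329004329004330 4824473706351802982843 14354066985645933014355 202230859070
      0 ≤
      9925225775513495444163 := by
  have := numD5
  rw [Nat.ble_eq] at this
  exact this

theorem leD6 : loopD dEvn eEvn 30000 6 16403210601596130141666 4329004329004329004330
      2067631588436486992647 1594896331738437001595 2067631588436486992647 178140146188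
      0 ≤
      8031730101550983762256 := by
  have := numD6
  rw [Nat.ble_eq] at this
  exact this

theorem leP5 : loopP pOdd fOdd 30000 5 213241737820749691841651 21645021645021645021646
      7029947400684055775000 4329004329004329004330 4824473706351802982843 0 ≤
      3308444095643542647004663854888332755587347434272398533657 := by
  have := numP5
  rw [Nat.ble_eq] at this
  exact this

theorem leP6 : loopP pEvn fEvn 30000 6 194805194805194805194806 16403210601596130141666
      4329004329004329004330 2067631588436486992647 1594896331738437001595 0 ≤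
      2677214721477400828740152196600127726862336257122050380691 := by
  have := numP6
  rw [Nat.ble_eq] at this
  exact this

section
variable (h : Stmt_REC) (hρ : Stmt_RHO)
include h hρ

theorem xv05 : XX 0 5 = 7 / 15 * FF 0 1 := by
  have r0 := rho_pos hρ
  unfold XX
  rw [v05 h, abs_of_pos (by linarith)]

theorem xv15 : XX 1 5 = 5 / 231 := by
  have r0 := rho_pos hρ
  unfold XX
  rw [v15 h, abs_of_pos (by norm_num)]

theorem xv25 : XX 2 5 = 1 / 65 * FF 0 1 := by
  have r0 := rho_pos hρ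
  unfold XX
  rw [v25 h, abs_of_neg (by linarith)]
  ring

theorem xv35 : XX 3 5 = 1 / 231 := by
  have r0 := rho_pos hρ
  unfold XX
  rw [v35 h, abs_of_neg (by norm_num)]
  norm_num

theorem xv45 : XX 4 5 = 7 / 663 * FF 0 1 := by
  have r0 := rho_pos hρ
  unfold XX
  rw [v45 h, abs_of_pos (by linarith)]

theorem xv55 : XX 5 5 = 3 / 209 := by
  have r0 := rho_pos hρ
  unfold XX
  rw [v55 h, abs_of_pos (by norm_num)]

theorem xv06 : XX 0 6 = 15 / 77 := by
  have r0 := rho_pos hρ
  unfold XX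
  rw [v06 h, abs_of_neg (by norm_num)]
  norm_num

theorem xv16 : XX 1 6 = 7 / 195 * FF 0 1 := by
  have r0 := rho_pos hρ
  unfold XX
  rw [v16 h, abs_of_pos (by linarith)]

theorem xv26 : XX 2 6 = 1 / 231 := by
  have r0 := rho_pos hρ
  unfold XX
  rw [v26 h, abs_of_pos (by norm_num)]

theorem xv36 : XX 3 6 = 1 / 221 * FF 0 1 := by
  have r0 := rho_pos hρ
  unfold XX
  rw [v36 h, abs_of_neg (by linarith)]
  ring

theorem xv46 : XX 4 6 = 1 / 627 := by
  have r0 := rho_pos hρ
  unfold XX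
  rw [v46 h, abs_of_neg (by norm_num)]
  norm_num

theorem xv56 : XX 5 6 = 1 / 221 * FF 0 1 := by
  have r0 := rho_pos hρ
  unfold XX
  rw [v56 h, abs_of_pos (by linarith)]

theorem app5 : App XX 5 21645021645021645021646 7029947400684055775000
    4329004329004329004330 4824473706351802982843 14354066985645933014355 10 := by
  obtain ⟨r1, r2⟩ := rho_bd hρ
  refine ⟨?_, ?_, ?_, ?_, ?_⟩
  · rw [xv15 h hρ, abs_le]
    constructor <;> norm_num
  · rw [xv25 h hρ, abs_le]
    constructor <;> norm_num <;> norm_num at r1 r2 <;> linarith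
  · rw [xv35 h hρ, abs_le]
    constructor <;> norm_num
  · rw [xv45 h hρ, abs_le]
    constructor <;> norm_num <;> norm_num at r1 r2 <;> linarith
  · rw [xv55 h hρ, abs_le]
    constructor <;> norm_num

theorem app6 : App XX 6 16403210601596130141666 4329004329004329004330
    2067631588436486992647 1594896331738437001595 2067631588436486992647 10 := by
  obtain ⟨r1, r2⟩ := rho_bd hρ
  refine ⟨?_, ?_, ?_, ?_, ?_⟩
  · rw [xv16 h hρ, abs_le]
    constructor <;> norm_num <;> norm_num at r1 r2 <;> linarith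
  · rw [xv26 h hρ, abs_le]
    constructor <;> norm_num
  · rw [xv36 h hρ, abs_le]
    constructor <;> norm_num <;> norm_num at r1 r2 <;> linarith
  · rw [xv46 h hρ, abs_le]
    constructor <;> norm_num
  · rw [xv56 h hρ, abs_le]
    constructor <;> norm_num <;> norm_num at r1 r2 <;> linarith

theorem app05 : App0 XX 5 213241737820749691841651 21645021645021645021646
    7029947400684055775000 4329004329004329004330 4824473706351802982843 10 := by
  obtain ⟨r1, r2⟩ := rho_bd hρ
  obtain ⟨h1, h2, h3, h4, h5⟩ := app5 h hρ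
  refine ⟨?_, h1, h2, h3, h4⟩
  · rw [xv05 h hρ, abs_le]
    constructor <;> norm_num <;> norm_num at r1 r2 <;> linarith

theorem app06 : App0 XX 6 194805194805194805194806 16403210601596130141666
    4329004329004329004330 2067631588436486992647 1594896331738437001595 10 := by
  obtain ⟨r1, r2⟩ := rho_bd hρ
  obtain ⟨h1, h2, h3, h4, h5⟩ := app6 h hρ
  refine ⟨?_, h1, h2, h3, h4⟩
  · rw [xv06 h hρ, abs_le]
    constructor <;> norm_num

theorem sumK_odd (m : ℕ) : ∑ i ∈ Finset.range m, 3 * |Kq (7 + 2 * i)| ^ (4 / 3 : ℝ) ≤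
    9925225775513495444163 / 10 ^ 24 := by
  have h1 := loopD_sound (isX h) (D := dOdd) (M := eOdd) (K := KO XX)
    (fun k a1 a2 a3 a4 a5 E hA => hD_KO k a1 a2 a3 a4 a5 E hA)
    (fun k a1 a2 a3 a4 a5 E hk hA i => hM_KO (isX h) k a1 a2 a3 a4 a5 E hk hA i)
    30000 5 _ _ _ _ _ 202230859070 0 10 (by norm_num) (by norm_num) (app5 h hρ) (by norm_num) m
  have h2 := leD5
  have h3 := h1.trans (Nat.cast_le.2 h2)
  have h4 : ∑ i ∈ Finset.range m, (3 * |KO XX (5 + 2 * (i + 1))| ^ (4 / 3 : ℝ) * 10 ^ 24 : ℝ) =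
      (∑ i ∈ Finset.range m, 3 * |Kq (7 + 2 * i)| ^ (4 / 3 : ℝ)) * 10 ^ 24 := by
    rw [Finset.sum_mul]
    refine Finset.sum_congr rfl fun i _ => ?_
    rw [← absK_odd h (rho_pos hρ) (i + 1), show 5 + 2 * (i + 1) = 7 + 2 * i by ring]
  rw [h4, Nat.cast_zero, add_zero] at h3
  rw [le_div_iff₀ (by positivity)]
  exact_mod_cast h3

theorem sumK_evn (m : ℕ) : ∑ i ∈ Finset.range m, 3 * |Kq (8 + 2 * i)| ^ (4 / 3 : ℝ) ≤
    8031730101550983762256 / 10 ^ 24 := by
  have h1 := loopD_sound (isX h) (D := dEvn) (M := eEvn) (K := KE XX)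
    (fun k a1 a2 a3 a4 a5 E hA => hD_KE k a1 a2 a3 a4 a5 E hA)
    (fun k a1 a2 a3 a4 a5 E hk hA i => hM_KE (isX h) k a1 a2 a3 a4 a5 E hk hA i)
    30000 6 _ _ _ _ _ 178140146188 0 10 (by norm_num) (by norm_num) (app6 h hρ) (by norm_num) m
  have h2 := leD6
  have h3 := h1.trans (Nat.cast_le.2 h2)
  have h4 : ∑ i ∈ Finset.range m, (3 * |KE XX (6 + 2 * (i + 1))| ^ (4 / 3 : ℝ) * 10 ^ 24 : ℝ) =
      (∑ i ∈ Finset.range m, 3 * |Kq (8 + 2 * i)| ^ (4 / 3 : ℝ)) * 10 ^ 24 := by
    rw [Finset.sum_mul]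
    refine Finset.sum_congr rfl fun i _ => ?_
    rw [← absK_evn h (rho_pos hρ) (i + 1), show 6 + 2 * (i + 1) = 8 + 2 * i by ring]
  rw [h4, Nat.cast_zero, add_zero] at h3
  rw [le_div_iff₀ (by positivity)]
  exact_mod_cast h3

theorem sumU_odd (m : ℕ) : ∑ i ∈ Finset.range m, Uq (7 + 2 * i) ^ 4 ≤
    3308444095643542647004663854888332755587347434272398533657 / 10 ^ 60 := by
  have h1 := loopP_sound (isX h) (D := pOdd) (M := fOdd) (U := UO XX)
    (fun k a1 a2 a3 a4 a5 E hA => hD_UO k a1 a2 a3 a4 a5 E hA)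
    (fun k a1 a2 a3 a4 a5 E hk hA i => hM_UO (isX h) k a1 a2 a3 a4 a5 E hk hA i)
    30000 5 _ _ _ _ _ 0 10 (by norm_num) (app05 h hρ) (by norm_num) m
  have h2 := leP5
  have h3 := h1.trans (Nat.cast_le.2 h2)
  have h4 : ∑ i ∈ Finset.range m, (UO XX (5 + 2 * (i + 1)) ^ 4 * 10 ^ 60 : ℝ) =
      (∑ i ∈ Finset.range m, Uq (7 + 2 * i) ^ 4) * 10 ^ 60 := by
    rw [Finset.sum_mul]
    refine Finset.sum_congr rfl fun i _ => ?_
    rw [(Even.pow_abs (by decide) (UO XX (5 + 2 * (i + 1)))).symm,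
      ← absU_odd h (rho_pos hρ) (i + 1), Even.pow_abs (by decide),
      show 5 + 2 * (i + 1) = 7 + 2 * i by ring]
  rw [h4, Nat.cast_zero, add_zero] at h3
  rw [le_div_iff₀ (by positivity)]
  exact_mod_cast h3

theorem sumU_evn (m : ℕ) : ∑ i ∈ Finset.range m, Uq (8 + 2 * i) ^ 4 ≤
    2677214721477400828740152196600127726862336257122050380691 / 10 ^ 60 := by
  have h1 := loopP_sound (isX h) (D := pEvn) (M := fEvn) (U := UE XX)
    (fun k a1 a2 a3 a4 a5 E hA => hD_UE k a1 a2 a3 a4 a5 E hA)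
    (fun k a1 a2 a3 a4 a5 E hk hA i => hM_UE (isX h) k a1 a2 a3 a4 a5 E hk hA i)
    30000 6 _ _ _ _ _ 0 10 (by norm_num) (app06 h hρ) (by norm_num) m
  have h2 := leP6
  have h3 := h1.trans (Nat.cast_le.2 h2)
  have h4 : ∑ i ∈ Finset.range m, (UE XX (6 + 2 * (i + 1)) ^ 4 * 10 ^ 60 : ℝ) =
      (∑ i ∈ Finset.range m, Uq (8 + 2 * i) ^ 4) * 10 ^ 60 := by
    rw [Finset.sum_mul]
    refine Finset.sum_congr rfl fun i _ => ?_
    rw [(Even.pow_abs (by decide) (UE XX (6 + 2 * (i + 1)))).symm,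
      ← absU_evn h (rho_pos hρ) (i + 1), Even.pow_abs (by decide),
      show 6 + 2 * (i + 1) = 8 + 2 * i by ring]
  rw [h4, Nat.cast_zero, add_zero] at h3
  rw [le_div_iff₀ (by positivity)]
  exact_mod_cast h3

end

end Pool.Agent.AC2
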